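import Pool.Agent.Helper76.CDET.Deriv

/-!
Determinant sums for arbitrary tests (MP_b6562f_lc): the coefficient of any monomial in the
derivative variables is in the span of the minors.
-/

set_option autoImplicit false

namespace Pool.GT

open Finset MvPolynomial Pool.SDL Pool.Agent.SDet Pool.Agent.Helper76.CDET
open scoped BigOperators

section
variable {K : Type} [Field K] {σ Y : Type}

/-- polynomials in `σ ⊕ Y` as polynomials in `Y` over polynomials in `σ` -/
noncomputable def Th (K σ Y : Type) [Field K] :
    MvPolynomial (σ ⊕ Y) K →ₐ[K] MvPolynomial Y (MvPolynomial σ K) :=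
  aeval (Sum.elim (fun s => C (X s)) fun y => X y)

theorem Th_monomial (μ : (σ ⊕ Y) →₀ ℕ) (a : K) :
    Th K σ Y (monomial μ a) = monomial (μ.comapDomain Sum.inr Sum.inr_injective.injOn)
      (monomial (μ.comapDomain Sum.inl Sum.inl_injective.injOn) a) := by
  classical
  have hμ : μ = Finsupp.mapDomain Sum.inl (μ.comapDomain Sum.inl Sum.inl_injective.injOn) +
      Finsupp.mapDomain Sum.inr (μ.comapDomain Sum.inr Sum.inr_injective.injOn) := by
    ext x
    rcases x with s | y
    · rw [Finsupp.add_apply, Finsupp.mapDomain_apply Sum.inl_injective,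
        Finsupp.mapDomain_of_notMem_range _ _ (by simp), add_zero, Finsupp.comapDomain_apply]
    · rw [Finsupp.add_apply, Finsupp.mapDomain_apply Sum.inr_injective,
        Finsupp.mapDomain_of_notMem_range _ _ (by simp), zero_add, Finsupp.comapDomain_apply]
  generalize μ.comapDomain Sum.inl Sum.inl_injective.injOn = u at hμ ⊢
  generalize μ.comapDomain Sum.inr Sum.inr_injective.injOn = v at hμ ⊢
  subst hμ
  rw [Th, aeval_monomial, Finsupp.prod_add_index' (by simp) (by intros; rw [pow_add]),
    Finsupp.prod_mapDomain_index_inj Sum.inl_injective,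
    Finsupp.prod_mapDomain_index_inj Sum.inr_injective]
  simp only [Sum.elim_inl, Sum.elim_inr]
  have h1 : (u.prod fun s k => (C (X s) : MvPolynomial Y (MvPolynomial σ K)) ^ k) =
      C (monomial u (1 : K)) := by
    rw [monomial_eq, C_1, one_mul, Finsupp.prod, Finsupp.prod, map_prod]
    simp
  have h2 : (v.prod fun s k => (X s : MvPolynomial Y (MvPolynomial σ K)) ^ k) =
      monomial v 1 := by
    rw [monomial_eq, C_1, one_mul]
  have h3 : (algebraMap K (MvPolynomial Y (MvPolynomial σ K))) a = C (C a) := by
    rw [IsScalarTower.algebraMap_apply K (MvPolynomial σ K) (MvPolynomial Y (MvPolynomial σ K)),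
      algebraMap_eq, algebraMap_eq]
  rw [h1, h2, h3, C_mul_monomial, mul_one, C_mul_monomial, C_mul_monomial, mul_one]

theorem coeff_Th (κ : Y →₀ ℕ) (T : σ →₀ ℕ) (f : MvPolynomial (σ ⊕ Y) K) :
    coeff T (coeff κ (Th K σ Y f)) =
      coeff (Finsupp.mapDomain Sum.inl T + Finsupp.mapDomain Sum.inr κ) f := by
  classical
  induction f using MvPolynomial.induction_on' with
  | add p q hp hq => rw [map_add, coeff_add, coeff_add, coeff_add, hp, hq]
  | monomial μ a =>
    rw [Th_monomial, coeff_monomial, coeff_monomial]
    have key : μ = Finsupp.mapDomain Sum.inl T + Finsupp.mapDomain Sum.inr κ ↔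
        μ.comapDomain Sum.inr Sum.inr_injective.injOn = κ ∧
        μ.comapDomain Sum.inl Sum.inl_injective.injOn = T := by
      constructor
      · rintro rfl
        constructor
        · ext y
          rw [Finsupp.comapDomain_apply, Finsupp.add_apply,
            Finsupp.mapDomain_apply Sum.inr_injective,
            Finsupp.mapDomain_of_notMem_range _ _ (by simp), zero_add]
        · ext y
          rw [Finsupp.comapDomain_apply, Finsupp.add_apply,
            Finsupp.mapDomain_apply Sum.inl_injective,
            Finsupp.mapDomain_of_notMem_range _ _ (by simp), add_zero]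
      · rintro ⟨h1, h2⟩
        ext x
        rcases x with s | y
        · rw [Finsupp.add_apply, Finsupp.mapDomain_apply Sum.inl_injective,
            Finsupp.mapDomain_of_notMem_range _ _ (by simp), add_zero, ← h2,
            Finsupp.comapDomain_apply]
        · rw [Finsupp.add_apply, Finsupp.mapDomain_apply Sum.inr_injective,
            Finsupp.mapDomain_of_notMem_range _ _ (by simp), zero_add, ← h1,
            Finsupp.comapDomain_apply]
    by_cases h : μ = Finsupp.mapDomain Sum.inl T + Finsupp.mapDomain Sum.inr κ
    · obtain ⟨h1, h2⟩ := key.1 h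
      rw [if_pos h, if_pos h1, coeff_monomial, if_pos h2]
    · rw [if_neg h]
      by_cases h1 : μ.comapDomain Sum.inr Sum.inr_injective.injOn = κ
      · rw [if_pos h1, coeff_monomial, if_neg]
        intro h2
        exact h (key.2 ⟨h1, h2⟩)
      · rw [if_neg h1, coeff_zero]

/-- the linear forms in the variables `Y` with coefficients in `K` -/
noncomputable def Lin (K σ Y : Type) [Field K] :
    Submodule K (MvPolynomial Y (MvPolynomial σ K)) :=
  Submodule.span K (Set.range fun y => (X y : MvPolynomial Y (MvPolynomial σ K)))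

theorem Th_affine (p : MvPolynomial (σ ⊕ Y) K) (hp : p.totalDegree ≤ 1) :
    Th K σ Y p - C (eps0 K σ Y p) ∈ Lin K σ Y := by
  classical
  have hsum := p.as_sum
  rw [hsum, map_sum, map_sum, map_sum, ← Finset.sum_sub_distrib]
  refine Submodule.sum_mem _ fun μ hμ => ?_
  have hdeg : μ.degree ≤ 1 := by
    have := le_totalDegree hμ
    rw [Finsupp.degree_apply]
    exact this.trans hp
  set a := coeff μ p with ha
  have hcase : μ = 0 ∨ ∃ x, μ = Finsupp.single x 1 := by
    by_cases h0 : μ = 0
    · exact Or.inl h0
    · right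
      obtain ⟨x, hx⟩ := Finsupp.ne_iff.1 h0
      refine ⟨x, ?_⟩
      have hle : Finsupp.single x 1 ≤ μ := by
        rw [Finsupp.single_le_iff]
        exact Nat.one_le_iff_ne_zero.2 hx
      have h2 := congrArg Finsupp.degree (tsub_add_cancel_of_le hle)
      rw [map_add, Finsupp.degree_single] at h2
      have h3 : (μ - Finsupp.single x 1).degree = 0 := by omega
      rw [Finsupp.degree_eq_zero_iff] at h3
      have h4 := tsub_add_cancel_of_le hle
      rw [h3, zero_add] at h4
      exact h4.symm
  rcases hcase with rfl | ⟨x, rfl⟩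
  · have : Th K σ Y (monomial 0 a) - C (eps0 K σ Y (monomial 0 a)) = 0 := by
      have h1 : (monomial (0 : (σ ⊕ Y) →₀ ℕ) a) = algebraMap K _ a := rfl
      rw [h1, AlgHom.commutes, AlgHom.commutes]
      rw [IsScalarTower.algebraMap_apply K (MvPolynomial σ K) (MvPolynomial Y (MvPolynomial σ K)),
        algebraMap_eq, sub_self]
    rw [this]
    exact Submodule.zero_mem _
  · have h1 : (monomial (Finsupp.single x 1) a : MvPolynomial (σ ⊕ Y) K) = a • X x := by
      rw [X, smul_monomial, smul_eq_mul, mul_one]
    rw [h1, map_smul, map_smul]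
    rcases x with s | y
    · have : a • Th K σ Y (X (Sum.inl s)) -
          C (a • eps0 K σ Y (X (Sum.inl s))) = 0 := by
        rw [Th, eps0, aeval_X, aeval_X]
        simp only [Sum.elim_inl]
        rw [smul_eq_C_mul, map_mul]
        rw [← algebraMap_smul (MvPolynomial σ K) a (C (X s) : MvPolynomial Y (MvPolynomial σ K)),
          algebraMap_eq, smul_eq_C_mul, sub_self]
      rw [this]
      exact Submodule.zero_mem _
    · have : a • Th K σ Y (X (Sum.inr y)) -
          C (a • eps0 K σ Y (X (Sum.inr y))) = a • X y := by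
        rw [Th, eps0, aeval_X, aeval_X]
        simp only [Sum.elim_inr, smul_zero, map_zero, sub_zero]
      rw [this]
      exact Submodule.smul_mem _ _ (Submodule.subset_span ⟨y, rfl⟩)

/-- multiplication by a linear form -/
theorem lin_mul (W : Submodule K (MvPolynomial σ K)) (q : ℕ)
    (g : MvPolynomial Y (MvPolynomial σ K))
    (hg : ∀ κ : Y →₀ ℕ, coeff κ g ∈ W ∧ (κ.degree ≠ q → coeff κ g = 0))
    (ℓ : MvPolynomial Y (MvPolynomial σ K)) (hℓ : ℓ ∈ Lin K σ Y) :
    ∀ κ : Y →₀ ℕ, coeff κ (ℓ * g) ∈ W ∧ (κ.degree ≠ q + 1 → coeff κ (ℓ * g) = 0) := by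
  classical
  induction hℓ using Submodule.span_induction with
  | mem x hx =>
    obtain ⟨y, rfl⟩ := hx
    intro κ
    simp only
    rw [coeff_X_mul']
    split_ifs with h
    · refine ⟨(hg _).1, fun hκ => (hg _).2 fun h2 => hκ ?_⟩
      have hle : Finsupp.single y 1 ≤ κ := by
        rw [Finsupp.single_le_iff]
        exact Nat.one_le_iff_ne_zero.2 (Finsupp.mem_support_iff.1 h)
      have h3 := congrArg Finsupp.degree (tsub_add_cancel_of_le hle)
      rw [map_add, Finsupp.degree_single, h2] at h3
      exact h3.symm
    · exact ⟨W.zero_mem, fun _ => rfl⟩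
  | zero =>
    intro κ
    rw [zero_mul, coeff_zero]
    exact ⟨W.zero_mem, fun _ => rfl⟩
  | add x y _ _ hx hy =>
    intro κ
    rw [add_mul, coeff_add]
    refine ⟨W.add_mem (hx κ).1 (hy κ).1, fun h => ?_⟩
    rw [(hx κ).2 h, (hy κ).2 h, add_zero]
  | smul a x _ hx =>
    intro κ
    rw [smul_mul_assoc, coeff_smul]
    refine ⟨W.smul_mem _ (hx κ).1, fun h => ?_⟩
    rw [(hx κ).2 h, smul_zero]

/-- a determinant with some rows of linear forms -/
theorem det_rows {m : ℕ} (A : Matrix (Fin m) (Fin m) (MvPolynomial σ K)) :
    ∀ (k : ℕ) (B : Matrix (Fin k) (Fin k) (MvPolynomial Y (MvPolynomial σ K)))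
      (J : Finset (Fin k)) (r c : Fin k → Fin m), StrictMono r → StrictMono c →
      (∀ i ∈ J, ∀ j, B i j ∈ Lin K σ Y) → (∀ i ∉ J, ∀ j, B i j = C (A (r i) (c j))) →
      ∀ κ : Y →₀ ℕ, coeff κ B.det ∈ detSpan A (k - J.card) ∧
        (κ.degree ≠ J.card → coeff κ B.det = 0) := by
  classical
  intro k
  induction k with
  | zero =>
    intro B J r c hr hc h1 h2 κ
    have hJ : J = ∅ := Finset.eq_empty_of_isEmpty J
    subst hJ
    have hdet : B.det = C (A.submatrix r c).det := by
      rw [Matrix.det_isEmpty, Matrix.det_isEmpty, map_one]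
    rw [hdet, coeff_C]
    constructor
    · split_ifs with h
      · exact Submodule.subset_span ⟨r, c, hr, hc, rfl⟩
      · exact Submodule.zero_mem _
    · intro h
      rw [if_neg]
      intro h3
      rw [← h3] at h
      simp at h
  | succ k ih =>
    intro B J r c hr hc h1 h2 κ
    rcases J.eq_empty_or_nonempty with rfl | ⟨i, hi⟩
    · have hB : B = (A.submatrix r c).map C := by
        ext1 i j
        rw [h2 i (by simp) j]
        rfl
      have hdet : B.det = C (A.submatrix r c).det := by
        rw [hB, RingHom.map_det]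
        rfl
      rw [hdet, coeff_C]
      constructor
      · split_ifs with h
        · exact Submodule.subset_span ⟨r, c, hr, hc, rfl⟩
        · exact Submodule.zero_mem _
      · intro h
        rw [if_neg]
        intro h3
        rw [← h3] at h
        simp at h
    · set J' : Finset (Fin k) := Finset.univ.filter fun x => i.succAbove x ∈ J with hJ'
      have hcard : J'.card + 1 = J.card := by
        have h3 : J = insert i (J'.map i.succAboveEmb) := by
          ext x
          rw [Finset.mem_insert, Finset.mem_map]
          constructor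
          · intro hx
            by_cases hxi : x = i
            · exact Or.inl hxi
            · obtain ⟨y, rfl⟩ := Fin.exists_succAbove_eq hxi
              exact Or.inr ⟨y, by rw [hJ', Finset.mem_filter]; exact ⟨Finset.mem_univ _, hx⟩, rfl⟩
          · rintro (rfl | ⟨y, hy, rfl⟩)
            · exact hi
            · rw [hJ', Finset.mem_filter] at hy
              exact hy.2
        rw [h3, Finset.card_insert_of_notMem, Finset.card_map]
        rw [Finset.mem_map]
        rintro ⟨y, _, hy⟩
        exact Fin.succAbove_ne i y hy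
      have hmin : ∀ j : Fin (k + 1), ∀ κ : Y →₀ ℕ,
          coeff κ (B.submatrix i.succAbove j.succAbove).det ∈ detSpan A (k - J'.card) ∧
          (κ.degree ≠ J'.card → coeff κ (B.submatrix i.succAbove j.succAbove).det = 0) := by
        intro j
        refine ih (B.submatrix i.succAbove j.succAbove) J' (r ∘ i.succAbove) (c ∘ j.succAbove)
          (hr.comp (Fin.strictMono_succAbove i)) (hc.comp (Fin.strictMono_succAbove j)) ?_ ?_
        · intro x hx y
          rw [hJ', Finset.mem_filter] at hx
          exact h1 _ hx.2 _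
        · intro x hx y
          rw [hJ', Finset.mem_filter] at hx
          exact h2 _ (fun h => hx ⟨Finset.mem_univ _, h⟩) _
      have hterm : ∀ j : Fin (k + 1),
          coeff κ ((-1) ^ (i + j : ℕ) * B i j * (B.submatrix i.succAbove j.succAbove).det) ∈
            detSpan A (k - J'.card) ∧
          (κ.degree ≠ J'.card + 1 →
            coeff κ ((-1) ^ (i + j : ℕ) * B i j *
              (B.submatrix i.succAbove j.succAbove).det) = 0) := by
        intro j
        have h3 := lin_mul (detSpan A (k - J'.card)) J'.card _ (hmin j) (B i j) (h1 i hi j) κ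
        rcases neg_one_pow_eq_or (MvPolynomial Y (MvPolynomial σ K)) (i + j : ℕ) with h | h
        · rw [h, one_mul]
          exact h3
        · rw [h, neg_one_mul, neg_mul, coeff_neg]
          exact ⟨Submodule.neg_mem _ h3.1, fun h4 => by rw [h3.2 h4, neg_zero]⟩
      have hk : k + 1 - J.card = k - J'.card := by omega
      rw [Matrix.det_succ_row B i, coeff_sum, hk]
      constructor
      · exact Submodule.sum_mem _ fun j _ => (hterm j).1
      · intro h
        exact Finset.sum_eq_zero fun j _ => (hterm j).2 (by omega)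

/-- the matrix with the rows `s` of `M` and the other rows of `N` -/
def pw {R : Type} {m : ℕ} (s : Finset (Fin m)) (M N : Matrix (Fin m) (Fin m) R) :
    Matrix (Fin m) (Fin m) R := fun i j => if i ∈ s then M i j else N i j

theorem det_add_pw {R : Type} [CommRing R] {m : ℕ} (M N : Matrix (Fin m) (Fin m) R) :
    Matrix.det (M + N) = ∑ s : Finset (Fin m), Matrix.det (pw s M N) := by
  classical
  have h := (Matrix.detRowAlternating (R := R) (n := Fin m)).toMultilinearMap.map_add_univ
    (fun i => M i) (fun i => N i)
  refine Eq.trans h (Finset.sum_congr rfl fun s _ => ?_)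
  change Matrix.det _ = _
  congr 1
  ext i j
  by_cases hi : i ∈ s
  · rw [Finset.piecewise_eq_of_mem _ _ _ hi]
    unfold pw
    rw [if_pos hi]
  · rw [Finset.piecewise_eq_of_notMem _ _ _ hi]
    unfold pw
    rw [if_neg hi]

/-- THE COEFFICIENT of any monomial in `Y` is in the span of the minors. -/
theorem coeff_det_mem {m : ℕ} (A : Matrix (Fin m) (Fin m) (MvPolynomial (σ ⊕ Y) K))
    (hA : ∀ p q, (A p q).totalDegree ≤ 1) (κ : Y →₀ ℕ) :
    coeff κ (Th K σ Y A.det) ∈ detSpan (A.map (eps0 K σ Y)) (m - κ.degree) := by
  classical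
  set A0 : Matrix (Fin m) (Fin m) (MvPolynomial σ K) := A.map (eps0 K σ Y) with hA0
  set A1 : Matrix (Fin m) (Fin m) (MvPolynomial Y (MvPolynomial σ K)) := A0.map C with hA1
  set N : Matrix (Fin m) (Fin m) (MvPolynomial Y (MvPolynomial σ K)) :=
    A.map (Th K σ Y) - A1 with hN
  have hdet : Th K σ Y A.det = Matrix.det (A1 + N) := by
    rw [AlgHom.map_det]
    congr 1
    rw [hN, add_sub_cancel]
    rfl
  rw [hdet, det_add_pw, coeff_sum]
  refine Submodule.sum_mem _ fun s _ => ?_
  have h := det_rows (Y := Y) A0 m (pw s A1 N) sᶜ id id strictMono_id strictMono_id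
    (by
      intro i hi j
      rw [Finset.mem_compl] at hi
      unfold pw
      rw [if_neg hi, hN]
      exact Th_affine _ (hA i j))
    (by
      intro i hi j
      rw [Finset.mem_compl, not_not] at hi
      unfold pw
      rw [if_pos hi]
      rfl) κ
  by_cases hκ : κ.degree = sᶜ.card
  · rw [hκ]
    exact h.1
  · rw [h.2 hκ]
    exact Submodule.zero_mem _

end

end Pool.GT
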