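import Pool.Agent.Helper10.GT.Low
import Pool.Agent.Helper10.GT.Coef
import Pool.Agent.Helper76.CDET.Digits

/-!
Determinant sums for arbitrary tests (MP_b6562f_lc): the machine. The test polynomial need not be
multilinear.
-/

set_option autoImplicit false

namespace Pool.GT

open Finset hiding sup
open MvPolynomial Pool.SDL Pool.Agent.SDet Pool.Agent.Helper76 Pool.Agent.Helper76.CDET
open scoped ENNReal BigOperators

section
variable {F : Type} [Field F] {V Ya Xt Yt C : Type} [DecidableEq V]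

section kappa

variable [Fintype V] (X : Xt → V) (Y : Yt → V) (Z : Finset V)
  (hinj : Function.Injective (Sum.elim X Y)) (hX : ∀ x, X x ∉ Z) (hY : ∀ y, Y y ∉ Z)
include hinj

theorem push_X (μ : (V ⊕ Ya) →₀ ℕ) (x : Xt) :
    push (CDET.ext Ya (kap X Y Z)) μ (Sum.inl x) = μ (Sum.inl (X x)) := by
  classical
  rw [push_ext]
  have h : (Finset.univ.filter fun e => kap X Y Z e = some (some (Sum.inl x))) = {X x} := by
    ext e
    rw [Finset.mem_filter, kap_eq_inl X Y Z hinj, Finset.mem_singleton]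
    simp
  rw [h, Finset.sum_singleton]

theorem push_Y (μ : (V ⊕ Ya) →₀ ℕ) (y : Yt) :
    push (CDET.ext Ya (kap X Y Z)) μ (Sum.inr y) = μ (Sum.inl (Y y)) := by
  classical
  rw [push_ext]
  have h : (Finset.univ.filter fun e => kap X Y Z e = some (some (Sum.inr y))) = {Y y} := by
    ext e
    rw [Finset.mem_filter, kap_eq_inr X Y Z hinj, Finset.mem_singleton]
    simp
  rw [h, Finset.sum_singleton]

include hX hY in
theorem kap_Z (e : V) (he : e ∈ Z) : kap X Y Z e = some none := by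
  have h1 : ¬ ∃ x, X x = e := by
    rintro ⟨x, rfl⟩
    exact hX x he
  have h2 : ¬ ∃ y, Y y = e := by
    rintro ⟨y, rfl⟩
    exact hY y he
  rw [kap, dif_neg h1, dif_neg h2, if_pos he]

/-- the dead variables -/
theorem dead_iff (μ : (V ⊕ Ya) →₀ ℕ) :
    (∀ v, CDET.ext Ya (kap X Y Z) v = none → μ v = 0) ↔
      ∀ e ∈ CDET.sup μ, (∃ x, X x = e) ∨ (∃ y, Y y = e) ∨ e ∈ Z := by
  constructor
  · intro h e he
    rw [CDET.sup, Finset.mem_filter] at he
    rw [← kap_ne_none X Y Z hinj]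
    intro h1
    exact he.2 (h (Sum.inl e) h1)
  · intro h v hv
    rcases v with e | y
    · by_contra h1
      have h2 := h e (by rw [CDET.sup, Finset.mem_filter]; exact ⟨Finset.mem_univ _, h1⟩)
      rw [← kap_ne_none X Y Z hinj] at h2
      exact h2 hv
    · exact absurd hv (by simp [CDET.ext])

include hX hY in
/-- an exponent without dead variables is determined by its image and its free part -/
theorem eq_of_push (μ μ' : (V ⊕ Ya) →₀ ℕ)
    (hd : ∀ v, CDET.ext Ya (kap X Y Z) v = none → μ v = 0)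
    (hd' : ∀ v, CDET.ext Ya (kap X Y Z) v = none → μ' v = 0)
    (hp : push (CDET.ext Ya (kap X Y Z)) μ = push (CDET.ext Ya (kap X Y Z)) μ')
    (hr : rest (CDET.ext Ya (kap X Y Z)) μ = rest (CDET.ext Ya (kap X Y Z)) μ') : μ = μ' := by
  classical
  have hfree : ∀ v, CDET.ext Ya (kap X Y Z) v = some none → μ v = μ' v := by
    intro v hv
    have h := DFunLike.congr_fun hr v
    rwa [rest, rest, Finsupp.filter_apply_pos (fun v => CDET.ext Ya (kap X Y Z) v = some none) _ hv,
      Finsupp.filter_apply_pos (fun v => CDET.ext Ya (kap X Y Z) v = some none) _ hv] at h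
  ext v
  rcases v with e | y
  · by_cases h1 : ∃ x, X x = e
    · obtain ⟨x, rfl⟩ := h1
      rw [← push_X X Y Z hinj μ x, ← push_X X Y Z hinj μ' x, hp]
    · by_cases h2 : ∃ y, Y y = e
      · obtain ⟨y, rfl⟩ := h2
        rw [← push_Y X Y Z hinj μ y, ← push_Y X Y Z hinj μ' y, hp]
      · by_cases h3 : e ∈ Z
        · exact hfree _ (kap_Z X Y Z hinj hX hY e h3)
        · have h4 : CDET.ext Ya (kap X Y Z) (Sum.inl e) = none := by
            by_contra h5
            have h6 : kap X Y Z e ≠ none := h5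
            rw [kap_ne_none X Y Z hinj] at h6
            rcases h6 with h6 | h6 | h6
            · exact h1 h6
            · exact h2 h6
            · exact h3 h6
          rw [hd _ h4, hd' _ h4]
  · exact hfree (Sum.inr y) (by simp [CDET.ext])

end kappa

/-- THE MACHINE FOR ARBITRARY TESTS. `μ c` is a monomial of `f`. -/
theorem machineG [Fintype V] [Fintype Xt] [DecidableEq Xt] [Fintype Yt] [Fintype C]
    (f : MvPolynomial (V ⊕ Ya) F) (P : Finset V → Prop) (hP : ∀ S, restr S f ≠ 0 ↔ P S)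
    (X : Xt → V) (Y : Yt → V) (Z : Finset V) (hinj : Function.Injective (Sum.elim X Y))
    (hX : ∀ x, X x ∉ Z) (hY : ∀ y, Y y ∉ Z)
    (M : C → Finset Xt) (μ : C → (V ⊕ Ya) →₀ ℕ) (hμ : ∀ c, μ c ∈ f.support)
    (hsub : ∀ c, ∀ e ∈ CDET.sup (μ c), e ∈ Z ∨ (∃ x ∈ M c, e = X x) ∨ ∃ y, e = Y y)
    (h1 : ∀ c (S : Finset V), P S →
      (∀ e ∈ S, e ∈ Z ∨ (∃ x, e = X x) ∨ ∃ y, e = Y y ∧ μ c (Sum.inl (Y y)) ≠ 0) →
      ∀ x ∈ M c, X x ∈ S)
    (D : ℕ) (hD : ∀ c, ∑ y, μ c (Sum.inl (Y y)) = D)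
    {r m : ℕ} (s : Fin r → ℕ) (hs : ∀ i, s i ≤ m)
    (A : ∀ i, Matrix (Fin (s i)) (Fin (s i)) (MvPolynomial (V ⊕ Ya) F))
    (hA : ∀ i p q, ∀ μ ∈ (A i p q).support, ∑ e, μ (Sum.inl e) ≤ 1)
    (hf : f = ∑ i, (A i).det) (Q : ℝ≥0∞) (hQ : Q < 1)
    [∀ c, DecidablePred fun u : Xt → ℕ => Good M c u] :
    (1 - Q) ^ Fintype.card Xt *
      ∑ c, ∑' u : Xt → ℕ, (if Good M c u then Q ^ (∑ x, u x) else 0) ≤
    r * (∑ g : Fin (m - D) ↪o Fin m, (1 - Q) ^ rho g) ^ 2 := by
  classical
  set κ' := CDET.ext Ya (kap X Y Z) with hκ'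
  set yk : C → Yt →₀ ℕ := fun c => Finsupp.equivFunOnFinite.symm fun y => μ c (Sum.inl (Y y))
    with hyk
  have hykD : ∀ c, (yk c).degree = D := by
    intro c
    rw [Finsupp.degree_eq_sum]
    exact hD c
  set G : C → MvPolynomial Xt (Lf F (V ⊕ Ya)) := fun c => coeff (yk c) (Th _ _ _ (Psi F κ' f))
    with hG
  have hcoeff : ∀ c T, coeff T (G c) = coeff (Finsupp.mapDomain Sum.inl T +
      Finsupp.mapDomain Sum.inr (yk c)) (Psi F κ' f) := fun c T => coeff_Th (yk c) T _
  -- the determinants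
  have hmat : ∀ i, ∃ A' : Matrix (Fin m) (Fin m) (MvPolynomial (Xt ⊕ Yt) (Lf F (V ⊕ Ya))),
      (∀ p q, (A' p q).totalDegree ≤ 1) ∧ A'.det = Psi F κ' (A i).det := by
    intro i
    rw [RingHom.map_det]
    refine exists_pad (hs i) _ fun p q => ?_
    rw [RingHom.mapMatrix_apply, Matrix.map_apply]
    exact totalDegree_Psi_le κ' _ 1 fun μ hμ => (degree_push_le _ μ).trans (hA i p q μ hμ)
  choose A' hA' hdet using hmat
  have hL : ∀ c, G c ∈ ⨆ i, detSpan ((A' i).map (eps0 (Lf F (V ⊕ Ya)) Xt Yt)) (m - D) := by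
    intro c
    rw [hG]
    simp only
    rw [hf, map_sum, map_sum, coeff_sum]
    refine Submodule.sum_mem _ fun i _ => ?_
    rw [← hdet i, ← hykD c]
    exact Submodule.mem_iSup_of_mem i (coeff_det_mem (A' i) (hA' i) (yk c))
  have hAff : ∀ i p q, (((A' i).map (eps0 (Lf F (V ⊕ Ya)) Xt Yt)) p q).totalDegree ≤ 1 := by
    intro i p q
    rw [Matrix.map_apply]
    exact (eps0_totalDegree _).trans (hA' i p q)
  have hlow : ∀ c T, coeff T (G c) ≠ 0 → M c ⊆ T.support := by
    intro c T hT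
    rw [hcoeff] at hT
    obtain ⟨ν, hν, hνd, hνp⟩ := exists_of_coeff_Psi_ne_zero κ' f _ hT
    have hS := prop_sup f P hP ν hν
    have hx : ∀ x, ν (Sum.inl (X x)) = T x := by
      intro x
      rw [← push_X X Y Z hinj ν x, ← hκ', hνp, Finsupp.add_apply,
        Finsupp.mapDomain_apply Sum.inl_injective, Finsupp.mapDomain_of_notMem_range _ _ (by simp),
        add_zero]
    have hy : ∀ y, ν (Sum.inl (Y y)) = μ c (Sum.inl (Y y)) := by
      intro y
      rw [← push_Y X Y Z hinj ν y, ← hκ', hνp, Finsupp.add_apply,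
        Finsupp.mapDomain_apply Sum.inr_injective, Finsupp.mapDomain_of_notMem_range _ _ (by simp),
        zero_add]
      rfl
    have h4 := h1 c (CDET.sup ν) hS (by
      intro e he
      rcases (dead_iff X Y Z hinj ν).1 hνd e he with ⟨x, rfl⟩ | ⟨y, rfl⟩ | hz
      · exact Or.inr (Or.inl ⟨x, rfl⟩)
      · refine Or.inr (Or.inr ⟨y, rfl, ?_⟩)
        rw [← hy]
        exact (Finset.mem_filter.1 he).2
      · exact Or.inl hz)
    intro x hxM
    have h5 := h4 x hxM
    rw [CDET.sup, Finset.mem_filter, hx] at h5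
    exact Finsupp.mem_support_iff.2 h5.2
  have hself : ∀ c, ∃ T : Xt →₀ ℕ, coeff T (G c) ≠ 0 ∧ T.support ⊆ M c := by
    intro c
    refine ⟨Finsupp.equivFunOnFinite.symm fun x => μ c (Sum.inl (X x)), ?_, ?_⟩
    · rw [hcoeff]
      have hdμ : ∀ v, κ' v = none → μ c v = 0 := by
        rw [hκ', dead_iff X Y Z hinj]
        intro e he
        rcases hsub c e he with h | ⟨x, _, h⟩ | ⟨y, h⟩
        · exact Or.inr (Or.inr h)
        · exact Or.inl ⟨x, h.symm⟩
        · exact Or.inr (Or.inl ⟨y, h.symm⟩)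
      have hpush : push κ' (μ c) = Finsupp.mapDomain Sum.inl
          (Finsupp.equivFunOnFinite.symm fun x => μ c (Sum.inl (X x))) +
          Finsupp.mapDomain Sum.inr (yk c) := by
        ext v
        rcases v with x | y
        · rw [hκ', push_X X Y Z hinj, Finsupp.add_apply,
            Finsupp.mapDomain_apply Sum.inl_injective,
            Finsupp.mapDomain_of_notMem_range _ _ (by simp), add_zero]
          rfl
        · rw [hκ', push_Y X Y Z hinj, Finsupp.add_apply,
            Finsupp.mapDomain_apply Sum.inr_injective,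
            Finsupp.mapDomain_of_notMem_range _ _ (by simp), zero_add]
          rfl
      rw [← hpush]
      refine coeff_Psi_ne_zero κ' f (μ c) (hμ c) hdμ ?_
      intro ν _ hνd hνp hνr
      exact eq_of_push X Y Z hinj hX hY ν (μ c) hνd hdμ hνp hνr
    · intro x hx
      rw [Finsupp.mem_support_iff] at hx
      have hx' : μ c (Sum.inl (X x)) ≠ 0 := hx
      rcases hsub c (X x) (by rw [CDET.sup, Finset.mem_filter]; exact ⟨Finset.mem_univ _, hx'⟩)
        with h | ⟨x', hx', h⟩ | ⟨y, h⟩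
      · exact absurd h (hX x)
      · have h2 : (Sum.inl x : Xt ⊕ Yt) = Sum.inl x' := hinj h
        rw [Sum.inl.injEq] at h2
        rw [h2]
        exact hx'
      · have h2 : (Sum.inl x : Xt ⊕ Yt) = Sum.inr y := hinj h
        simp at h2
  exact (low_series (Fin m × Fin m) G M hlow hself Q hQ).trans (up_series G _ hAff hL Q hQ)

end

end Pool.GT
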