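import Pool.Agent.Helper10.GT.Pf
import Pool.Agent.Helper76.RT.Mach

/-!
Random tests (MP_b6562f_lc): sums of Pfaffians with cofactors have small shifted spaces.
-/

set_option autoImplicit false

namespace Pool.GT

open Finset hiding sup
open MvPolynomial Pool.SDL Pool.Agent.SDet Pool.Agent.Helper76 Pool.Agent.Helper76.CDET
open scoped ENNReal BigOperators

section
variable {F : Type} [Field F] {V Ya : Type}

theorem smallK_pf [DecidableEq V] [Fintype V] {r m δ ν D : ℕ} (hD : D < m) (hδ : 1 ≤ δ)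
    (f : MvPolynomial (V ⊕ Ya) F) (hf : IsPfSum r m δ ν f) (Q : ℝ≥0∞) (hQ : Q < 1) :
    Pool.RT.SmallK f D (ν + D * (δ - 1)) Q (r * ∑ j ∈ Finset.range (2 * D + 1),
      (Nat.choose (2 * (m - D) - 1 + j) j : ℝ≥0∞) * (1 - Q ^ δ) ^ j) := by
  classical
  intro Xt Yt C _ _ κ yk hyk
  refine ⟨Empty, inferInstance, ?_⟩
  refine le_trans ?_ (smallG_pf hD hδ f hf Q hQ Xt Yt C κ yk hyk)
  rw [Fintype.card_eq_zero (α := Empty), Nat.add_zero]
  refine mul_le_mul' le_rfl (mul_le_mul' le_rfl (ENNReal.tsum_le_tsum fun l => ?_))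
  exact mul_le_mul' le_rfl (Nat.cast_le.2 (finrank_empty _ l))

end

end Pool.GT
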