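import Pool.Agent.Helper10.GT.RandBits
import Pool.Agent.Helper10.GT.PfK
import Pool.Agent.Helper76.CPF.Clique

/-!
# Random tests, words of bits: real numbers, and the two classes of polynomials
-/

set_option autoImplicit false
set_option linter.unusedSectionVars false

namespace Pool.GT

open Finset hiding sup
open MvPolynomial Pool.SDL Pool.Agent.SDet Pool.Agent.Helper76 Pool.Agent.Helper76.CDET
open Pool.RT (Pr)
open scoped ENNReal BigOperators

section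
variable {F : Type} [Field F] {V Ya : Type} [DecidableEq V]

theorem smallK_mono {f : MvPolynomial (V ⊕ Ya) F} {D l0 l1 : ℕ} {Q R R' : ℝ≥0∞}
    (h : Pool.RT.SmallK f D l0 Q R) (hQ : Q ≤ 1) (hl : l0 ≤ l1) (hR : R ≤ R') :
    Pool.RT.SmallK f D l1 Q R' := by
  intro Xt Yt C _ _ κ yk hyk
  obtain ⟨E, hE, h1⟩ := h Xt Yt C κ yk hyk
  refine ⟨E, hE, le_trans (mul_le_mul' ?_ le_rfl) (h1.trans hR)⟩
  exact pow_le_pow_right_of_le_one' hQ hl

/-- the real number which bounds the spaces of sums of Pfaffians -/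
noncomputable def RP (r m d L : ℕ) (q : ℝ) : ℝ :=
  r * ∑ j ∈ Finset.range (2 * L + 1), (2 * (m + L + 1 : ℕ) * (d * (1 - q))) ^ j / (j.factorial : ℝ)

theorem RP_nonneg (r m d L : ℕ) {q : ℝ} (hq1 : q < 1) : 0 ≤ RP r m d L q := by
  have h : 0 ≤ 1 - q := by linarith
  unfold RP
  positivity

/-- a class of polynomials: sums of `r` Pfaffians of size `2m`, or anything with spaces which are
not larger -/
def Cls (r m d ν : ℕ) (f : MvPolynomial (V ⊕ Ya) F) : Prop :=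
  ∀ (L D' : ℕ), D' ≤ L → ∀ q : ℝ, 0 < q → q < 1 →
    Pool.RT.SmallK f D' (ν + L * (d - 1)) (ENNReal.ofReal q) (ENNReal.ofReal (RP r m d L q))

theorem choose_up_le' (M j J : ℕ) (hj : j ≤ 2 * J) (hJM : J < M) :
    ((2 * (M - J) - 1 + j).choose j : ℝ) ≤ (2 * M : ℝ) ^ j / (j.factorial : ℝ) := by
  have h0 : (0:ℝ) < (j.factorial : ℝ) := by exact_mod_cast Nat.factorial_pos j
  rw [le_div_iff₀ h0]
  have h1 : (2 * (M - J) - 1 + j).choose j * j.factorial = (2 * (M - J) - 1 + j).descFactorial j := by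
    rw [Nat.descFactorial_eq_factorial_mul_choose, Nat.mul_comm]
  have h2 : (2 * (M - J) - 1 + j).descFactorial j ≤ (2 * M) ^ j := by
    refine (Nat.descFactorial_le_pow _ _).trans (Nat.pow_le_pow_left ?_ j)
    omega
  rw [← h1] at h2
  exact_mod_cast h2

/-- sums of Pfaffians with cofactors have small shifted spaces, in real numbers -/
theorem cls_pf [Fintype V] {r m d ν : ℕ} (hd : 1 ≤ d) (f : MvPolynomial (V ⊕ Ya) F)
    (hf : IsPfSum r m d ν f) : Cls r m d ν f := by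
  classical
  intro L D' hD' q hq0 hq1
  have hq1' : 0 ≤ 1 - q := by linarith
  have hQ1 : ENNReal.ofReal q < 1 := ofReal_lt_one hq1
  have hf' : IsPfSum r (m + L + 1) d ν f := hf.mono (by omega)
  refine smallK_mono (GT.smallK_pf (by omega) hd f hf' _ hQ1) hQ1.le
    (Nat.add_le_add_left (Nat.mul_le_mul_right _ hD') _) ?_
  unfold RP
  rw [ENNReal.ofReal_mul (by positivity), ENNReal.ofReal_natCast]
  refine mul_le_mul' le_rfl ?_
  have h1 : (1 : ℝ≥0∞) - ENNReal.ofReal q ^ d = ENNReal.ofReal (1 - q ^ d) := by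
    rw [← ENNReal.ofReal_pow hq0.le, ← ENNReal.ofReal_one, ← ENNReal.ofReal_sub _ (by positivity)]
  have hqδ : 0 ≤ 1 - q ^ d := by
    have := pow_le_one₀ (n := d) hq0.le hq1.le
    linarith
  have h2 : 1 - q ^ d ≤ d * (1 - q) := by
    have := one_add_mul_le_pow (a := q - 1) (by linarith) d
    have h3 : (1 + (q - 1)) = q := by ring
    rw [h3] at this
    linarith
  rw [h1, ENNReal.ofReal_sum_of_nonneg fun j _ => by positivity]
  have hsub : range (2 * D' + 1) ⊆ range (2 * L + 1) := by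
    intro j hj
    rw [Finset.mem_range] at hj ⊢
    omega
  refine le_trans (Finset.sum_le_sum fun j hj => ?_) (Finset.sum_le_sum_of_subset hsub)
  rw [← ENNReal.ofReal_pow hqδ, ← ENNReal.ofReal_natCast, ← ENNReal.ofReal_mul (Nat.cast_nonneg _)]
  refine ENNReal.ofReal_le_ofReal ?_
  rw [Finset.mem_range] at hj
  calc ((2 * (m + L + 1 - D') - 1 + j).choose j : ℝ) * (1 - q ^ d) ^ j
      ≤ ((2 * (m + L + 1 : ℕ) : ℝ) ^ j / (j.factorial : ℝ)) * (d * (1 - q)) ^ j :=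
        mul_le_mul (choose_up_le' (m + L + 1) j D' (by omega) (by omega))
          (pow_le_pow_left₀ hqδ h2 j) (by positivity) (by positivity)
    _ = _ := by rw [mul_pow (2 * ((m + L + 1 : ℕ) : ℝ))]; ring

/-- RANDOM TESTS, arbitrary polynomials, two-sided error, words of bits; real numbers. -/
theorem random_bits_real {Γ Ω : Type} [Group Γ] [Fintype Γ] [MulAction Γ V] [Fintype V] [Fintype Ω]
    (w : Ω → ℝ) (hw0 : ∀ i, 0 ≤ w i) (hw1 : ∑ i, w i = 1)
    (f : Ω → MvPolynomial (V ⊕ Ya) F) (P : Finset V → Prop) (ε1 ε2 : ℝ)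
    (hyes : ∀ S, P S → Pr w (fun i => restr S (f i) = 0) ≤ ε1)
    (hno : ∀ S, ¬ P S → Pr w (fun i => restr S (f i) ≠ 0) ≤ ε2)
    {dg : ℕ} (hdg : ∀ i, ∀ μ ∈ (f i).support, ∑ e, μ (Sum.inl e) ≤ dg)
    (hinv : ∀ (g : Γ) (S : Finset V), P S → P (S.image fun e => g • e)) {D l B : ℕ}
    (hD : 1 ≤ D) (hl : 1 ≤ l) (hB : 1 ≤ B)
    (X : ((Fin D × Bool) × Fin l) × (Bool × Fin B) → V)
    (Y : Fin D × (Fin l → Bool) × (Fin l → Bool) → V) (Z : Finset V)
    (hinj : Function.Injective (Sum.elim X Y)) (hX : ∀ x, X x ∉ Z) (hY : ∀ y, Y y ∉ Z)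
    (h1 : ∀ (c : Fin D × Bool → Fin l → Bool) (S : Finset V), P S →
      (∀ e ∈ S, e ∈ Z ∨ (∃ x, e = X x) ∨ ∃ b, e = Y (b, c (b, false), c (b, true))) →
      (∀ h i j, X ((h, i), (c h i, j)) ∈ S) ∧ ∀ b, Y (b, c (b, false), c (b, true)) ∈ S)
    {N : ℕ} (hN1 : 1 ≤ N)
    (h2 : ∀ c : Fin D × Bool → Fin l → Bool, ∃ S : Finset V, P S ∧
      (∀ e ∈ S, e ∈ Z ∨ (∃ h i j, e = X ((h, i), (c h i, j))) ∨
        ∃ b, e = Y (b, c (b, false), c (b, true))) ∧
      (∀ T ⊆ S, P T → T = S) ∧ S.card = N ∧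
      ∀ e ∈ S, ∀ e' ∈ S, ∃ h : Γ, (S.image fun x => h • x) = S ∧ h • e = e')
    (β : ℝ) (hβ : 0 < β) (A L : ℕ) (hA : 1 ≤ A) (hL1 : 1 ≤ L) (hL : A * (D * dg) ≤ N * L)
    (τ T0 : ℕ) (hτ : (T0 : ℝ) + β * (2 * D * l * B) ≤ τ * B)
    (q : ℝ) (hq0 : 0 < q) (hq1 : q < 1) (l0 : ℕ) (R : ℝ) (hR0 : 0 ≤ R)
    (hR : ∀ i, ∀ D' ≤ L, Pool.RT.SmallK (f i) D' l0 (ENNReal.ofReal q) (ENNReal.ofReal R))
    (hT0 : 2 ^ (2 * D * l) * q ^ T0 ≤ 1 / 2) :
    q ^ l0 * ((1 - (ε1 + ε2 / β + 1 / A)) * 2 ^ (2 * D * l)) ≤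
      2 * R * ((L + 1) * ∑ j ∈ Finset.range τ, ((2 * D * l).choose j : ℝ)) := by
  classical
  have hQ1 : ENNReal.ofReal q < 1 := ofReal_lt_one hq1
  have h := random_bits (Γ := Γ) w hw0 hw1 f P ε1 ε2 hyes hno hdg hinv hD hl hB X Y Z hinj hX hY h1
    hN1 h2 β hβ A L hA hL1 hL τ T0 hτ hQ1 hR (by
      rw [← ENNReal.ofReal_pow hq0.le]
      have h3 : (2 : ℝ≥0∞) ^ (2 * D * l) = ENNReal.ofReal (2 ^ (2 * D * l)) := by
        rw [ENNReal.ofReal_pow (by norm_num)]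
        simp
      rw [h3, ← ENNReal.ofReal_mul (by positivity)]
      refine (ENNReal.ofReal_le_ofReal hT0).trans (le_of_eq ?_)
      rw [ENNReal.ofReal_div_of_pos (by norm_num)]
      simp)
  rcases le_or_gt (1 - (ε1 + ε2 / β + 1 / A)) 0 with hneg | hpos
  · have h3 : q ^ l0 * ((1 - (ε1 + ε2 / β + 1 / A)) * 2 ^ (2 * D * l)) ≤ 0 :=
      mul_nonpos_of_nonneg_of_nonpos (by positivity)
        (mul_nonpos_of_nonpos_of_nonneg hneg (by positivity))
    refine h3.trans ?_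
    positivity
  · rw [← ENNReal.ofReal_pow hq0.le, ← ENNReal.ofReal_mul (by positivity)] at h
    have h4 : (2 * ENNReal.ofReal R * ((L + 1) * ∑ j ∈ Finset.range τ, (2 * D * l).choose j : ℕ) :
        ℝ≥0∞) = ENNReal.ofReal (2 * R * ((L + 1) * ∑ j ∈ Finset.range τ,
          ((2 * D * l).choose j : ℝ))) := by
      rw [ENNReal.ofReal_mul (by positivity), ENNReal.ofReal_mul (by norm_num)]
      congr 1
      · simp
      · rw [← ENNReal.ofReal_natCast]
        push_cast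
        rfl
    rw [h4] at h
    exact (ENNReal.ofReal_le_ofReal_iff (by positivity)).1 h

end

end Pool.GT
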