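import Pool.Agent.Helper76.CDET.Loop

/-!
Determinant sums for arbitrary tests (MP_b6562f_lc): after a random symmetry the exponents of the
derivative variables are small on average.
-/

set_option autoImplicit false

namespace Pool.GT

open Finset hiding sup
open MvPolynomial Pool.SDL Pool.Agent.SDet Pool.Agent.Helper76 Pool.Agent.Helper76.CDET
open scoped BigOperators Pointwise

section
variable {F : Type} [Field F] {V Ya C : Type} [DecidableEq V] [Fintype V]

/-- a monomial whose support is a minimal set with the property -/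
theorem exists_min_monomial (f : MvPolynomial (V ⊕ Ya) F) (P : Finset V → Prop)
    (hP : ∀ S, restr S f ≠ 0 ↔ P S) (S : Finset V) (hS : P S) (hmin : ∀ T ⊆ S, P T → T = S) :
    ∃ μ ∈ f.support, CDET.sup μ = S := by
  obtain ⟨μ, hμ, hsub⟩ := exists_sup f P hP S hS
  exact ⟨μ, hμ, hmin _ hsub (prop_sup f P hP μ hμ)⟩

/-- AVERAGING. -/
theorem averaging {Γ : Type} [Group Γ] [Fintype Γ] [MulAction Γ V] [Fintype C]
    (f : MvPolynomial (V ⊕ Ya) F) (P : Finset V → Prop) (hP : ∀ S, restr S f ≠ 0 ↔ P S)
    (hinv : ∀ (g : Γ) (S : Finset V), P S → P (S.image fun e => g • e)) {m : ℕ}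
    (hdeg : ∀ μ ∈ f.support, ∑ e, μ (Sum.inl e) ≤ m)
    (S : C → Finset V) (hS : ∀ c, P (S c)) (hmin : ∀ c, ∀ T ⊆ S c, P T → T = S c) {N : ℕ}
    (hN : ∀ c, (S c).card = N)
    (htr : ∀ c, ∀ e ∈ S c, ∀ e' ∈ S c, ∃ h : Γ, ((S c).image fun x => h • x) = S c ∧ h • e = e')
    (T : C → Finset V) (hT : ∀ c, T c ⊆ S c) {D : ℕ} (hD : ∀ c, (T c).card = D) :
    ∃ (g : Γ) (μ : C → (V ⊕ Ya) →₀ ℕ), (∀ c, μ c ∈ f.support) ∧
      (∀ c, CDET.sup (μ c) = (S c).image fun e => g • e) ∧
      N * ∑ c, ∑ e ∈ T c, μ c (Sum.inl (g • e)) ≤ Fintype.card C * (D * m) := by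
  classical
  -- images
  have himg : ∀ (g h : Γ) (A : Finset V), ((A.image fun e => h • e).image fun e => g • e) =
      A.image fun e => (g * h) • e := by
    intro g h A
    rw [Finset.image_image]
    refine Finset.image_congr fun e _ => ?_
    simp [mul_smul]
  have himg1 : ∀ A : Finset V, (A.image fun e => (1 : Γ) • e) = A := by
    intro A
    simp
  have hPg : ∀ (g : Γ) c, P ((S c).image fun e => g • e) := fun g c => hinv g _ (hS c)
  have hming : ∀ (g : Γ) c, ∀ T' ⊆ (S c).image fun e => g • e, P T' →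
      T' = (S c).image fun e => g • e := by
    intro g c T' hT' hPT'
    have h1 : (T'.image fun e => g⁻¹ • e) ⊆ S c := by
      have h2 := Finset.image_subset_image (f := fun e => g⁻¹ • e) hT'
      rwa [himg, inv_mul_cancel, himg1] at h2
    have h2 := hmin c _ h1 (hinv g⁻¹ _ hPT')
    rw [← h2, himg, mul_inv_cancel, himg1]
  have hex : ∀ (g : Γ) c, ∃ μ ∈ f.support, CDET.sup μ = (S c).image fun e => g • e :=
    fun g c => exists_min_monomial f P hP _ (hPg g c) (hming g c)
  -- a monomial for every set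
  set ν : Finset V → (V ⊕ Ya) →₀ ℕ := fun A =>
    if h : ∃ μ ∈ f.support, CDET.sup μ = A then h.choose else 0 with hν
  have hν1 : ∀ (g : Γ) c, ν ((S c).image fun e => g • e) ∈ f.support ∧
      CDET.sup (ν ((S c).image fun e => g • e)) = (S c).image fun e => g • e := by
    intro g c
    rw [hν]
    simp only
    rw [dif_pos (hex g c)]
    exact (hex g c).choose_spec
  set a : Γ → C → V → ℕ := fun g c e => ν ((S c).image fun e => g • e) (Sum.inl (g • e)) with ha
  have hsym : ∀ c, ∀ e ∈ S c, ∀ e' ∈ S c, ∑ g, a g c e' = ∑ g, a g c e := by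
    intro c e he e' he'
    obtain ⟨h, hh, hhe⟩ := htr c e he e' he'
    rw [← Equiv.sum_comp (Equiv.mulRight h) fun g => a g c e]
    refine Finset.sum_congr rfl fun g _ => ?_
    rw [ha]
    simp only [Equiv.coe_mulRight]
    rw [mul_smul, hhe, ← himg, hh]
  have hdegg : ∀ (g : Γ) c, ∑ e ∈ S c, a g c e ≤ m := by
    intro g c
    refine le_trans ?_ (hdeg _ (hν1 g c).1)
    rw [ha]
    simp only
    rw [← Finset.sum_image (f := fun x => ν ((S c).image fun e => g • e) (Sum.inl x))
      (g := fun e => g • e) (fun x _ y _ hxy => by simpa using hxy)]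
    exact Finset.sum_le_sum_of_subset (Finset.subset_univ _)
  have hone : ∀ c, N * ∑ g, ∑ e ∈ T c, a g c e ≤ Fintype.card Γ * (D * m) := by
    intro c
    rcases (S c).eq_empty_or_nonempty with h0 | ⟨e0, he0⟩
    · have : T c = ∅ := by
        have := hT c
        rw [h0] at this
        exact Finset.subset_empty.1 this
      rw [this]
      simp
    · have h1 : ∀ e ∈ S c, ∑ g, a g c e = ∑ g, a g c e0 := fun e he => hsym c e0 he0 e he
      have h2 : N * ∑ g, a g c e0 ≤ Fintype.card Γ * m := by
        calc N * ∑ g, a g c e0 = ∑ e ∈ S c, ∑ g, a g c e := by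
              rw [Finset.sum_congr rfl h1, Finset.sum_const, hN, smul_eq_mul]
          _ = ∑ g, ∑ e ∈ S c, a g c e := Finset.sum_comm
          _ ≤ ∑ _g : Γ, m := Finset.sum_le_sum fun g _ => hdegg g c
          _ = Fintype.card Γ * m := by rw [Finset.sum_const, Finset.card_univ, smul_eq_mul]
      calc N * ∑ g, ∑ e ∈ T c, a g c e = N * ∑ e ∈ T c, ∑ g, a g c e := by
            rw [Finset.sum_comm]
        _ = D * (N * ∑ g, a g c e0) := by
            rw [Finset.sum_congr rfl fun e he => h1 e (hT c he), Finset.sum_const, hD, smul_eq_mul]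
            ring
        _ ≤ D * (Fintype.card Γ * m) := Nat.mul_le_mul_left _ h2
        _ = Fintype.card Γ * (D * m) := by ring
  have hall : ∑ g, N * ∑ c, ∑ e ∈ T c, a g c e ≤ ∑ _g : Γ, Fintype.card C * (D * m) := by
    calc ∑ g, N * ∑ c, ∑ e ∈ T c, a g c e = ∑ c, N * ∑ g, ∑ e ∈ T c, a g c e := by
          rw [← Finset.mul_sum, ← Finset.mul_sum, Finset.sum_comm]
      _ ≤ ∑ _c : C, Fintype.card Γ * (D * m) := Finset.sum_le_sum fun c _ => hone c
      _ = ∑ _g : Γ, Fintype.card C * (D * m) := by
          rw [Finset.sum_const, Finset.sum_const, Finset.card_univ, Finset.card_univ, smul_eq_mul,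
            smul_eq_mul]
          ring
  obtain ⟨g, -, hg⟩ := Finset.exists_le_of_sum_le (s := (Finset.univ : Finset Γ))
    ⟨1, Finset.mem_univ _⟩ hall
  exact ⟨g, fun c => ν ((S c).image fun e => g • e), fun c => (hν1 g c).1,
    fun c => (hν1 g c).2, hg⟩

end

/-- half of the choices have a small value, and a common one for a large class -/
theorem common_value {C : Type} [Fintype C] (d : C → ℕ) (N K : ℕ) (hN : 1 ≤ N)
    (h : N * ∑ c, d c ≤ Fintype.card C * K) :
    ∃ D' ≤ 2 * K / N, Fintype.card C ≤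
      2 * (2 * K / N + 1) * (Finset.univ.filter fun c => d c = D').card := by
  classical
  set L := 2 * K / N with hL
  set A : Finset C := Finset.univ.filter fun c => d c ≤ L with hA
  -- at least half
  have hhalf : Fintype.card C ≤ 2 * A.card := by
    by_contra hcon
    push Not at hcon
    have hcompl : A.card + Aᶜ.card = Fintype.card C := Finset.card_add_card_compl A
    have h1 : ∀ c ∈ Aᶜ, 2 * K + 1 ≤ N * d c := by
      intro c hc
      rw [Finset.mem_compl, hA, Finset.mem_filter] at hc
      have h2 : L + 1 ≤ d c := by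
        by_contra h3
        exact hc ⟨Finset.mem_univ _, by omega⟩
      have h3 : 2 * K < N * (L + 1) := by
        rw [hL]
        exact Nat.lt_mul_div_succ _ (by omega)
      calc 2 * K + 1 ≤ N * (L + 1) := h3
        _ ≤ N * d c := Nat.mul_le_mul_left _ h2
    have h2 : Aᶜ.card * (2 * K + 1) ≤ Fintype.card C * K := by
      calc Aᶜ.card * (2 * K + 1) = ∑ _c ∈ Aᶜ, (2 * K + 1) := by
            rw [Finset.sum_const, smul_eq_mul]
        _ ≤ ∑ c ∈ Aᶜ, N * d c := Finset.sum_le_sum h1
        _ ≤ ∑ c, N * d c := Finset.sum_le_sum_of_subset (Finset.subset_univ _)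
        _ = N * ∑ c, d c := by rw [Finset.mul_sum]
        _ ≤ _ := h
    have h3 : Fintype.card C < 2 * Aᶜ.card := by omega
    nlinarith
  -- pigeonhole
  by_contra hcon
  push Not at hcon
  have h1 : A.card = ∑ D' ∈ Finset.range (L + 1), (A.filter fun c => d c = D').card := by
    refine Finset.card_eq_sum_card_fiberwise fun c hc => ?_
    have := (Finset.mem_filter.1 hc).2
    exact Finset.mem_coe.2 (Finset.mem_range.2 (by omega))
  have h2 : ∀ D' ∈ Finset.range (L + 1), 2 * (L + 1) * (A.filter fun c => d c = D').card + 1 ≤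
      Fintype.card C := by
    intro D' hD'
    rw [Finset.mem_range] at hD'
    refine lt_of_le_of_lt ?_ (hcon D' (by omega))
    refine Nat.mul_le_mul_left _ (Finset.card_le_card ?_)
    intro c hc
    rw [Finset.mem_filter] at hc ⊢
    exact ⟨Finset.mem_univ _, hc.2⟩
  have h3 : (L + 1) * (2 * A.card) + (L + 1) ≤ (L + 1) * Fintype.card C := by
    calc (L + 1) * (2 * A.card) + (L + 1) = ∑ D' ∈ Finset.range (L + 1),
          (2 * (L + 1) * (A.filter fun c => d c = D').card + 1) := by
          rw [Finset.sum_add_distrib, ← Finset.mul_sum, ← h1, Finset.sum_const,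
            Finset.card_range, smul_eq_mul]
          ring
      _ ≤ ∑ _D' ∈ Finset.range (L + 1), Fintype.card C := Finset.sum_le_sum h2
      _ = (L + 1) * Fintype.card C := by
          rw [Finset.sum_const, Finset.card_range, smul_eq_mul]
  have h4 : (L + 1) * Fintype.card C ≤ (L + 1) * (2 * A.card) := Nat.mul_le_mul_left _ hhalf
  exact absurd (h3.trans h4) (Nat.not_le.2 (Nat.lt_add_of_pos_right (Nat.succ_pos L)))

end Pool.GT
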