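import Pool.Agent.Helper10.GT.Union
import Pool.Agent.Helper10.GT.Machine

/-!
Determinant sums for arbitrary tests (MP_b6562f_lc): choices which are words of bits.
-/

set_option autoImplicit false

namespace Pool.GT

open Finset hiding sup
open MvPolynomial Pool.SDL Pool.Agent.SDet Pool.Agent.Helper76 Pool.Agent.Helper76.CDET
open scoped ENNReal BigOperators

section

/-- one position: the variables of the side `b` are not all positive -/
theorem tsum_side {B : ℕ} (b : Bool) (Q : ℝ≥0∞) (hQ : Q < 1) :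
    (1 - Q) ^ (2 * B) *
      ∑' u : Bool × Fin B → ℕ, (if ∀ j, 1 ≤ u (b, j) then 0 else Q ^ (∑ x, u x)) =
      1 - Q ^ B := by
  classical
  have h := tsum_prod_pi (ι := Bool) (Fin B → ℕ)
    (fun b' v => if b' = b ∧ ∀ j, 1 ≤ v j then 0 else Q ^ (∑ j, v j))
  rw [← (Equiv.curry Bool (Fin B) ℕ).tsum_eq] at h
  have h2 : ∀ u : Bool × Fin B → ℕ,
      (∏ b', if b' = b ∧ ∀ j, 1 ≤ ((Equiv.curry Bool (Fin B) ℕ) u) b' j then 0
        else Q ^ (∑ j, ((Equiv.curry Bool (Fin B) ℕ) u) b' j)) =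
      if ∀ j, 1 ≤ u (b, j) then 0 else Q ^ (∑ x, u x) := by
    intro u
    split_ifs with hu
    · exact Finset.prod_eq_zero (Finset.mem_univ b) (if_pos ⟨rfl, hu⟩)
    · rw [Fintype.sum_prod_type, ← Finset.prod_pow_eq_pow_sum]
      refine Finset.prod_congr rfl fun b' _ => ?_
      rw [if_neg]
      · rfl
      · rintro ⟨rfl, h3⟩
        exact hu h3
  simp_rw [h2] at h
  rw [h, Fintype.prod_bool]
  have hbad := tsum_bad (S := Fin B) Q hQ
  have hall := tsum_all (S := Fin B) Q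
  rw [Fintype.card_fin] at hbad hall
  have hone : (1 - Q) ^ B * ∑' u : Fin B → ℕ, Q ^ (∑ s, u s) = 1 := by
    rw [hall, geom_cancel Q hQ]
  have h4 : ∀ b' : Bool, (1 - Q) ^ B *
      ∑' v : Fin B → ℕ, (if b' = b ∧ ∀ j, 1 ≤ v j then 0 else Q ^ (∑ j, v j)) =
      if b' = b then 1 - Q ^ B else 1 := by
    intro b'
    by_cases hb : b' = b
    · simp only [hb, true_and, if_true]
      rw [← hbad]
      congr 2
      funext v
      congr
    · simp only [hb, false_and, if_false]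
      exact hone
  calc (1 - Q) ^ (2 * B) * _ = ((1 - Q) ^ B *
        ∑' v : Fin B → ℕ, (if true = b ∧ ∀ j, 1 ≤ v j then 0 else Q ^ (∑ j, v j))) *
        ((1 - Q) ^ B *
        ∑' v : Fin B → ℕ, (if false = b ∧ ∀ j, 1 ≤ v j then 0 else Q ^ (∑ j, v j))) := by
        rw [two_mul, pow_add]
        ring
    _ = 1 - Q ^ B := by
        rw [h4, h4]
        cases b <;> simp

/-- all positions -/
theorem tsum_sides {p : Type} [Fintype p] {B : ℕ} (b : p → Bool) (Q : ℝ≥0∞) (hQ : Q < 1) :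
    (1 - Q) ^ Fintype.card (p × (Bool × Fin B)) *
      ∑' u : p × (Bool × Fin B) → ℕ,
        (if ∀ x, ¬ ∀ j, 1 ≤ u (x, (b x, j)) then Q ^ (∑ x, u x) else 0) =
      (1 - Q ^ B) ^ Fintype.card p := by
  classical
  have h := tsum_prod_pi (ι := p) (Bool × Fin B → ℕ)
    (fun x v => if ∀ j, 1 ≤ v (b x, j) then 0 else Q ^ (∑ y, v y))
  rw [← (Equiv.curry p (Bool × Fin B) ℕ).tsum_eq] at h
  have h2 : ∀ u : p × (Bool × Fin B) → ℕ,
      (∏ x, if ∀ j, 1 ≤ ((Equiv.curry p (Bool × Fin B) ℕ) u) x (b x, j) then 0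
        else Q ^ (∑ y, ((Equiv.curry p (Bool × Fin B) ℕ) u) x y)) =
      if ∀ x, ¬ ∀ j, 1 ≤ u (x, (b x, j)) then Q ^ (∑ x, u x) else 0 := by
    intro u
    split_ifs with hu
    · rw [Fintype.sum_prod_type, ← Finset.prod_pow_eq_pow_sum]
      refine Finset.prod_congr rfl fun x _ => ?_
      rw [if_neg]
      · rfl
      · exact hu x
    · push Not at hu
      obtain ⟨x, hx⟩ := hu
      exact Finset.prod_eq_zero (Finset.mem_univ x) (if_pos hx)
  simp_rw [h2] at h
  rw [h, Fintype.card_prod, Fintype.card_prod, Fintype.card_bool, Fintype.card_fin,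
    mul_comm (Fintype.card p), pow_mul]
  rw [← Finset.card_univ, ← Finset.prod_const, ← Finset.prod_const, ← Finset.prod_mul_distrib]
  exact Finset.prod_congr rfl fun x _ => tsum_side (b x) Q hQ

/-- the alive variables of a choice -/
def Mw {D l : ℕ} (B : ℕ) (c : Fin D × Bool → Fin l → Bool) :
    Finset (((Fin D × Bool) × Fin l) × (Bool × Fin B)) :=
  Finset.univ.filter fun x => x.2.1 = c x.1.1 x.1.2

theorem mem_Mw {D l B : ℕ} (c : Fin D × Bool → Fin l → Bool)
    (x : ((Fin D × Bool) × Fin l) × (Bool × Fin B)) : x ∈ Mw B c ↔ x.2.1 = c x.1.1 x.1.2 := by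
  rw [Mw, Finset.mem_filter]
  simp

/-- good exponents of words -/
theorem good_words {D l B : ℕ} {C : Type} (w : C → Fin D × Bool → Fin l → Bool)
    (hw : Function.Injective w) (c : C) (u : ((Fin D × Bool) × Fin l) × (Bool × Fin B) → ℕ)
    (hu : ∀ x : (Fin D × Bool) × Fin l, ¬ ∀ j, 1 ≤ u (x, (!(w c x.1 x.2), j))) :
    Good (fun c => Mw B (w c)) c u := by
  intro c' hc'
  have h1 : ∃ x : (Fin D × Bool) × Fin l, w c' x.1 x.2 ≠ w c x.1 x.2 := by
    by_contra h2
    push Not at h2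
    exact hc' (hw (funext fun h => funext fun i => h2 (h, i)))
  obtain ⟨x, hx⟩ := h1
  have h2 := hu x
  push Not at h2
  obtain ⟨j, hj⟩ := h2
  refine ⟨(x, (!(w c x.1 x.2), j)), ?_, ?_, by omega⟩
  · rw [mem_Mw]
    simp only
    cases h3 : w c x.1 x.2 <;> cases h4 : w c' x.1 x.2 <;> simp_all
  · rw [mem_Mw]
    simp only
    cases h3 : w c x.1 x.2 <;> simp

/-- the density of good exponents -/
theorem good_density {D l B : ℕ} {C : Type} (w : C → Fin D × Bool → Fin l → Bool)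
    (hw : Function.Injective w) (c : C) (Q : ℝ≥0∞) (hQ : Q < 1)
    [DecidablePred fun u : ((Fin D × Bool) × Fin l) × (Bool × Fin B) → ℕ =>
      Good (fun c => Mw B (w c)) c u] :
    (1 - Q ^ B) ^ (2 * D * l) ≤
      (1 - Q) ^ Fintype.card (((Fin D × Bool) × Fin l) × (Bool × Fin B)) *
      ∑' u : ((Fin D × Bool) × Fin l) × (Bool × Fin B) → ℕ,
        (if Good (fun c => Mw B (w c)) c u then Q ^ (∑ x, u x) else 0) := by
  classical
  have h := tsum_sides (p := (Fin D × Bool) × Fin l) (B := B)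
    (fun x => !(w c x.1 x.2)) Q hQ
  have hc : Fintype.card ((Fin D × Bool) × Fin l) = 2 * D * l := by
    simp only [Fintype.card_prod, Fintype.card_fin, Fintype.card_bool]
    ring
  rw [hc] at h
  rw [← h]
  gcongr with u
  split_ifs with h1 h2
  · exact le_rfl
  · exact absurd (good_words w hw c u h1) h2
  · exact zero_le
  · exact le_rfl

end

end Pool.GT
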