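import Pool.Agent.Helper10.GT.Bits
import Pool.Agent.Helper10.GT.Avg
import Pool.Agent.Helper76.CDET.Real

/-!
Determinant sums for arbitrary tests (MP_b6562f_lc): the inequality for words of bits.
-/

set_option autoImplicit false

namespace Pool.GT

open Finset hiding sup
open MvPolynomial Pool.SDL Pool.Agent.SDet Pool.Agent.Helper76 Pool.Agent.Helper76.CDET
open scoped ENNReal BigOperators

/-- the number of reduced minors -/
theorem sum_rho_le_exp {m D L : ℕ} (hDL : D ≤ L) (x : ℝ) (hx : 0 ≤ x) :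
    ∑ g : Fin (m - D) ↪o Fin m, x ^ rho g ≤
      ∑ j ∈ Finset.range (L + 1), (m * x) ^ j / (j.factorial : ℝ) := by
  classical
  have hpos : ∀ j ∈ Finset.range (L + 1), 0 ≤ (m * x) ^ j / (j.factorial : ℝ) := by
    intro j _
    positivity
  have hmono : ∑ j ∈ Finset.range (D + 1), (m * x) ^ j / (j.factorial : ℝ) ≤
      ∑ j ∈ Finset.range (L + 1), (m * x) ^ j / (j.factorial : ℝ) := by
    refine Finset.sum_le_sum_of_subset_of_nonneg ?_ fun j hj _ => hpos j hj
    intro j hj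
    rw [Finset.mem_range] at hj ⊢
    omega
  refine le_trans ?_ hmono
  rcases Nat.lt_or_ge D m with hDm | hDm
  · have h := sum_rho_le hDm (ENNReal.ofReal x)
    have h1 : (∑ g : Fin (m - D) ↪o Fin m, x ^ rho g) ≤
        ∑ j ∈ Finset.range (D + 1), (Nat.choose (m - D - 1 + j) j : ℝ) * x ^ j := by
      have h2 : ENNReal.ofReal (∑ g : Fin (m - D) ↪o Fin m, x ^ rho g) ≤
          ENNReal.ofReal (∑ j ∈ Finset.range (D + 1),
            (Nat.choose (m - D - 1 + j) j : ℝ) * x ^ j) := by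
        rw [ENNReal.ofReal_sum_of_nonneg fun _ _ => by positivity,
          ENNReal.ofReal_sum_of_nonneg fun _ _ => by positivity]
        refine le_trans (le_of_eq ?_) (h.trans (le_of_eq ?_))
        · exact Finset.sum_congr rfl fun g _ => ENNReal.ofReal_pow hx _
        · refine Finset.sum_congr rfl fun j _ => ?_
          rw [ENNReal.ofReal_mul (by positivity), ENNReal.ofReal_pow hx, ENNReal.ofReal_natCast]
      exact (ENNReal.ofReal_le_ofReal_iff (Finset.sum_nonneg fun _ _ => by positivity)).1 h2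
    refine h1.trans (Finset.sum_le_sum fun j hj => ?_)
    rw [Finset.mem_range] at hj
    rw [mul_pow]
    have h3 : (Nat.choose (m - D - 1 + j) j : ℝ) ≤ (m : ℝ) ^ j / (j.factorial : ℝ) := by
      refine (Nat.choose_le_pow_div (α := ℝ) j (m - D - 1 + j)).trans ?_
      gcongr
      have h4 : m - D - 1 + j ≤ m := by omega
      exact_mod_cast h4
    calc (Nat.choose (m - D - 1 + j) j : ℝ) * x ^ j ≤ (m : ℝ) ^ j / (j.factorial : ℝ) * x ^ j := by
          gcongr
      _ = _ := by ring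
  · have h0 : m - D = 0 := by omega
    have hcard : Fintype.card (Fin (m - D) ↪o Fin m) = 1 := by
      rw [h0]
      rw [Fintype.card_eq_one_iff]
      refine ⟨⟨⟨fun i => i.elim0, fun i => i.elim0⟩, fun {i} => i.elim0⟩, fun y => ?_⟩
      ext i
      exact i.elim0
    have hrho : ∀ g : Fin (m - D) ↪o Fin m, rho g = 0 := by
      intro g
      rw [rho, Nat.card_eq_zero]
      left
      constructor
      rintro ⟨i, _, s, _⟩
      have := s.2
      omega
    calc ∑ g : Fin (m - D) ↪o Fin m, x ^ rho g = 1 := by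
          rw [Finset.sum_congr rfl fun g _ => by rw [hrho g, pow_zero]]
          rw [Finset.sum_const, Finset.card_univ, hcard, one_smul]
      _ = (m * x) ^ 0 / ((Nat.factorial 0 : ℕ) : ℝ) := by simp
      _ ≤ _ := Finset.single_le_sum (f := fun j => (m * x) ^ j / (j.factorial : ℝ))
          (fun j _ => by positivity) (Finset.mem_range.2 (Nat.succ_pos D))

section
variable {F : Type} [Field F] {V Ya Xt Yt C : Type} [DecidableEq V]

/-- the machine for arbitrary tests, real form -/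
theorem machineG_real [Fintype V] [Fintype Xt] [DecidableEq Xt] [Fintype Yt] [Fintype C]
    (f : MvPolynomial (V ⊕ Ya) F) (P : Finset V → Prop) (hP : ∀ S, restr S f ≠ 0 ↔ P S)
    (X : Xt → V) (Y : Yt → V) (Z : Finset V) (hinj : Function.Injective (Sum.elim X Y))
    (hX : ∀ x, X x ∉ Z) (hY : ∀ y, Y y ∉ Z)
    (M : C → Finset Xt) (μ : C → (V ⊕ Ya) →₀ ℕ) (hμ : ∀ c, μ c ∈ f.support)
    (hsub : ∀ c, ∀ e ∈ CDET.sup (μ c), e ∈ Z ∨ (∃ x ∈ M c, e = X x) ∨ ∃ y, e = Y y)
    (h1 : ∀ c (S : Finset V), P S →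
      (∀ e ∈ S, e ∈ Z ∨ (∃ x, e = X x) ∨ ∃ y, e = Y y ∧ μ c (Sum.inl (Y y)) ≠ 0) →
      ∀ x ∈ M c, X x ∈ S)
    (D : ℕ) (hD : ∀ c, ∑ y, μ c (Sum.inl (Y y)) = D)
    {r m : ℕ} (s : Fin r → ℕ) (hs : ∀ i, s i ≤ m)
    (A : ∀ i, Matrix (Fin (s i)) (Fin (s i)) (MvPolynomial (V ⊕ Ya) F))
    (hA : ∀ i p q, ∀ μ ∈ (A i p q).support, ∑ e, μ (Sum.inl e) ≤ 1)
    (hf : f = ∑ i, (A i).det) (q : ℝ) (hq0 : 0 < q) (hq1 : q < 1) (δ : ℝ)
    [∀ c, DecidablePred fun u : Xt → ℕ => Good M c u]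
    (hden : ∀ c, ENNReal.ofReal δ ≤ (1 - ENNReal.ofReal q) ^ Fintype.card Xt *
      ∑' u : Xt → ℕ, (if Good M c u then (ENNReal.ofReal q) ^ (∑ x, u x) else 0)) :
    Fintype.card C * δ ≤ r * (∑ g : Fin (m - D) ↪o Fin m, (1 - q) ^ rho g) ^ 2 := by
  have h := machineG f P hP X Y Z hinj hX hY M μ hμ hsub h1 D hD s hs A hA hf
    (ENNReal.ofReal q) (ofReal_lt_one hq1)
  have h1q : 0 ≤ 1 - q := by linarith
  have e0 : (1 : ℝ≥0∞) - ENNReal.ofReal q = ENNReal.ofReal (1 - q) := by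
    rw [ENNReal.ofReal_sub _ hq0.le, ENNReal.ofReal_one]
  have h2 : ENNReal.ofReal (Fintype.card C * δ) ≤
      ENNReal.ofReal (r * (∑ g : Fin (m - D) ↪o Fin m, (1 - q) ^ rho g) ^ 2) := by
    calc ENNReal.ofReal (Fintype.card C * δ) = ∑ _c : C, ENNReal.ofReal δ := by
          rw [Finset.sum_const, Finset.card_univ, ENNReal.ofReal_mul (by positivity),
            ENNReal.ofReal_natCast, nsmul_eq_mul]
      _ ≤ ∑ c, (1 - ENNReal.ofReal q) ^ Fintype.card Xt *
            ∑' u : Xt → ℕ, (if Good M c u then (ENNReal.ofReal q) ^ (∑ x, u x) else 0) :=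
          Finset.sum_le_sum fun c _ => hden c
      _ ≤ r * (∑ g : Fin (m - D) ↪o Fin m, (1 - ENNReal.ofReal q) ^ rho g) ^ 2 := by
          rw [← Finset.mul_sum]
          exact h
      _ = _ := by
          rw [ENNReal.ofReal_mul (by positivity), ENNReal.ofReal_natCast,
            ENNReal.ofReal_pow (Finset.sum_nonneg fun _ _ => by positivity),
            ENNReal.ofReal_sum_of_nonneg fun _ _ => by positivity, e0]
          congr 3
          funext g
          exact (ENNReal.ofReal_pow h1q _).symm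
  exact (ENNReal.ofReal_le_ofReal_iff (by positivity)).1 h2

/-- THE GENERAL BOUND FOR ARBITRARY TESTS. -/
theorem general {Γ : Type} [Group Γ] [Fintype Γ] [MulAction Γ V]
    [Fintype V] [Fintype Xt] [DecidableEq Xt] [Fintype Yt] [DecidableEq Yt] [Fintype C]
    (f : MvPolynomial (V ⊕ Ya) F) (P : Finset V → Prop) (hP : ∀ S, restr S f ≠ 0 ↔ P S)
    (hinv : ∀ (g : Γ) (S : Finset V), P S → P (S.image fun e => g • e))
    (X : Xt → V) (Y : Yt → V) (Z : Finset V) (hinj : Function.Injective (Sum.elim X Y))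
    (hX : ∀ x, X x ∉ Z) (hY : ∀ y, Y y ∉ Z)
    (M : C → Finset Xt) (ys : C → Finset Yt) {D : ℕ} (hD : ∀ c, (ys c).card = D)
    (S : C → Finset V) (hS : ∀ c, P (S c)) (hmin : ∀ c, ∀ T ⊆ S c, P T → T = S c) {N : ℕ}
    (hN1 : 1 ≤ N) (hN : ∀ c, (S c).card = N)
    (htr : ∀ c, ∀ e ∈ S c, ∀ e' ∈ S c, ∃ h : Γ, ((S c).image fun x => h • x) = S c ∧ h • e = e')
    (hsub : ∀ c, ∀ e ∈ S c, e ∈ Z ∨ (∃ x ∈ M c, e = X x) ∨ ∃ y ∈ ys c, e = Y y)
    (hys : ∀ c, ∀ y ∈ ys c, Y y ∈ S c)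
    (h1 : ∀ c (S' : Finset V), P S' →
      (∀ e ∈ S', e ∈ Z ∨ (∃ x, e = X x) ∨ ∃ y ∈ ys c, e = Y y) → ∀ x ∈ M c, X x ∈ S')
    {r m : ℕ} (s : Fin r → ℕ) (hs : ∀ i, s i ≤ m)
    (A : ∀ i, Matrix (Fin (s i)) (Fin (s i)) (MvPolynomial (V ⊕ Ya) F))
    (hA : ∀ i p q, ∀ μ ∈ (A i p q).support, ∑ e, μ (Sum.inl e) ≤ 1)
    (hf : f = ∑ i, (A i).det) (q : ℝ) (hq0 : 0 < q) (hq1 : q < 1) (δ : ℝ) (hδ : 0 ≤ δ)
    (Zc : ℝ) (hZ : 0 ≤ Zc)
    (hden : ∀ C1 : Finset C, ∃ C2 ⊆ C1, (C1.card : ℝ) ≤ Zc * C2.card ∧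
      open Classical in ∀ c : {c // c ∈ C2}, ENNReal.ofReal δ ≤
      (1 - ENNReal.ofReal q) ^ Fintype.card Xt *
      ∑' u : Xt → ℕ, (if Good (fun c : {c // c ∈ C2} => M c.1) c u then
        (ENNReal.ofReal q) ^ (∑ x, u x) else 0)) :
    Fintype.card C * δ ≤ 2 * ((2 * (D * m) / N : ℕ) + 1) * Zc * (r *
      (∑ j ∈ Finset.range (2 * (D * m) / N + 1), (m * (1 - q)) ^ j / (j.factorial : ℝ)) ^ 2) := by
  classical
  have hdeg : ∀ μ ∈ f.support, ∑ e, μ (Sum.inl e) ≤ m := by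
    intro μ hμ
    rw [hf] at hμ
    exact deg_sum_det s hs A hA μ hμ
  have hYinj : Function.Injective Y := fun a b h => by
    have := @hinj (Sum.inr a) (Sum.inr b) h
    simpa using this
  set T : C → Finset V := fun c => (ys c).image Y with hT
  have hTsub : ∀ c, T c ⊆ S c := by
    intro c e he
    obtain ⟨y, hy, rfl⟩ := Finset.mem_image.1 he
    exact hys c y hy
  have hTcard : ∀ c, (T c).card = D := by
    intro c
    rw [hT]
    simp only
    rw [Finset.card_image_of_injective _ hYinj, hD]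
  obtain ⟨g, μ, hμ, hsup, hsum⟩ := averaging (Γ := Γ) f P hP hinv hdeg S hS hmin hN htr T hTsub
    hTcard
  obtain ⟨D', hD', hcard⟩ := common_value (fun c => ∑ e ∈ T c, μ c (Sum.inl (g • e))) N (D * m)
    hN1 hsum
  set C1 : Finset C := Finset.univ.filter fun c => ∑ e ∈ T c, μ c (Sum.inl (g • e)) = D' with hC1
  obtain ⟨C2, hC2, hcard2, hden2⟩ := hden C1
  -- the machine for the class
  have hgX : Function.Injective (Sum.elim (fun x => g • X x) fun y => g • Y y) := by
    intro a b hab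
    apply hinj
    rcases a with a | a <;> rcases b with b | b <;> simpa using hab
  have himg : ∀ (A : Finset V), ((A.image fun e => g⁻¹ • e).image fun e => g • e) = A := by
    intro A
    rw [Finset.image_image]
    simp [Function.comp_def]
  have hmemg : ∀ (A : Finset V) (e : V), g • e ∈ (A.image fun e => g • e) ↔ e ∈ A := by
    intro A e
    rw [Finset.mem_image]
    constructor
    · rintro ⟨e', he', h⟩
      rw [smul_left_cancel_iff] at h
      rw [← h]
      exact he'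
    · intro h
      exact ⟨e, h, rfl⟩
  have hsupy : ∀ c y, μ c (Sum.inl (g • Y y)) ≠ 0 → y ∈ ys c := by
    intro c y hy
    have h2 : g • Y y ∈ CDET.sup (μ c) := by
      rw [CDET.sup, Finset.mem_filter]
      exact ⟨Finset.mem_univ _, hy⟩
    rw [hsup, hmemg] at h2
    rcases hsub c _ h2 with h3 | ⟨x, _, h3⟩ | ⟨y', hy', h3⟩
    · exact absurd h3 (hY y)
    · have := @hinj (Sum.inr y) (Sum.inl x) h3
      simp at this
    · rw [hYinj h3]
      exact hy'
  have hmain := machineG_real (C := {c // c ∈ C2}) f P hP (fun x => g • X x) (fun y => g • Y y)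
    (Z.image fun e => g • e) hgX
    (by
      intro x hx
      rw [hmemg] at hx
      exact hX x hx)
    (by
      intro y hy
      rw [hmemg] at hy
      exact hY y hy)
    (fun c => M c.1) (fun c => μ c.1) (fun c => hμ c.1)
    (by
      intro c e he
      rw [hsup, Finset.mem_image] at he
      obtain ⟨e', he', rfl⟩ := he
      rcases hsub c.1 e' he' with h3 | ⟨x, hx, rfl⟩ | ⟨y, hy, rfl⟩
      · exact Or.inl ((hmemg _ _).2 h3)
      · exact Or.inr (Or.inl ⟨x, hx, rfl⟩)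
      · exact Or.inr (Or.inr ⟨y, rfl⟩))
    (by
      intro c S' hS' hsub' x hx
      have h3 := h1 c.1 (S'.image fun e => g⁻¹ • e) (hinv _ _ hS') (by
        intro e he
        rw [Finset.mem_image] at he
        obtain ⟨e', he', rfl⟩ := he
        rcases hsub' e' he' with h3 | ⟨x, rfl⟩ | ⟨y, rfl, hy⟩
        · left
          rw [← smul_inv_smul g e', hmemg] at h3
          exact h3
        · exact Or.inr (Or.inl ⟨x, by simp⟩)
        · exact Or.inr (Or.inr ⟨y, hsupy _ _ hy, by simp⟩)) x hx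
      rw [Finset.mem_image] at h3
      obtain ⟨e', he', h4⟩ := h3
      rw [← h4, smul_inv_smul]
      exact he')
    D'
    (by
      intro c
      have hc := hC2 c.2
      rw [hC1, Finset.mem_filter] at hc
      rw [← hc.2, hT]
      rw [Finset.sum_image fun x _ y _ h => hYinj h]
      symm
      refine Finset.sum_subset (Finset.subset_univ _) ?_
      intro y _ hy
      by_contra h3
      exact hy (hsupy c.1 y h3))
    s hs A hA hf q hq0 hq1 δ hden2
  have hrho := sum_rho_le_exp (m := m) hD' (1 - q) (by linarith)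
  have hrho0 : 0 ≤ ∑ g : Fin (m - D') ↪o Fin m, (1 - q) ^ rho g :=
    Finset.sum_nonneg fun _ _ => pow_nonneg (by linarith) _
  rw [Fintype.card_coe] at hmain
  have hcardR : (Fintype.card C : ℝ) ≤ 2 * ((2 * (D * m) / N : ℕ) + 1) * (C1.card : ℝ) := by
    exact_mod_cast hcard
  calc (Fintype.card C : ℝ) * δ
      ≤ 2 * ((2 * (D * m) / N : ℕ) + 1) * (C1.card : ℝ) * δ := by gcongr
    _ ≤ 2 * ((2 * (D * m) / N : ℕ) + 1) * (Zc * C2.card) * δ := by gcongr
    _ = 2 * ((2 * (D * m) / N : ℕ) + 1) * Zc * (C2.card * δ) := by ring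
    _ ≤ 2 * ((2 * (D * m) / N : ℕ) + 1) * Zc *
        (r * (∑ g : Fin (m - D') ↪o Fin m, (1 - q) ^ rho g) ^ 2) := by gcongr
    _ ≤ _ := by gcongr

end

end Pool.GT
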