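import Pool.Agent.Helper10.GT.Final

/-!
Determinant sums for arbitrary tests (MP_b6562f_lc): the inequality for words of bits.
-/

set_option autoImplicit false

namespace Pool.GT

open Finset hiding sup
open MvPolynomial Pool.SDL Pool.Agent.SDet Pool.Agent.Helper76 Pool.Agent.Helper76.CDET
open scoped ENNReal BigOperators

section
variable {F : Type} [Field F] {V Ya : Type} [DecidableEq V]

/-- the derivative variables of a choice -/
def Yw {D l : ℕ} (c : Fin D × Bool → Fin l → Bool) :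
    Finset (Fin D × (Fin l → Bool) × (Fin l → Bool)) :=
  Finset.univ.image fun b => (b, c (b, false), c (b, true))

theorem mem_Yw {D l : ℕ} (c : Fin D × Bool → Fin l → Bool)
    (y : Fin D × (Fin l → Bool) × (Fin l → Bool)) :
    y ∈ Yw c ↔ ∃ b, y = (b, c (b, false), c (b, true)) := by
  rw [Yw, Finset.mem_image]
  constructor
  · rintro ⟨b, -, rfl⟩
    exact ⟨b, rfl⟩
  · rintro ⟨b, rfl⟩
    exact ⟨b, Finset.mem_univ _, rfl⟩

theorem card_Yw {D l : ℕ} (c : Fin D × Bool → Fin l → Bool) : (Yw c).card = D := by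
  rw [Yw, Finset.card_image_of_injective, Finset.card_univ, Fintype.card_fin]
  intro b b' h
  exact congrArg Prod.fst h

/-- ARBITRARY TESTS, words of bits -/
theorem general_bits {Γ : Type} [Group Γ] [Fintype Γ] [MulAction Γ V] [Fintype V]
    (f : MvPolynomial (V ⊕ Ya) F) (P : Finset V → Prop) (hP : ∀ S, restr S f ≠ 0 ↔ P S)
    (hinv : ∀ (g : Γ) (S : Finset V), P S → P (S.image fun e => g • e)) {D l B : ℕ}
    (X : ((Fin D × Bool) × Fin l) × (Bool × Fin B) → V)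
    (Y : Fin D × (Fin l → Bool) × (Fin l → Bool) → V) (Z : Finset V)
    (hinj : Function.Injective (Sum.elim X Y)) (hX : ∀ x, X x ∉ Z) (hY : ∀ y, Y y ∉ Z)
    (h1 : ∀ (c : Fin D × Bool → Fin l → Bool) (S : Finset V), P S →
      (∀ e ∈ S, e ∈ Z ∨ (∃ x, e = X x) ∨ ∃ b, e = Y (b, c (b, false), c (b, true))) →
      (∀ h i j, X ((h, i), (c h i, j)) ∈ S) ∧ ∀ b, Y (b, c (b, false), c (b, true)) ∈ S)
    {N : ℕ} (hN1 : 1 ≤ N)
    (h2 : ∀ c : Fin D × Bool → Fin l → Bool, ∃ S : Finset V, P S ∧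
      (∀ e ∈ S, e ∈ Z ∨ (∃ h i j, e = X ((h, i), (c h i, j))) ∨
        ∃ b, e = Y (b, c (b, false), c (b, true))) ∧
      (∀ T ⊆ S, P T → T = S) ∧ S.card = N ∧
      ∀ e ∈ S, ∀ e' ∈ S, ∃ h : Γ, (S.image fun x => h • x) = S ∧ h • e = e')
    {r m : ℕ} (s : Fin r → ℕ) (hs : ∀ i, s i ≤ m)
    (A : ∀ i, Matrix (Fin (s i)) (Fin (s i)) (MvPolynomial (V ⊕ Ya) F))
    (hA : ∀ i p q, ∀ μ ∈ (A i p q).support, ∑ e, μ (Sum.inl e) ≤ 1)
    (hf : f = ∑ i, (A i).det) (q : ℝ) (hq0 : 0 < q) (hq1 : q < 1) :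
    (2 - 2 * q ^ B) ^ (2 * D * l) ≤ 2 * ((2 * (D * m) / N : ℕ) + 1) * (r *
      (∑ j ∈ Finset.range (2 * (D * m) / N + 1), (m * (1 - q)) ^ j / (j.factorial : ℝ)) ^ 2) := by
  classical
  choose S hS hS1 hS2 hS3 hS4 using h2
  have hqB : q ^ B ≤ 1 := pow_le_one₀ hq0.le hq1.le
  have hmain := general (Γ := Γ) f P hP hinv X Y Z hinj hX hY
    (C := Fin D × Bool → Fin l → Bool) (Mw B) Yw card_Yw S hS hS2 hN1 hS3 hS4
    (by
      intro c e he
      rcases hS1 c e he with h | ⟨h, i, j, rfl⟩ | ⟨b, rfl⟩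
      · exact Or.inl h
      · exact Or.inr (Or.inl ⟨_, by rw [mem_Mw], rfl⟩)
      · exact Or.inr (Or.inr ⟨_, (mem_Yw c _).2 ⟨b, rfl⟩, rfl⟩))
    (by
      intro c y hy
      obtain ⟨b, rfl⟩ := (mem_Yw c y).1 hy
      refine (h1 c (S c) (hS c) ?_).2 b
      intro e he
      rcases hS1 c e he with h | ⟨h, i, j, rfl⟩ | ⟨b, rfl⟩
      · exact Or.inl h
      · exact Or.inr (Or.inl ⟨_, rfl⟩)
      · exact Or.inr (Or.inr ⟨b, rfl⟩))
    (by
      intro c S' hS' hsub x hx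
      rw [mem_Mw] at hx
      obtain ⟨⟨h, i⟩, b, j⟩ := x
      simp only at hx
      rw [hx]
      refine (h1 c S' hS' ?_).1 h i j
      intro e he
      rcases hsub e he with h | h | ⟨y, hy, rfl⟩
      · exact Or.inl h
      · exact Or.inr (Or.inl h)
      · obtain ⟨b, rfl⟩ := (mem_Yw c y).1 hy
        exact Or.inr (Or.inr ⟨b, rfl⟩))
    s hs A hA hf q hq0 hq1 ((1 - q ^ B) ^ (2 * D * l)) (pow_nonneg (by linarith) _) 1 zero_le_one
    (by
      intro C1
      refine ⟨C1, Finset.Subset.refl _, by rw [one_mul], ?_⟩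
      intro c
      have h := good_density (B := B) (fun c : {c // c ∈ C1} => c.1) Subtype.val_injective c
        (ENNReal.ofReal q) (ofReal_lt_one hq1)
      refine le_trans (le_of_eq ?_) h
      rw [ENNReal.ofReal_pow (by linarith), ENNReal.ofReal_sub _ (pow_nonneg hq0.le _),
        ENNReal.ofReal_one, ENNReal.ofReal_pow hq0.le])
  have hcard : (Fintype.card (Fin D × Bool → Fin l → Bool) : ℝ) = 2 ^ (2 * D * l) := by
    rw [Fintype.card_fun, Fintype.card_fun, Fintype.card_prod, Fintype.card_bool,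
      Fintype.card_fin, Fintype.card_fin, ← pow_mul]
    push_cast
    congr 1
    ring
  rw [hcard, ← mul_pow, mul_one] at hmain
  calc (2 - 2 * q ^ B) ^ (2 * D * l) = (2 * (1 - q ^ B)) ^ (2 * D * l) := by
        congr 1
        ring
    _ ≤ _ := hmain

end

end Pool.GT
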