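import Pool.Agent.Helper10.GT.Low2
import Pool.Agent.Helper10.GT.Machine

/-!
Determinant sums for arbitrary tests (MP_b6562f_lc): the machine with two sets for every choice
(random tests with two-sided error, promise versions).
-/

set_option autoImplicit false

namespace Pool.GT

open Finset hiding sup
open MvPolynomial Pool.SDL Pool.Agent.SDet Pool.Agent.Helper76 Pool.Agent.Helper76.CDET
open scoped ENNReal BigOperators

section
variable {F : Type} [Field F] {V Ya Xt Yt C : Type} [DecidableEq V]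

/-- THE MACHINE FOR ARBITRARY TESTS, two sets. `μ c` is a monomial of `f`. -/
theorem machineG2 [Fintype V] [Fintype Xt] [DecidableEq Xt] [Fintype Yt] [Fintype C]
    (f : MvPolynomial (V ⊕ Ya) F) (X : Xt → V) (Y : Yt → V) (Z : Finset V) (hinj : Function.Injective (Sum.elim X Y))
    (hX : ∀ x, X x ∉ Z) (hY : ∀ y, Y y ∉ Z)
    (M' M : C → Finset Xt) (μ : C → (V ⊕ Ya) →₀ ℕ) (hμ : ∀ c, μ c ∈ f.support)
    (hsub : ∀ c, ∀ e ∈ CDET.sup (μ c), e ∈ Z ∨ (∃ x ∈ M c, e = X x) ∨ ∃ y, e = Y y)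
    (h1 : ∀ c (S : Finset V), restr S f ≠ 0 →
      (∀ e ∈ S, e ∈ Z ∨ (∃ x, e = X x) ∨ ∃ y, e = Y y ∧ μ c (Sum.inl (Y y)) ≠ 0) →
      ∀ x ∈ M' c, X x ∈ S)
    (D : ℕ) (hD : ∀ c, ∑ y, μ c (Sum.inl (Y y)) = D)
    {r m : ℕ} (s : Fin r → ℕ) (hs : ∀ i, s i ≤ m)
    (A : ∀ i, Matrix (Fin (s i)) (Fin (s i)) (MvPolynomial (V ⊕ Ya) F))
    (hA : ∀ i p q, ∀ μ ∈ (A i p q).support, ∑ e, μ (Sum.inl e) ≤ 1)
    (hf : f = ∑ i, (A i).det) (Q : ℝ≥0∞) (hQ : Q < 1)
    [∀ c, DecidablePred fun u : Xt → ℕ => Good2 M' M c u] :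
    (1 - Q) ^ Fintype.card Xt *
      ∑ c, ∑' u : Xt → ℕ, (if Good2 M' M c u then Q ^ (∑ x, u x) else 0) ≤
    r * (∑ g : Fin (m - D) ↪o Fin m, (1 - Q) ^ rho g) ^ 2 := by
  classical
  set κ' := CDET.ext Ya (kap X Y Z) with hκ'
  set yk : C → Yt →₀ ℕ := fun c => Finsupp.equivFunOnFinite.symm fun y => μ c (Sum.inl (Y y))
    with hyk
  have hykD : ∀ c, (yk c).degree = D := by
    intro c
    rw [Finsupp.degree_eq_sum]
    exact hD c
  set G : C → MvPolynomial Xt (Lf F (V ⊕ Ya)) := fun c => coeff (yk c) (Th _ _ _ (Psi F κ' f))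
    with hG
  have hcoeff : ∀ c T, coeff T (G c) = coeff (Finsupp.mapDomain Sum.inl T +
      Finsupp.mapDomain Sum.inr (yk c)) (Psi F κ' f) := fun c T => coeff_Th (yk c) T _
  -- the determinants
  have hmat : ∀ i, ∃ A' : Matrix (Fin m) (Fin m) (MvPolynomial (Xt ⊕ Yt) (Lf F (V ⊕ Ya))),
      (∀ p q, (A' p q).totalDegree ≤ 1) ∧ A'.det = Psi F κ' (A i).det := by
    intro i
    rw [RingHom.map_det]
    refine exists_pad (hs i) _ fun p q => ?_
    rw [RingHom.mapMatrix_apply, Matrix.map_apply]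
    exact totalDegree_Psi_le κ' _ 1 fun μ hμ => (degree_push_le _ μ).trans (hA i p q μ hμ)
  choose A' hA' hdet using hmat
  have hL : ∀ c, G c ∈ ⨆ i, detSpan ((A' i).map (eps0 (Lf F (V ⊕ Ya)) Xt Yt)) (m - D) := by
    intro c
    rw [hG]
    simp only
    rw [hf, map_sum, map_sum, coeff_sum]
    refine Submodule.sum_mem _ fun i _ => ?_
    rw [← hdet i, ← hykD c]
    exact Submodule.mem_iSup_of_mem i (coeff_det_mem (A' i) (hA' i) (yk c))
  have hAff : ∀ i p q, (((A' i).map (eps0 (Lf F (V ⊕ Ya)) Xt Yt)) p q).totalDegree ≤ 1 := by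
    intro i p q
    rw [Matrix.map_apply]
    exact (eps0_totalDegree _).trans (hA' i p q)
  have hlow : ∀ c T, coeff T (G c) ≠ 0 → M' c ⊆ T.support := by
    intro c T hT
    rw [hcoeff] at hT
    obtain ⟨ν, hν, hνd, hνp⟩ := exists_of_coeff_Psi_ne_zero κ' f _ hT
    have hS := prop_sup f (fun S => restr S f ≠ 0) (fun S => Iff.rfl) ν hν
    have hx : ∀ x, ν (Sum.inl (X x)) = T x := by
      intro x
      rw [← push_X X Y Z hinj ν x, ← hκ', hνp, Finsupp.add_apply,
        Finsupp.mapDomain_apply Sum.inl_injective, Finsupp.mapDomain_of_notMem_range _ _ (by simp),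
        add_zero]
    have hy : ∀ y, ν (Sum.inl (Y y)) = μ c (Sum.inl (Y y)) := by
      intro y
      rw [← push_Y X Y Z hinj ν y, ← hκ', hνp, Finsupp.add_apply,
        Finsupp.mapDomain_apply Sum.inr_injective, Finsupp.mapDomain_of_notMem_range _ _ (by simp),
        zero_add]
      rfl
    have h4 := h1 c (CDET.sup ν) hS (by
      intro e he
      rcases (dead_iff X Y Z hinj ν).1 hνd e he with ⟨x, rfl⟩ | ⟨y, rfl⟩ | hz
      · exact Or.inr (Or.inl ⟨x, rfl⟩)
      · refine Or.inr (Or.inr ⟨y, rfl, ?_⟩)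
        rw [← hy]
        exact (Finset.mem_filter.1 he).2
      · exact Or.inl hz)
    intro x hxM
    have h5 := h4 x hxM
    rw [CDET.sup, Finset.mem_filter, hx] at h5
    exact Finsupp.mem_support_iff.2 h5.2
  have hself : ∀ c, ∃ T : Xt →₀ ℕ, coeff T (G c) ≠ 0 ∧ T.support ⊆ M c := by
    intro c
    refine ⟨Finsupp.equivFunOnFinite.symm fun x => μ c (Sum.inl (X x)), ?_, ?_⟩
    · rw [hcoeff]
      have hdμ : ∀ v, κ' v = none → μ c v = 0 := by
        rw [hκ', dead_iff X Y Z hinj]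
        intro e he
        rcases hsub c e he with h | ⟨x, _, h⟩ | ⟨y, h⟩
        · exact Or.inr (Or.inr h)
        · exact Or.inl ⟨x, h.symm⟩
        · exact Or.inr (Or.inl ⟨y, h.symm⟩)
      have hpush : push κ' (μ c) = Finsupp.mapDomain Sum.inl
          (Finsupp.equivFunOnFinite.symm fun x => μ c (Sum.inl (X x))) +
          Finsupp.mapDomain Sum.inr (yk c) := by
        ext v
        rcases v with x | y
        · rw [hκ', push_X X Y Z hinj, Finsupp.add_apply,
            Finsupp.mapDomain_apply Sum.inl_injective,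
            Finsupp.mapDomain_of_notMem_range _ _ (by simp), add_zero]
          rfl
        · rw [hκ', push_Y X Y Z hinj, Finsupp.add_apply,
            Finsupp.mapDomain_apply Sum.inr_injective,
            Finsupp.mapDomain_of_notMem_range _ _ (by simp), zero_add]
          rfl
      rw [← hpush]
      refine coeff_Psi_ne_zero κ' f (μ c) (hμ c) hdμ ?_
      intro ν _ hνd hνp hνr
      exact eq_of_push X Y Z hinj hX hY ν (μ c) hνd hdμ hνp hνr
    · intro x hx
      rw [Finsupp.mem_support_iff] at hx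
      have hx' : μ c (Sum.inl (X x)) ≠ 0 := hx
      rcases hsub c (X x) (by rw [CDET.sup, Finset.mem_filter]; exact ⟨Finset.mem_univ _, hx'⟩)
        with h | ⟨x', hx', h⟩ | ⟨y, h⟩
      · exact absurd h (hX x)
      · have h2 : (Sum.inl x : Xt ⊕ Yt) = Sum.inl x' := hinj h
        rw [Sum.inl.injEq] at h2
        rw [h2]
        exact hx'
      · have h2 : (Sum.inl x : Xt ⊕ Yt) = Sum.inr y := hinj h
        simp at h2
  exact (low_series2 (Fin m × Fin m) G M' M hlow hself Q hQ).trans (up_series G _ hAff hL Q hQ)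

end

end Pool.GT
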