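import Pool.Agent.Helper10.GT.NumRB

/-!
# Random tests, words of bits: the choice of the parameters, sums of Pfaffians
-/

set_option autoImplicit false

namespace Pool.GT

open Real Pool.GTN

/-- The choice of `l`, with room for the degree of the entries. -/
theorem choose_l3 {K : ℝ} (hK : 1 ≤ K) {μ : ℝ} (hμ : 1 ≤ μ) {d : ℕ} (hd : 1 ≤ d) :
    ∃ l : ℕ, 320 ≤ l ∧ 320 * μ * (1 + log (192 * K * l)) ≤ l ∧ 6912 * μ * d ≤ 2 ^ l ∧
      (2 : ℝ) ^ l ≤ 2 * d * (2 * μ) ^ (300000000 * K * μ) := by
  obtain ⟨l, hl1, hl2, hl3⟩ := choose_l (K := 12 * K) (by linarith) (μ := 40 * μ) (by linarith)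
  have hl1' : (1 : ℝ) ≤ l := by exact_mod_cast hl1
  have hl0 : (0 : ℝ) < l := by linarith
  have hd' : (1 : ℝ) ≤ d := by exact_mod_cast hd
  have h1 : 320 * μ * (1 + log (192 * K * l)) ≤ l := by
    calc 320 * μ * (1 + log (192 * K * l)) = 8 * (40 * μ) * (1 + log (16 * (12 * K) * l)) := by
          ring_nf
      _ ≤ l := hl2
  have h2 : 0 ≤ log (192 * K * l) := log_nonneg (by nlinarith)
  have h3 : 320 * μ ≤ l := by nlinarith
  have h320 : (320 : ℝ) ≤ l := by linarith
  have h320n : 320 ≤ l := by exact_mod_cast h320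
  obtain ⟨k, hk⟩ : ∃ k, k = Nat.log 2 d + 1 := ⟨_, rfl⟩
  have hk1 : d ≤ 2 ^ k := by
    rw [hk]
    exact (Nat.lt_pow_succ_log_self (by norm_num) d).le
  have hk2 : 2 ^ k ≤ 2 * d := by
    rw [hk, pow_succ, mul_comm]
    exact Nat.mul_le_mul_left _ (Nat.pow_log_le_self 2 (by omega))
  have hk1' : (d : ℝ) ≤ 2 ^ k := by exact_mod_cast hk1
  have hk2' : (2 : ℝ) ^ k ≤ 2 * d := by exact_mod_cast hk2
  refine ⟨l + k, by omega, ?_, ?_, ?_⟩
  · have h4 : log (192 * K * ((l + k : ℕ) : ℝ)) ≤ log (192 * K * l) + k / l := by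
      have h5 : (192 : ℝ) * K * ((l + k : ℕ) : ℝ) = 192 * K * l * (1 + k / l) := by
        push_cast
        field_simp
      have h6 : (0 : ℝ) < 1 + k / l := by positivity
      rw [h5, log_mul (by positivity) h6.ne']
      have h7 := log_le_sub_one_of_pos h6
      linarith
    have h8 : 320 * μ * (k / l) ≤ k := by
      rw [← mul_div_assoc, div_le_iff₀ hl0]
      have : (0 : ℝ) ≤ k := Nat.cast_nonneg k
      nlinarith
    have h9 : 320 * μ * (1 + log (192 * K * ((l + k : ℕ) : ℝ))) ≤
        320 * μ * (1 + (log (192 * K * l) + k / l)) := by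
      refine mul_le_mul_of_nonneg_left ?_ (by positivity)
      linarith
    refine h9.trans ?_
    push_cast
    linarith
  · have h4 : 6912 * μ ≤ 2 ^ l := by
      obtain ⟨l', rfl⟩ : ∃ l', l = l' + 10 := ⟨l - 10, by omega⟩
      have h5 : l' + 1 ≤ 2 ^ l' := Nat.lt_two_pow_self
      have h5' : (l' : ℝ) + 1 ≤ 2 ^ l' := by exact_mod_cast h5
      have h6 : (2 : ℝ) ^ (l' + 10) = 1024 * 2 ^ l' := by
        rw [pow_add]
        norm_num
        ring
      rw [h6]
      rw [Nat.cast_add, Nat.cast_ofNat] at h3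
      have h7 : (0 : ℝ) ≤ l' := Nat.cast_nonneg _
      linarith
    rw [pow_add]
    exact mul_le_mul h4 hk1' (by positivity) (by positivity)
  · have h4 : 2 * (40 * μ) ≤ (2 * μ) ^ (7 : ℝ) := by
      have h5 : (2 * μ) ^ (7 : ℝ) = (2 * μ) ^ (7 : ℕ) := by
        rw [← rpow_natCast]
        norm_num
      rw [h5, mul_pow]
      have h6 : μ ≤ μ ^ 7 := le_self_pow₀ hμ (by norm_num)
      nlinarith
    have h7 : (0 : ℝ) ≤ 80000 * (12 * K) * (40 * μ) := by positivity
    have h8 : (2 : ℝ) ^ l ≤ (2 * μ) ^ (300000000 * K * μ) := by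
      refine hl3.trans ?_
      calc (2 * (40 * μ)) ^ (80000 * (12 * K) * (40 * μ))
          ≤ ((2 * μ) ^ (7 : ℝ)) ^ (80000 * (12 * K) * (40 * μ)) :=
            rpow_le_rpow (by positivity) h4 h7
        _ = (2 * μ) ^ (7 * (80000 * (12 * K) * (40 * μ))) := by
            rw [← rpow_mul (by positivity)]
        _ ≤ (2 * μ) ^ (300000000 * K * μ) := by
            refine rpow_le_rpow_of_exponent_le (by linarith) ?_
            have h8 : 0 ≤ K * μ := by positivity
            nlinarith
    rw [pow_add, mul_comm]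
    exact mul_le_mul hk2' h8 (by positivity) (by positivity)

/-- **The numerical part**, random tests, sums of `r` Pfaffians of size `2m` of polynomials of
degree at most `d`, with cofactors of degree at most `ν`. -/
theorem numericsPf (K : ℕ) (hK : 1 ≤ K) : ∃ c C : ℝ, 0 < c ∧ 0 < C ∧ ∀ (n m d ν r : ℕ) (μ : ℝ),
    1 ≤ n → 1 ≤ d → 1 ≤ r → 1 ≤ μ → ((ν + m * d : ℕ) : ℝ) ≤ μ * n → 3072 * K * ν ≤ n →
    (∀ D l B : ℕ, 1 ≤ D → 1 ≤ l → 1 ≤ B → K * (D * (l * B + 2 ^ l)) ≤ n →
      ∀ L τ T0 : ℕ, 1 ≤ L → 8 * (D * (ν + m * d)) ≤ n * L →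
      (T0 : ℝ) + 1 / 8 * (2 * D * l * B) ≤ τ * B →
      ∀ q : ℝ, 0 < q → q < 1 → 2 ^ (2 * D * l) * q ^ T0 ≤ 1 / 2 →
      q ^ (ν + L * (d - 1)) * (1 / 2 * 2 ^ (2 * D * l)) ≤ 2 * (r *
        (∑ j ∈ Finset.range (2 * L + 1), (2 * (m + L + 1 : ℕ) * (d * (1 - q))) ^ j /
          (j.factorial : ℝ))) *
        ((L + 1) * ∑ j ∈ Finset.range τ, ((2 * D * l).choose j : ℝ))) →
    exp (c * n / (d * (2 * μ) ^ (C * μ))) ≤ 2 * r := by
  refine ⟨1 / (128 * K), 300000000 * K, by positivity, by positivity, ?_⟩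
  intro n m d ν r μ hn hd hr hμ1 hdeg hν H
  have hK' : (1 : ℝ) ≤ K := by exact_mod_cast hK
  have hK0 : (0 : ℝ) < K := by linarith
  have hn' : (1 : ℝ) ≤ n := by exact_mod_cast hn
  have hn0 : (0 : ℝ) < n := by linarith
  have hd' : (1 : ℝ) ≤ d := by exact_mod_cast hd
  have hd0 : (0 : ℝ) < d := by linarith
  have hr' : (1 : ℝ) ≤ r := by exact_mod_cast hr
  have hr0 : (0 : ℝ) < r := by linarith
  have hμ0 : 0 < μ := by linarith
  have hν' : (3072 * K * ν : ℝ) ≤ n := by exact_mod_cast hν
  have hν0 : (0 : ℝ) ≤ ν := Nat.cast_nonneg _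
  have hm0 : (0 : ℝ) ≤ m := Nat.cast_nonneg _
  have hmd : (m * d : ℝ) ≤ μ * n := by
    push_cast at hdeg
    linarith
  obtain ⟨l, hl1, hl2, hl4, hl3⟩ := choose_l3 hK' hμ1 hd
  have hl1' : (320 : ℝ) ≤ l := by exact_mod_cast hl1
  have hl0 : (0 : ℝ) < l := by linarith
  have h2l : (0 : ℝ) < 2 ^ l := by positivity
  have hexp : 1 / (128 * (K : ℝ)) * n / (d * (2 * μ) ^ (300000000 * K * μ)) ≤
      n / (64 * K * 2 ^ l) := by
    have h0 : (0 : ℝ) < (2 * μ) ^ (300000000 * K * μ) := by positivity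
    calc 1 / (128 * (K : ℝ)) * n / (d * (2 * μ) ^ (300000000 * K * μ))
        = 1 / (64 * (K : ℝ)) * n / (2 * d * (2 * μ) ^ (300000000 * K * μ)) := by
          field_simp
          ring
      _ ≤ 1 / (64 * (K : ℝ)) * n / 2 ^ l :=
          div_le_div_of_nonneg_left (by positivity) h2l hl3
      _ = n / (64 * K * 2 ^ l) := by field_simp
  refine (exp_le_exp.2 hexp).trans ?_
  by_cases hcase : 2 * K * 2 ^ l ≤ n
  · obtain ⟨D, hD⟩ : ∃ D, D = n / (2 * K * 2 ^ l) := ⟨_, rfl⟩
    have hpos : 0 < 2 * K * 2 ^ l := by positivity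
    have hD1 : 1 ≤ D := by
      rw [hD, Nat.one_le_div_iff hpos]
      exact hcase
    have hDn : D * (2 * K * 2 ^ l) ≤ n := by
      rw [hD]
      exact Nat.div_mul_le_self _ _
    have hnD : n ≤ 2 * (D * (2 * K * 2 ^ l)) := by
      have h1 : n < (D + 1) * (2 * K * 2 ^ l) := (Nat.div_lt_iff_lt_mul hpos).1 (by omega)
      have h2 : (D + 1) * (2 * K * 2 ^ l) ≤ 2 * D * (2 * K * 2 ^ l) :=
        Nat.mul_le_mul_right _ (by omega)
      calc n ≤ 2 * D * (2 * K * 2 ^ l) := h1.le.trans h2
        _ = _ := by ring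
    have hnD' : (n : ℝ) ≤ 2 * (D * (2 * K * 2 ^ l)) := by exact_mod_cast hnD
    have hD1' : (1 : ℝ) ≤ D := by exact_mod_cast hD1
    have hD0 : (0 : ℝ) < D := by linarith
    obtain ⟨B, hB⟩ : ∃ B, B = 2 ^ l / l := ⟨_, rfl⟩
    have hll : l ≤ 2 ^ l := Nat.lt_two_pow_self.le
    have hB1 : 1 ≤ B := by
      rw [hB, Nat.one_le_div_iff (by omega)]
      exact hll
    have hlB : l * B ≤ 2 ^ l := by
      rw [hB]
      exact Nat.mul_div_le _ _
    have hlB2 : 2 ^ l ≤ 2 * (B * l) := by
      have h1 : 2 ^ l < (B + 1) * l := (Nat.div_lt_iff_lt_mul (by omega)).1 (by omega)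
      have h2 : (B + 1) * l ≤ 2 * B * l := Nat.mul_le_mul_right _ (by omega)
      calc 2 ^ l ≤ 2 * B * l := h1.le.trans h2
        _ = _ := by ring
    have hlB2' : (2 : ℝ) ^ l ≤ 2 * (B * l) := by exact_mod_cast hlB2
    have hB1' : (1 : ℝ) ≤ B := by exact_mod_cast hB1
    have hB0 : (0 : ℝ) < B := by linarith
    have hsize : K * (D * (l * B + 2 ^ l)) ≤ n := by
      calc K * (D * (l * B + 2 ^ l)) ≤ K * (D * (2 ^ l + 2 ^ l)) := by
            refine Nat.mul_le_mul_left _ (Nat.mul_le_mul_left _ ?_)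
            omega
        _ = D * (2 * K * 2 ^ l) := by ring
        _ ≤ n := hDn
    obtain ⟨q, hq⟩ : ∃ q : ℝ, q = exp (-(24 / (B : ℝ))) := ⟨_, rfl⟩
    have hq0 : 0 < q := by rw [hq]; exact exp_pos _
    have hq1 : q < 1 := by
      rw [hq, exp_lt_one_iff]
      have : 0 < 24 / (B : ℝ) := by positivity
      linarith
    have h1q : 1 - q ≤ 24 / B := by
      have := add_one_le_exp (-(24 / (B : ℝ)))
      rw [hq]
      linarith
    have h1q0 : 0 ≤ 1 - q := by linarith
    have h24 : (24 : ℝ) / B ≤ 48 * l / 2 ^ l := by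
      rw [div_le_div_iff₀ hB0 h2l]
      calc (24 : ℝ) * 2 ^ l ≤ 24 * (2 * (B * l)) :=
            mul_le_mul_of_nonneg_left hlB2' (by norm_num)
        _ = 48 * l * B := by ring
    have h2ln : (1 : ℝ) / 2 ^ l ≤ 4 * K * D / n := by
      rw [div_le_div_iff₀ h2l hn0]
      linarith
    -- the parameters
    obtain ⟨L, hL⟩ : ∃ L, L = ⌈8 * D * μ⌉₊ := ⟨_, rfl⟩
    have hDμ : 1 ≤ D * μ := one_le_mul_of_one_le_of_one_le hD1' hμ1
    have hL1 : 8 * D * μ ≤ L := by rw [hL]; exact Nat.le_ceil _
    have hL2 : (L : ℝ) ≤ 9 * D * μ := by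
      have : (L : ℝ) < 8 * D * μ + 1 := by rw [hL]; exact Nat.ceil_lt_add_one (by positivity)
      linarith
    have hL0 : (0 : ℝ) ≤ L := Nat.cast_nonneg _
    have hL1n : 1 ≤ L := by
      have : (1 : ℝ) ≤ L := by linarith
      exact_mod_cast this
    have hLn : 8 * (D * (ν + m * d)) ≤ n * L := by
      have h1 : (8 * (D * ((ν + m * d : ℕ) : ℝ)) : ℝ) ≤ n * L := by
        calc (8 * (D * ((ν + m * d : ℕ) : ℝ)) : ℝ) ≤ 8 * (D * (μ * n)) := by gcongr
          _ = n * (8 * D * μ) := by ring
          _ ≤ n * L := mul_le_mul_of_nonneg_left hL1 hn0.le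
      exact_mod_cast h1
    obtain ⟨t, ht⟩ : ∃ t, t = D * l / 4 := ⟨_, rfl⟩
    obtain ⟨τ, hτ⟩ : ∃ τ, τ = (D * l + 1) / 2 := ⟨_, rfl⟩
    have hDl : 320 ≤ D * l := by nlinarith
    have ht1 : 4 * t ≤ D * l := by omega
    have ht2 : D * l ≤ 8 * t := by omega
    have hτ1 : D * l ≤ 2 * τ := by omega
    have hτ2 : ∀ j, j < τ → 4 * j ≤ 2 * D * l := by
      intro j hj
      have : 2 * D * l = 2 * (D * l) := by ring
      omega
    have hT : ((t * B : ℕ) : ℝ) + 1 / 8 * (2 * D * l * B) ≤ τ * B := by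
      have h1 : (4 * t : ℝ) ≤ D * l := by exact_mod_cast ht1
      have h2 : (D * l : ℝ) ≤ 2 * τ := by exact_mod_cast hτ1
      have h3 : (t : ℝ) + 1 / 8 * (2 * D * l) ≤ τ := by linarith
      have h4 := mul_le_mul_of_nonneg_right h3 hB0.le
      push_cast
      linarith
    have hqT : q ^ (t * B) = exp (-(24 * t)) := by
      rw [hq, ← exp_nat_mul]
      congr 1
      push_cast
      field_simp
    have hT2 : 2 ^ (2 * D * l) * q ^ (t * B) ≤ 1 / 2 := by
      rw [hqT]
      have h1 : exp (-(24 * (t : ℝ))) ≤ exp (-(3 * (D * l : ℝ))) := by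
        apply exp_le_exp.2
        have : (D * l : ℝ) ≤ 8 * t := by exact_mod_cast ht2
        linarith
      have h2 : (2 : ℝ) ^ (2 * D * l) ≤ exp (2 * (D * l : ℝ)) := by
        have h3 : (2 : ℝ) ≤ exp 1 := by
          have := exp_one_gt_d9
          linarith
        calc (2 : ℝ) ^ (2 * D * l) ≤ exp 1 ^ (2 * D * l) :=
              pow_le_pow_left₀ (by norm_num) h3 _
          _ = exp (2 * (D * l : ℝ)) := by
              rw [← exp_nat_mul]
              congr 1
              push_cast
              ring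
      calc 2 ^ (2 * D * l) * exp (-(24 * (t : ℝ)))
          ≤ exp (2 * (D * l : ℝ)) * exp (-(3 * (D * l : ℝ))) :=
            mul_le_mul h2 h1 (exp_pos _).le (exp_pos _).le
        _ = exp (-(D * l : ℝ)) := by
            rw [← exp_add]
            congr 1
            ring
        _ ≤ exp (-1) := by
            apply exp_le_exp.2
            have : (320 : ℝ) ≤ D * l := by exact_mod_cast hDl
            linarith
        _ ≤ 1 / 2 := by
            have h3 : (2 : ℝ) ≤ exp 1 := by
              have := exp_one_gt_d9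
              linarith
            rw [exp_neg, inv_eq_one_div]
            exact one_div_le_one_div_of_le (by norm_num) h3
    have hmain := H D l B hD1 (by omega) hB1 hsize L τ (t * B) hL1n hLn hT q hq0 hq1 hT2
    -- the power of `q`
    have hqpow : exp (-(D * l / 8)) ≤ q ^ (ν + L * (d - 1)) := by
      have h1 : q ^ (ν + L * (d - 1)) = exp (-((24 / B) * ((ν + L * (d - 1) : ℕ) : ℝ))) := by
        rw [hq, ← exp_nat_mul]
        congr 1
        ring
      rw [h1]
      apply exp_le_exp.2
      have h2 : ((ν + L * (d - 1) : ℕ) : ℝ) ≤ ν + L * d := by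
        have : ν + L * (d - 1) ≤ ν + L * d := Nat.add_le_add_left (Nat.mul_le_mul_left _ (by omega)) _
        exact_mod_cast this
      have h3 : (24 / B) * ((ν + L * (d - 1) : ℕ) : ℝ) ≤ 48 * l / 2 ^ l * (ν + L * d) :=
        mul_le_mul h24 h2 (by positivity) (by positivity)
      have h4 : 48 * l / 2 ^ l * (ν : ℝ) ≤ D * l / 16 := by
        calc 48 * l / 2 ^ l * (ν : ℝ) = 48 * l * ν * (1 / 2 ^ l) := by ring
          _ ≤ 48 * l * ν * (4 * K * D / n) := mul_le_mul_of_nonneg_left h2ln (by positivity)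
          _ = (3072 * K * ν / n) * (D * l / 16) := by ring
          _ ≤ 1 * (D * l / 16) := by
              refine mul_le_mul_of_nonneg_right ?_ (by positivity)
              rw [div_le_one hn0]
              exact hν'
          _ = D * l / 16 := one_mul _
      have h5 : 48 * l / 2 ^ l * (L * d : ℝ) ≤ D * l / 16 := by
        rw [div_mul_eq_mul_div, div_le_iff₀ h2l]
        calc 48 * l * (L * d : ℝ) ≤ 48 * l * ((9 * D * μ) * d) := by gcongr
          _ = D * l / 16 * (6912 * μ * d) := by ring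
          _ ≤ D * l / 16 * 2 ^ l := mul_le_mul_of_nonneg_left hl4 (by positivity)
      have h6 : 48 * l / 2 ^ l * (ν + L * d : ℝ) =
          48 * l / 2 ^ l * (ν : ℝ) + 48 * l / 2 ^ l * (L * d : ℝ) := by ring
      linarith
    -- the binomial sum
    have hbin := binom_quarter (2 * D * l) τ hτ2
    set bin : ℝ := ∑ j ∈ Finset.range τ, ((2 * D * l).choose j : ℝ) with hbindef
    have hbin0 : 0 ≤ bin := Finset.sum_nonneg fun j _ => by positivity
    have hbin2 : bin * exp (D * l / 4) ≤ 2 ^ (2 * D * l) := by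
      have h1 : (bin * exp (D * l / 4)) ^ 4 ≤ (2 ^ (2 * D * l)) ^ 4 := by
        rw [mul_pow]
        have h2 : exp ((D : ℝ) * l / 4) ^ 4 ≤ (27 / 16) ^ (2 * D * l) := by
          calc exp ((D : ℝ) * l / 4) ^ 4 = exp 1 ^ (D * l) := by
                rw [← exp_nat_mul, ← exp_nat_mul]
                congr 1
                push_cast
                ring
            _ ≤ ((27 / 16 : ℝ) ^ 2) ^ (D * l) :=
                pow_le_pow_left₀ (exp_pos _).le exp_quarter_le _
            _ = (27 / 16) ^ (2 * D * l) := by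
                rw [← pow_mul]
                congr 1
                ring
        calc bin ^ 4 * exp ((D : ℝ) * l / 4) ^ 4
            ≤ (256 / 27) ^ (2 * D * l) * (27 / 16) ^ (2 * D * l) :=
              mul_le_mul hbin h2 (by positivity) (by positivity)
          _ = (2 ^ 4) ^ (2 * D * l) := by
              rw [← mul_pow]
              norm_num
          _ = ((2 : ℝ) ^ (2 * D * l)) ^ 4 := by
              rw [← pow_mul, ← pow_mul, mul_comm 4]
      exact le_of_pow_le_pow_left₀ (by norm_num) (by positivity) h1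
    -- the exponential sum
    have hKl : (1 : ℝ) ≤ 192 * K * l := by nlinarith
    have hKl0 : (0 : ℝ) < 192 * K * l := by linarith
    set z : ℝ := 1 / (192 * K * l) with hz
    have hz0 : 0 < z := by positivity
    have hz1 : z ≤ 1 := by
      rw [hz, div_le_one hKl0]
      exact hKl
    have hzx : z * (2 * (m + L + 1 : ℕ) * (d * (1 - q))) ≤ 3 * (D * μ) := by
      have h1q' : 1 - q ≤ 48 * l / 2 ^ l := h1q.trans h24
      have h1 : (m * d : ℝ) * (1 - q) ≤ 192 * K * l * (D * μ) := by
        calc (m * d : ℝ) * (1 - q) ≤ (μ * n) * (48 * l / 2 ^ l) :=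
              mul_le_mul hmd h1q' h1q0 (by positivity)
          _ = 48 * (μ * n) * l * (1 / 2 ^ l) := by ring
          _ ≤ 48 * (μ * n) * l * (4 * K * D / n) := mul_le_mul_of_nonneg_left h2ln (by positivity)
          _ = 192 * K * l * (D * μ) := by
              field_simp
              ring
      have h2 : ((L + 1) * d : ℝ) * (1 - q) ≤ 96 * K * l * (D * μ) := by
        have h3 : (L : ℝ) + 1 ≤ 10 * D * μ := by linarith
        calc ((L + 1) * d : ℝ) * (1 - q) ≤ ((10 * D * μ) * d) * (48 * l / 2 ^ l) := by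
              refine mul_le_mul ?_ h1q' h1q0 (by positivity)
              exact mul_le_mul_of_nonneg_right h3 hd0.le
          _ = (480 / 6912) * (6912 * μ * d) * (D * l) / 2 ^ l := by ring
          _ ≤ (480 / 6912) * 2 ^ l * (D * l) / 2 ^ l := by gcongr
          _ = (480 / 6912) * (D * l) := by field_simp
          _ ≤ 96 * K * l * (D * μ) := by
              have h4 : (D : ℝ) * l ≤ K * l * (D * μ) := by
                have h5 : 1 ≤ K * μ := one_le_mul_of_one_le_of_one_le hK' hμ1
                calc (D : ℝ) * l = 1 * (D * l) := (one_mul _).symm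
                  _ ≤ (K * μ) * (D * l) := mul_le_mul_of_nonneg_right h5 (by positivity)
                  _ = _ := by ring
              have h6 : (0 : ℝ) ≤ D * l := by positivity
              linarith
      calc z * (2 * (m + L + 1 : ℕ) * (d * (1 - q)))
          = z * (2 * ((m * d : ℝ) * (1 - q) + ((L + 1) * d : ℝ) * (1 - q))) := by
            push_cast
            ring
        _ ≤ z * (2 * (192 * K * l * (D * μ) + 96 * K * l * (D * μ))) := by gcongr
        _ = 3 * (D * μ) := by
            rw [hz]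
            field_simp
            ring
    have hx0 : 0 ≤ 2 * ((m + L + 1 : ℕ) : ℝ) * (d * (1 - q)) := by positivity
    have hS := sum_le (x := 2 * (m + L + 1 : ℕ) * (d * (1 - q))) hx0 hz0 hz1 (2 * L)
    have h1z : 1 / z = 192 * K * l := by
      rw [hz]
      field_simp
    rw [h1z] at hS
    set lg : ℝ := log (192 * K * l) with hlg
    have hlg0 : 0 ≤ lg := log_nonneg hKl
    set SS : ℝ := ∑ j ∈ Finset.range (2 * L + 1), (2 * (m + L + 1 : ℕ) * (d * (1 - q))) ^ j /
      (j.factorial : ℝ) with hSS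
    have hS2 : SS ≤ exp (18 * D * μ * lg + 3 * (D * μ)) := by
      refine hS.trans ?_
      rw [exp_add]
      refine mul_le_mul ?_ (exp_le_exp.2 hzx) (exp_pos _).le (exp_pos _).le
      calc (192 * K * l : ℝ) ^ (2 * L) = exp ((2 * L) * lg) := by
            rw [mul_comm (2 * L : ℝ), exp_mul, hlg, exp_log hKl0,
              show (2 * (L : ℝ)) = ((2 * L : ℕ) : ℝ) by push_cast; ring, rpow_natCast]
        _ ≤ exp (18 * D * μ * lg) := by
            apply exp_le_exp.2
            have := mul_le_mul_of_nonneg_right hL2 hlg0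
            linarith
    have hS0 : 0 ≤ SS := Finset.sum_nonneg fun j _ => by positivity
    have hfac : ((L : ℝ) + 1) ≤ exp (9 * D * μ) := by
      have := add_one_le_exp (9 * D * μ)
      linarith
    have hall : exp (D * l / 8) ≤ 4 * r * exp (18 * D * μ * (1 + lg)) := by
      have h2D : (0 : ℝ) < 2 ^ (2 * D * l) := by positivity
      have h0 : exp (-((D : ℝ) * l / 8)) * exp (D * l / 4) = exp (D * l / 8) := by
        rw [← exp_add]
        congr 1
        ring
      have h1 : 2 ^ (2 * D * l) * exp (D * l / 8) ≤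
          2 ^ (2 * D * l) * (4 * r * exp (18 * D * μ * (1 + lg))) := by
        calc 2 ^ (2 * D * l) * exp ((D : ℝ) * l / 8)
            = 2 * (exp (-((D : ℝ) * l / 8)) * (1 / 2 * 2 ^ (2 * D * l))) * exp (D * l / 4) := by
              rw [← h0]
              ring
          _ ≤ 2 * (q ^ (ν + L * (d - 1)) * (1 / 2 * 2 ^ (2 * D * l))) * exp (D * l / 4) := by
              gcongr
          _ ≤ 2 * (2 * (r * exp (18 * D * μ * lg + 3 * (D * μ))) *
              (exp (9 * D * μ) * bin)) * exp (D * l / 4) := by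
              refine mul_le_mul_of_nonneg_right ?_ (exp_pos _).le
              refine mul_le_mul_of_nonneg_left (hmain.trans ?_) (by norm_num)
              refine mul_le_mul ?_ ?_ (by positivity) (by positivity)
              · refine mul_le_mul_of_nonneg_left ?_ (by norm_num)
                exact mul_le_mul_of_nonneg_left hS2 hr0.le
              · exact mul_le_mul_of_nonneg_right hfac hbin0
          _ = 4 * r * (exp (18 * D * μ * lg + 3 * (D * μ)) * exp (9 * D * μ)) *
              (bin * exp (D * l / 4)) := by ring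
          _ ≤ 4 * r * (exp (18 * D * μ * lg + 3 * (D * μ)) * exp (9 * D * μ)) *
              2 ^ (2 * D * l) := by
              refine mul_le_mul_of_nonneg_left hbin2 ?_
              positivity
          _ ≤ 4 * r * exp (18 * D * μ * (1 + lg)) * 2 ^ (2 * D * l) := by
              refine mul_le_mul_of_nonneg_right ?_ h2D.le
              refine mul_le_mul_of_nonneg_left ?_ (by positivity)
              rw [← exp_add]
              apply exp_le_exp.2
              have h5 : 0 ≤ D * μ * lg := by positivity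
              have h6 : 0 ≤ D * μ := by positivity
              nlinarith
          _ = _ := by ring
      exact le_of_mul_le_mul_left h1 h2D
    have hhalf : 18 * D * μ * (1 + lg) ≤ D * l / 16 := by
      have h5 : 0 ≤ D * μ * (1 + lg) := by positivity
      calc 18 * D * μ * (1 + lg) ≤ D * (320 * μ * (1 + lg)) / 16 := by linarith
        _ ≤ D * l / 16 := by
            refine div_le_div_of_nonneg_right ?_ (by norm_num)
            exact mul_le_mul_of_nonneg_left hl2 hD0.le
    have hfin : exp ((D : ℝ) * l / 16) ≤ 4 * r := by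
      have h1 : exp ((D : ℝ) * l / 16) * exp ((D : ℝ) * l / 16) ≤
          (4 * r) * exp ((D : ℝ) * l / 16) := by
        calc exp ((D : ℝ) * l / 16) * exp ((D : ℝ) * l / 16) = exp (D * l / 8) := by
              rw [← exp_add]
              congr 1
              ring
          _ ≤ _ := hall
          _ ≤ (4 * r) * exp ((D : ℝ) * l / 16) :=
              mul_le_mul_of_nonneg_left (exp_le_exp.2 hhalf) (by positivity)
      exact le_of_mul_le_mul_right h1 (exp_pos _)
    have hfin2 : exp ((D : ℝ) * l / 32) ≤ 2 * r := by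
      have h1 : exp ((D : ℝ) * l / 32) ^ 2 ≤ (2 * r) ^ 2 := by
        calc exp ((D : ℝ) * l / 32) ^ 2 = exp (D * l / 16) := by
              rw [← exp_nat_mul]
              congr 1
              push_cast
              ring
          _ ≤ 4 * r := hfin
          _ ≤ (2 * r) ^ 2 := by nlinarith
      exact le_of_pow_le_pow_left₀ (by norm_num) (by positivity) h1
    refine (exp_le_exp.2 ?_).trans hfin2
    rw [div_le_iff₀ (by positivity)]
    have h1 : 0 ≤ (D : ℝ) * K * 2 ^ l := by positivity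
    calc (n : ℝ) ≤ 2 * (D * (2 * K * 2 ^ l)) := hnD'
      _ = 4 * (D * K * 2 ^ l) := by ring
      _ ≤ 2 * (D * K * 2 ^ l) * l := by nlinarith
      _ = D * l / 32 * (64 * K * 2 ^ l) := by ring
  · push Not at hcase
    have hcase' : (n : ℝ) < 2 * K * 2 ^ l := by exact_mod_cast hcase
    have h1 : (n : ℝ) / (64 * K * 2 ^ l) ≤ 1 / 8 := by
      rw [div_le_div_iff₀ (by positivity) (by norm_num)]
      have : 0 < (K : ℝ) * 2 ^ l := by positivity
      linarith
    have h2 : exp (1 / 8) ≤ 2 := by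
      have h3 : exp (1 / 8) ≤ exp (1 / 2) := by
        apply exp_le_exp.2
        norm_num
      have h4 := exp_half_le
      have h5 : 0 < exp (-2) := exp_pos _
      linarith
    calc exp ((n : ℝ) / (64 * K * 2 ^ l)) ≤ exp (1 / 8) := exp_le_exp.2 h1
      _ ≤ 2 := h2
      _ ≤ 2 * r := by linarith

end Pool.GT
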