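import Pool.Agent.Helper91.HN.Num5

/-!
# Random tests, words of bits: the choice of the parameters
-/

set_option autoImplicit false

namespace Pool.GT

open Real Pool.GTN

/-- binomial sums up to a quarter -/
theorem binom_quarter (M τ : ℕ) (hτ : ∀ j, j < τ → 4 * j ≤ M) :
    (∑ j ∈ Finset.range τ, (M.choose j : ℝ)) ^ 4 ≤ (256 / 27) ^ M := by
  have h1 : ∑ j ∈ Finset.range τ, (M.choose j : ℝ) * (1 / 3) ^ j ≤ (4 / 3) ^ M := by
    have h2 : ((1 : ℝ) / 3 + 1) ^ M = ∑ j ∈ Finset.range (M + 1), (1 / 3) ^ j * 1 ^ (M - j) *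
        (M.choose j : ℝ) := add_pow _ _ _
    have h3 : ((4 : ℝ) / 3) ^ M = ∑ j ∈ Finset.range (M + 1), (M.choose j : ℝ) * (1 / 3) ^ j := by
      rw [show (4 : ℝ) / 3 = 1 / 3 + 1 by norm_num, h2]
      refine Finset.sum_congr rfl fun j _ => ?_
      rw [one_pow]
      ring
    rw [h3]
    refine Finset.sum_le_sum_of_subset_of_nonneg ?_ fun j _ _ => by positivity
    intro j hj
    rw [Finset.mem_range] at hj ⊢
    have := hτ j hj
    omega
  -- every term
  have h4 : (∑ j ∈ Finset.range τ, (M.choose j : ℝ)) * ((1 / 3 : ℝ) ^ ((M : ℝ) / 4)) ≤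
      (4 / 3) ^ M := by
    refine le_trans ?_ h1
    rw [Finset.sum_mul]
    refine Finset.sum_le_sum fun j hj => ?_
    rw [Finset.mem_range] at hj
    refine mul_le_mul_of_nonneg_left ?_ (by positivity)
    rw [← rpow_natCast (1 / 3 : ℝ) j]
    refine rpow_le_rpow_of_exponent_ge (by norm_num) (by norm_num) ?_
    have h5 : (4 * j : ℝ) ≤ M := by exact_mod_cast hτ j hj
    linarith
  have h6 : 0 ≤ ∑ j ∈ Finset.range τ, (M.choose j : ℝ) :=
    Finset.sum_nonneg fun j _ => by positivity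
  have h7 := pow_le_pow_left₀ (mul_nonneg h6 (by positivity)) h4 4
  rw [mul_pow] at h7
  have h8 : ((1 / 3 : ℝ) ^ ((M : ℝ) / 4)) ^ 4 = (1 / 3) ^ M := by
    rw [← rpow_natCast ((1 / 3 : ℝ) ^ ((M : ℝ) / 4)) 4, ← rpow_mul (by norm_num),
      ← rpow_natCast (1 / 3 : ℝ) M]
    congr 1
    push_cast
    ring
  rw [h8] at h7
  have h9 : ((4 / 3 : ℝ) ^ M) ^ 4 = (256 / 81) ^ M := by
    rw [← pow_mul, mul_comm, pow_mul]
    norm_num
  rw [h9] at h7
  have h10 : (256 / 27 : ℝ) ^ M = (256 / 81) ^ M * 3 ^ M := by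
    rw [← mul_pow]
    norm_num
  rw [h10]
  have h11 : ((1 / 3 : ℝ)) ^ M * 3 ^ M = 1 := by
    rw [← mul_pow]
    norm_num
  calc (∑ j ∈ Finset.range τ, (M.choose j : ℝ)) ^ 4
      = (∑ j ∈ Finset.range τ, (M.choose j : ℝ)) ^ 4 * ((1 / 3) ^ M * 3 ^ M) := by
        rw [h11, mul_one]
    _ = ((∑ j ∈ Finset.range τ, (M.choose j : ℝ)) ^ 4 * (1 / 3) ^ M) * 3 ^ M := by ring
    _ ≤ (256 / 81) ^ M * 3 ^ M := by gcongr

/-- The choice of `l`. -/
theorem choose_l2 {K : ℝ} (hK : 1 ≤ K) {μ : ℝ} (hμ : 1 ≤ μ) :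
    ∃ l : ℕ, 160 ≤ l ∧ 160 * μ * (1 + log (192 * K * l)) ≤ l ∧
      (2 : ℝ) ^ l ≤ (2 * μ) ^ (120000000 * K * μ) := by
  obtain ⟨l, hl1, hl2, hl3⟩ := choose_l (K := 12 * K) (by linarith) (μ := 20 * μ) (by linarith)
  have hl1' : (1 : ℝ) ≤ l := by exact_mod_cast hl1
  have h1 : 160 * μ * (1 + log (192 * K * l)) ≤ l := by
    calc 160 * μ * (1 + log (192 * K * l)) = 8 * (20 * μ) * (1 + log (16 * (12 * K) * l)) := by
          ring_nf
      _ ≤ l := hl2
  refine ⟨l, ?_, h1, ?_⟩
  · have h2 : 0 ≤ log (192 * K * l) := log_nonneg (by nlinarith)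
    have h3 : (160 : ℝ) ≤ l := by nlinarith
    exact_mod_cast h3
  · refine hl3.trans ?_
    have h4 : 2 * (20 * μ) ≤ (2 * μ) ^ (6 : ℝ) := by
      have h5 : (2 * μ) ^ (6 : ℝ) = (2 * μ) ^ (6 : ℕ) := by
        rw [← rpow_natCast]
        norm_num
      rw [h5, mul_pow]
      have h6 : μ ≤ μ ^ 6 := le_self_pow₀ hμ (by norm_num)
      nlinarith
    have h7 : (0 : ℝ) ≤ 80000 * (12 * K) * (20 * μ) := by positivity
    calc (2 * (20 * μ)) ^ (80000 * (12 * K) * (20 * μ))
        ≤ ((2 * μ) ^ (6 : ℝ)) ^ (80000 * (12 * K) * (20 * μ)) :=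
          rpow_le_rpow (by positivity) h4 h7
      _ = (2 * μ) ^ (6 * (80000 * (12 * K) * (20 * μ))) := by
          rw [← rpow_mul (by positivity)]
      _ ≤ (2 * μ) ^ (120000000 * K * μ) := by
          refine rpow_le_rpow_of_exponent_le (by linarith) ?_
          have h8 : 0 ≤ K * μ := by positivity
          nlinarith

theorem exp_quarter_le : exp (1 : ℝ) ≤ (27 / 16) ^ 2 := by
  have := exp_one_lt_d9
  have h : (2.84 : ℝ) ≤ (27 / 16) ^ 2 := by norm_num
  linarith

/-- **The numerical part**, random tests. -/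
theorem numericsRB (K : ℕ) (hK : 1 ≤ K) : ∃ c C : ℝ, 0 < c ∧ 0 < C ∧ ∀ n m r : ℕ,
    1 ≤ n → n ≤ m → 1 ≤ r →
    (∀ D l B : ℕ, 1 ≤ D → 1 ≤ l → 1 ≤ B → K * (D * (l * B + 2 ^ l)) ≤ n →
      ∀ L τ T0 : ℕ, 1 ≤ L → 8 * (D * m) ≤ n * L →
      (T0 : ℝ) + 1 / 8 * (2 * D * l * B) ≤ τ * B →
      ∀ q : ℝ, 0 < q → q < 1 → 2 ^ (2 * D * l) * q ^ T0 ≤ 1 / 2 →
      1 / 2 * 2 ^ (2 * D * l) ≤ 2 * (r *
        (∑ j ∈ Finset.range (L + 1), (m * (1 - q)) ^ j / (j.factorial : ℝ)) ^ 2) *
        ((L + 1) * ∑ j ∈ Finset.range τ, ((2 * D * l).choose j : ℝ))) →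
    exp (c * n / (2 * ((m : ℝ) / n)) ^ (C * ((m : ℝ) / n))) ≤ 2 * r := by
  refine ⟨1 / (64 * K), 120000000 * K, by positivity, by positivity, ?_⟩
  intro n m r hn hnm hr H
  have hK' : (1 : ℝ) ≤ K := by exact_mod_cast hK
  have hK0 : (0 : ℝ) < K := by linarith
  have hn' : (1 : ℝ) ≤ n := by exact_mod_cast hn
  have hn0 : (0 : ℝ) < n := by linarith
  have hnm' : (n : ℝ) ≤ m := by exact_mod_cast hnm
  have hm0 : (0 : ℝ) < m := by linarith
  have hr' : (1 : ℝ) ≤ r := by exact_mod_cast hr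
  have hr0 : (0 : ℝ) < r := by linarith
  set μ : ℝ := (m : ℝ) / n with hμ
  have hμ1 : 1 ≤ μ := by rw [hμ, le_div_iff₀ hn0]; linarith
  have hμ0 : 0 < μ := by linarith
  have hmμ : (m : ℝ) = μ * n := by rw [hμ]; field_simp
  obtain ⟨l, hl1, hl2, hl3⟩ := choose_l2 hK' hμ1
  have hl1' : (160 : ℝ) ≤ l := by exact_mod_cast hl1
  have hl0 : (0 : ℝ) < l := by linarith
  have h2l : (0 : ℝ) < 2 ^ l := by positivity
  have hexp : 1 / (64 * (K : ℝ)) * n / (2 * μ) ^ (120000000 * K * μ) ≤ n / (64 * K * 2 ^ l) := by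
    calc 1 / (64 * (K : ℝ)) * n / (2 * μ) ^ (120000000 * K * μ)
        ≤ 1 / (64 * (K : ℝ)) * n / 2 ^ l :=
          div_le_div_of_nonneg_left (by positivity) h2l hl3
      _ = n / (64 * K * 2 ^ l) := by field_simp
  refine (exp_le_exp.2 hexp).trans ?_
  by_cases hcase : 2 * K * 2 ^ l ≤ n
  · obtain ⟨D, hD⟩ : ∃ D, D = n / (2 * K * 2 ^ l) := ⟨_, rfl⟩
    have hpos : 0 < 2 * K * 2 ^ l := by positivity
    have hD1 : 1 ≤ D := by
      rw [hD, Nat.one_le_div_iff hpos]
      exact hcase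
    have hDn : D * (2 * K * 2 ^ l) ≤ n := by
      rw [hD]
      exact Nat.div_mul_le_self _ _
    have hnD : n ≤ 2 * (D * (2 * K * 2 ^ l)) := by
      have h1 : n < (D + 1) * (2 * K * 2 ^ l) := (Nat.div_lt_iff_lt_mul hpos).1 (by omega)
      have h2 : (D + 1) * (2 * K * 2 ^ l) ≤ 2 * D * (2 * K * 2 ^ l) :=
        Nat.mul_le_mul_right _ (by omega)
      calc n ≤ 2 * D * (2 * K * 2 ^ l) := h1.le.trans h2
        _ = _ := by ring
    have hnD' : (n : ℝ) ≤ 2 * (D * (2 * K * 2 ^ l)) := by exact_mod_cast hnD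
    have hD1' : (1 : ℝ) ≤ D := by exact_mod_cast hD1
    have hD0 : (0 : ℝ) < D := by linarith
    obtain ⟨B, hB⟩ : ∃ B, B = 2 ^ l / l := ⟨_, rfl⟩
    have hll : l ≤ 2 ^ l := Nat.lt_two_pow_self.le
    have hB1 : 1 ≤ B := by
      rw [hB, Nat.one_le_div_iff (by omega)]
      exact hll
    have hlB : l * B ≤ 2 ^ l := by
      rw [hB]
      exact Nat.mul_div_le _ _
    have hlB2 : 2 ^ l ≤ 2 * (B * l) := by
      have h1 : 2 ^ l < (B + 1) * l := (Nat.div_lt_iff_lt_mul (by omega)).1 (by omega)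
      have h2 : (B + 1) * l ≤ 2 * B * l := Nat.mul_le_mul_right _ (by omega)
      calc 2 ^ l ≤ 2 * B * l := h1.le.trans h2
        _ = _ := by ring
    have hlB2' : (2 : ℝ) ^ l ≤ 2 * (B * l) := by exact_mod_cast hlB2
    have hB1' : (1 : ℝ) ≤ B := by exact_mod_cast hB1
    have hB0 : (0 : ℝ) < B := by linarith
    have hsize : K * (D * (l * B + 2 ^ l)) ≤ n := by
      calc K * (D * (l * B + 2 ^ l)) ≤ K * (D * (2 ^ l + 2 ^ l)) := by
            refine Nat.mul_le_mul_left _ (Nat.mul_le_mul_left _ ?_)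
            omega
        _ = D * (2 * K * 2 ^ l) := by ring
        _ ≤ n := hDn
    obtain ⟨q, hq⟩ : ∃ q : ℝ, q = exp (-(24 / (B : ℝ))) := ⟨_, rfl⟩
    have hq0 : 0 < q := by rw [hq]; exact exp_pos _
    have hq1 : q < 1 := by
      rw [hq, exp_lt_one_iff]
      have : 0 < 24 / (B : ℝ) := by positivity
      linarith
    have h1q : 1 - q ≤ 24 / B := by
      have := add_one_le_exp (-(24 / (B : ℝ)))
      rw [hq]
      linarith
    have h1q0 : 0 ≤ 1 - q := by linarith
    -- the parameters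
    obtain ⟨L, hL⟩ : ∃ L, L = ⌈8 * D * μ⌉₊ := ⟨_, rfl⟩
    have hDμ : 1 ≤ D * μ := one_le_mul_of_one_le_of_one_le hD1' hμ1
    have hL1 : 8 * D * μ ≤ L := by rw [hL]; exact Nat.le_ceil _
    have hL2 : (L : ℝ) ≤ 9 * D * μ := by
      have : (L : ℝ) < 8 * D * μ + 1 := by rw [hL]; exact Nat.ceil_lt_add_one (by positivity)
      linarith
    have hL1n : 1 ≤ L := by
      have : (1 : ℝ) ≤ L := by linarith
      exact_mod_cast this
    have hLn : 8 * (D * m) ≤ n * L := by
      have h1 : (8 * (D * m) : ℝ) ≤ n * L := by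
        calc (8 * (D * m) : ℝ) = n * (8 * D * μ) := by rw [hmμ]; ring
          _ ≤ n * L := mul_le_mul_of_nonneg_left hL1 hn0.le
      exact_mod_cast h1
    obtain ⟨t, ht⟩ : ∃ t, t = D * l / 4 := ⟨_, rfl⟩
    obtain ⟨τ, hτ⟩ : ∃ τ, τ = (D * l + 1) / 2 := ⟨_, rfl⟩
    have hDl : 160 ≤ D * l := by nlinarith
    have ht1 : 4 * t ≤ D * l := by omega
    have ht2 : D * l ≤ 8 * t := by omega
    have hτ1 : D * l ≤ 2 * τ := by omega
    have hτ2 : ∀ j, j < τ → 4 * j ≤ 2 * D * l := by
      intro j hj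
      have : 2 * D * l = 2 * (D * l) := by ring
      omega
    have hT : ((t * B : ℕ) : ℝ) + 1 / 8 * (2 * D * l * B) ≤ τ * B := by
      have h1 : (4 * t : ℝ) ≤ D * l := by exact_mod_cast ht1
      have h2 : (D * l : ℝ) ≤ 2 * τ := by exact_mod_cast hτ1
      have h3 : (t : ℝ) + 1 / 8 * (2 * D * l) ≤ τ := by linarith
      have h4 := mul_le_mul_of_nonneg_right h3 hB0.le
      push_cast
      linarith
    have hqT : q ^ (t * B) = exp (-(24 * t)) := by
      rw [hq, ← exp_nat_mul]
      congr 1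
      push_cast
      field_simp
    have hT2 : 2 ^ (2 * D * l) * q ^ (t * B) ≤ 1 / 2 := by
      rw [hqT]
      have h1 : exp (-(24 * (t : ℝ))) ≤ exp (-(3 * (D * l : ℝ))) := by
        apply exp_le_exp.2
        have : (D * l : ℝ) ≤ 8 * t := by exact_mod_cast ht2
        linarith
      have h2 : (2 : ℝ) ^ (2 * D * l) ≤ exp (2 * (D * l : ℝ)) := by
        have h3 : (2 : ℝ) ≤ exp 1 := by
          have := exp_one_gt_d9
          linarith
        calc (2 : ℝ) ^ (2 * D * l) ≤ exp 1 ^ (2 * D * l) :=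
              pow_le_pow_left₀ (by norm_num) h3 _
          _ = exp (2 * (D * l : ℝ)) := by
              rw [← exp_nat_mul]
              congr 1
              push_cast
              ring
      calc 2 ^ (2 * D * l) * exp (-(24 * (t : ℝ)))
          ≤ exp (2 * (D * l : ℝ)) * exp (-(3 * (D * l : ℝ))) :=
            mul_le_mul h2 h1 (exp_pos _).le (exp_pos _).le
        _ = exp (-(D * l : ℝ)) := by
            rw [← exp_add]
            congr 1
            ring
        _ ≤ exp (-1) := by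
            apply exp_le_exp.2
            have : (160 : ℝ) ≤ D * l := by exact_mod_cast hDl
            linarith
        _ ≤ 1 / 2 := by
            have h3 : (2 : ℝ) ≤ exp 1 := by
              have := exp_one_gt_d9
              linarith
            rw [exp_neg, inv_eq_one_div]
            exact one_div_le_one_div_of_le (by norm_num) h3
    have hmain := H D l B hD1 (by omega) hB1 hsize L τ (t * B) hL1n hLn hT q hq0 hq1 hT2
    -- the binomial sum
    have hbin := binom_quarter (2 * D * l) τ hτ2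
    set bin : ℝ := ∑ j ∈ Finset.range τ, ((2 * D * l).choose j : ℝ) with hbindef
    have hbin0 : 0 ≤ bin := Finset.sum_nonneg fun j _ => by positivity
    have hbin2 : bin * exp (D * l / 4) ≤ 2 ^ (2 * D * l) := by
      have h1 : (bin * exp (D * l / 4)) ^ 4 ≤ (2 ^ (2 * D * l)) ^ 4 := by
        rw [mul_pow]
        have h2 : exp ((D : ℝ) * l / 4) ^ 4 ≤ (27 / 16) ^ (2 * D * l) := by
          calc exp ((D : ℝ) * l / 4) ^ 4 = exp 1 ^ (D * l) := by
                rw [← exp_nat_mul, ← exp_nat_mul]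
                congr 1
                push_cast
                ring
            _ ≤ ((27 / 16 : ℝ) ^ 2) ^ (D * l) :=
                pow_le_pow_left₀ (exp_pos _).le exp_quarter_le _
            _ = (27 / 16) ^ (2 * D * l) := by
                rw [← pow_mul]
                congr 1
                ring
        calc bin ^ 4 * exp ((D : ℝ) * l / 4) ^ 4
            ≤ (256 / 27) ^ (2 * D * l) * (27 / 16) ^ (2 * D * l) :=
              mul_le_mul hbin h2 (by positivity) (by positivity)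
          _ = (2 ^ 4) ^ (2 * D * l) := by
              rw [← mul_pow]
              norm_num
          _ = ((2 : ℝ) ^ (2 * D * l)) ^ 4 := by
              rw [← pow_mul, ← pow_mul, mul_comm 4]
      exact le_of_pow_le_pow_left₀ (by norm_num) (by positivity) h1
    -- the exponential sum
    have hKl : (1 : ℝ) ≤ 192 * K * l := by nlinarith
    have hKl0 : (0 : ℝ) < 192 * K * l := by linarith
    set z : ℝ := 1 / (192 * K * l) with hz
    have hz0 : 0 < z := by positivity
    have hz1 : z ≤ 1 := by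
      rw [hz, div_le_one hKl0]
      exact hKl
    have hzx : z * (m * (1 - q)) ≤ D * μ := by
      have h1 : (m : ℝ) * (1 - q) ≤ 192 * K * l * (D * μ) := by
        have h2 : (24 : ℝ) / B ≤ 48 * l / 2 ^ l := by
          rw [div_le_div_iff₀ hB0 h2l]
          calc (24 : ℝ) * 2 ^ l ≤ 24 * (2 * (B * l)) :=
                mul_le_mul_of_nonneg_left hlB2' (by norm_num)
            _ = 48 * l * B := by ring
        have h3 : (1 : ℝ) / 2 ^ l ≤ 4 * K * D / n := by
          rw [div_le_div_iff₀ h2l hn0]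
          linarith
        calc (m : ℝ) * (1 - q) ≤ m * (48 * l / 2 ^ l) :=
              mul_le_mul_of_nonneg_left (h1q.trans h2) hm0.le
          _ = 48 * m * l * (1 / 2 ^ l) := by ring
          _ ≤ 48 * m * l * (4 * K * D / n) := mul_le_mul_of_nonneg_left h3 (by positivity)
          _ = 192 * K * l * (D * μ) := by
              rw [hμ]
              ring
      calc z * (m * (1 - q)) ≤ z * (192 * K * l * (D * μ)) := mul_le_mul_of_nonneg_left h1 hz0.le
        _ = D * μ := by
            rw [hz]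
            field_simp
    have hS := sum_le (x := m * (1 - q)) (by positivity) hz0 hz1 L
    have h1z : 1 / z = 192 * K * l := by
      rw [hz]
      field_simp
    rw [h1z] at hS
    set lg : ℝ := log (192 * K * l) with hlg
    have hlg0 : 0 ≤ lg := log_nonneg hKl
    have hS2 : ∑ j ∈ Finset.range (L + 1), (m * (1 - q)) ^ j / (j.factorial : ℝ) ≤
        exp (9 * D * μ * lg + D * μ) := by
      refine hS.trans ?_
      rw [exp_add]
      refine mul_le_mul ?_ (exp_le_exp.2 hzx) (exp_pos _).le (exp_pos _).le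
      calc (192 * K * l : ℝ) ^ L = exp (L * lg) := by
            rw [mul_comm (L : ℝ), exp_mul, hlg, exp_log hKl0, rpow_natCast]
        _ ≤ exp (9 * D * μ * lg) := exp_le_exp.2 (mul_le_mul_of_nonneg_right hL2 hlg0)
    have hS0 : 0 ≤ ∑ j ∈ Finset.range (L + 1), (m * (1 - q)) ^ j / (j.factorial : ℝ) :=
      Finset.sum_nonneg fun j _ => by positivity
    have hfac : ((L : ℝ) + 1) ≤ exp (9 * D * μ) := by
      have := add_one_le_exp (9 * D * μ)
      linarith
    have hall : exp (D * l / 4) ≤ 4 * r * exp (20 * D * μ * (1 + lg)) := by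
      have h2D : (0 : ℝ) < 2 ^ (2 * D * l) := by positivity
      have h1 : 2 ^ (2 * D * l) * exp (D * l / 4) ≤
          2 ^ (2 * D * l) * (4 * r * exp (20 * D * μ * (1 + lg))) := by
        calc 2 ^ (2 * D * l) * exp ((D : ℝ) * l / 4)
            = 2 * (1 / 2 * 2 ^ (2 * D * l)) * exp (D * l / 4) := by ring
          _ ≤ 2 * (2 * (r * exp (9 * D * μ * lg + D * μ) ^ 2) *
              (exp (9 * D * μ) * bin)) * exp (D * l / 4) := by
              refine mul_le_mul_of_nonneg_right ?_ (exp_pos _).le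
              refine mul_le_mul_of_nonneg_left (hmain.trans ?_) (by norm_num)
              refine mul_le_mul ?_ ?_ (by positivity) (by positivity)
              · refine mul_le_mul_of_nonneg_left ?_ (by norm_num)
                refine mul_le_mul_of_nonneg_left ?_ hr0.le
                exact pow_le_pow_left₀ hS0 hS2 2
              · exact mul_le_mul_of_nonneg_right hfac hbin0
          _ = 4 * r * (exp (9 * D * μ * lg + D * μ) ^ 2 * exp (9 * D * μ)) *
              (bin * exp (D * l / 4)) := by ring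
          _ ≤ 4 * r * (exp (9 * D * μ * lg + D * μ) ^ 2 * exp (9 * D * μ)) *
              2 ^ (2 * D * l) := by
              refine mul_le_mul_of_nonneg_left hbin2 ?_
              positivity
          _ ≤ 4 * r * exp (20 * D * μ * (1 + lg)) * 2 ^ (2 * D * l) := by
              refine mul_le_mul_of_nonneg_right ?_ h2D.le
              refine mul_le_mul_of_nonneg_left ?_ (by positivity)
              rw [← exp_nat_mul, ← exp_add]
              apply exp_le_exp.2
              have h5 : 0 ≤ D * μ * lg := by positivity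
              have h6 : 0 ≤ D * μ := by positivity
              push_cast
              nlinarith
          _ = _ := by ring
      exact le_of_mul_le_mul_left h1 h2D
    have hhalf : 20 * D * μ * (1 + lg) ≤ D * l / 8 := by
      calc 20 * D * μ * (1 + lg) = D * (160 * μ * (1 + lg)) / 8 := by ring
        _ ≤ D * l / 8 := by
            refine div_le_div_of_nonneg_right ?_ (by norm_num)
            exact mul_le_mul_of_nonneg_left hl2 hD0.le
    have hfin : exp ((D : ℝ) * l / 8) ≤ 4 * r := by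
      have h1 : exp ((D : ℝ) * l / 8) * exp ((D : ℝ) * l / 8) ≤
          (4 * r) * exp ((D : ℝ) * l / 8) := by
        calc exp ((D : ℝ) * l / 8) * exp ((D : ℝ) * l / 8) = exp (D * l / 4) := by
              rw [← exp_add]
              congr 1
              ring
          _ ≤ _ := hall
          _ ≤ (4 * r) * exp ((D : ℝ) * l / 8) :=
              mul_le_mul_of_nonneg_left (exp_le_exp.2 hhalf) (by positivity)
      exact le_of_mul_le_mul_right h1 (exp_pos _)
    have hfin2 : exp ((D : ℝ) * l / 16) ≤ 2 * r := by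
      have h1 : exp ((D : ℝ) * l / 16) ^ 2 ≤ (2 * r) ^ 2 := by
        calc exp ((D : ℝ) * l / 16) ^ 2 = exp (D * l / 8) := by
              rw [← exp_nat_mul]
              congr 1
              push_cast
              ring
          _ ≤ 4 * r := hfin
          _ ≤ (2 * r) ^ 2 := by nlinarith
      exact le_of_pow_le_pow_left₀ (by norm_num) (by positivity) h1
    refine (exp_le_exp.2 ?_).trans hfin2
    rw [div_le_iff₀ (by positivity)]
    have h1 : 0 ≤ (D : ℝ) * K * 2 ^ l := by positivity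
    calc (n : ℝ) ≤ 2 * (D * (2 * K * 2 ^ l)) := hnD'
      _ = 4 * (D * K * 2 ^ l) := by ring
      _ ≤ 4 * (D * K * 2 ^ l) * l := by nlinarith
      _ = D * l / 16 * (64 * K * 2 ^ l) := by ring
  · push Not at hcase
    have hcase' : (n : ℝ) < 2 * K * 2 ^ l := by exact_mod_cast hcase
    have h1 : (n : ℝ) / (64 * K * 2 ^ l) ≤ 1 / 8 := by
      rw [div_le_div_iff₀ (by positivity) (by norm_num)]
      have : 0 < (K : ℝ) * 2 ^ l := by positivity
      linarith
    have h2 : exp (1 / 8) ≤ 2 := by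
      have h3 : exp (1 / 8) ≤ exp (1 / 2) := by
        apply exp_le_exp.2
        norm_num
      have h4 := exp_half_le
      have h5 : 0 < exp (-2) := exp_pos _
      linarith
    calc exp ((n : ℝ) / (64 * K * 2 ^ l)) ≤ exp (1 / 8) := exp_le_exp.2 h1
      _ ≤ 2 := h2
      _ ≤ 2 * r := by linarith

end Pool.GT
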