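import Pool.Agent.Helper10.GT.Machine2
import Pool.Agent.Helper76.CPF.Pf
import Pool.Agent.Helper69.SDD.PfMl

/-!
Determinant sums for arbitrary tests (MP_b6562f_lc): Pfaffians with cofactors.
-/

set_option autoImplicit false

namespace Pool.GT

open Finset hiding sup
open MvPolynomial Pool.SDL Pool.Agent.SDet Pool.Agent.Helper76 Pool.Agent.Helper76.CDET
open scoped ENNReal BigOperators

section tower
variable {K : Type} [Field K] {Xt Yt C E : Type} {ι : ℕ → Type}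

/-- the dimension bound for sums of members of a tower, coefficients of any monomials of the same
degree in the derivative variables -/
theorem tower_boundG [Fintype Xt] [Finite C] [Fintype E] [∀ k, Fintype (ι k)]
    (p : ∀ k, ι k → MvPolynomial E K) (hp : Pool.SDD.Tower p)
    (hml : ∀ k i e, (p k i).degreeOf e ≤ 1)
    {T k D dl nu : ℕ} (hdl : 1 ≤ dl) (Fb : ι k → Finset E) (hr : Pool.SDD.Reduces (p k) Fb)
    (Φ : MvPolynomial (Xt ⊕ Yt) K) (f : Fin T → MvPolynomial (Xt ⊕ Yt) K) (hΦ : Φ = ∑ t, f t)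
    (A : Fin T → E → MvPolynomial (Xt ⊕ Yt) K) (hA : ∀ t e, (A t e).totalDegree ≤ dl)
    (hf : ∀ t, f t ∈ Pool.SDD.Wl (fun j => aeval (A t) (p (k + D) j)) nu)
    (yk : C → Yt →₀ ℕ) (hyk : ∀ c, (yk c).degree = D) (Q : ℝ≥0∞) (hQ : Q < 1) :
    Q ^ (nu + D * (dl - 1)) * ((1 - Q) ^ (Fintype.card Xt + 1) *
      ∑' l : ℕ, Q ^ l * (Module.finrank K (Pool.SDD.Wl
        (fun c => coeff (yk c) (Th K Xt Yt Φ)) l) : ℝ≥0∞)) ≤
      T * ∑ j : ι k, (1 - Q ^ dl) ^ (Fb j).card := by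
  classical
  set l0 := nu + D * (dl - 1) with hl0
  set g : Fin T → ι k → MvPolynomial Xt K :=
    fun t j => aeval (fun e => eps0 K Xt Yt (A t e)) (p k j) with hg
  have hmem : ∀ c, coeff (yk c) (Th K Xt Yt Φ) ∈ ⨆ t, Pool.SDD.Wl (g t) l0 := by
    intro c
    have h1 : ∀ t, ∃ G : MvPolynomial Xt K, G ∈ Pool.SDD.Wl (g t) l0 ∧
        ∀ u, coeff u G = coeff (Finsupp.mapDomain Sum.inl u +
          Finsupp.mapDomain Sum.inr (yk c)) (f t) := by
      intro t
      have hft := hf t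
      rw [← hyk c] at hft
      obtain ⟨G, hG1, hG2⟩ := Pool.SDD.R2k p hp dl hml hdl k nu (A t) (hA t) (yk c) (f t) hft
      refine ⟨G, ?_, ?_⟩
      · have h6 : ∀ e, aeval (Sum.elim X 0 : Xt ⊕ Yt → MvPolynomial Xt K) (A t e) =
            eps0 K Xt Yt (A t e) := fun e => rfl
        rw [hyk c] at hG1
        exact hG1
      · intro u
        rw [hG2 u, Finsupp.embDomain_eq_mapDomain, Finsupp.embDomain_eq_mapDomain]
        rfl
    choose G hG1 hG2 using h1
    have h2 : coeff (yk c) (Th K Xt Yt Φ) = ∑ t, G t := by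
      ext u
      rw [coeff_Th, hΦ, coeff_sum, coeff_sum]
      exact Finset.sum_congr rfl fun t _ => (hG2 t u).symm
    rw [h2]
    exact Submodule.sum_mem _ fun t _ => Submodule.mem_iSup_of_mem t (hG1 t)
  have hle : ∀ l, Pool.SDD.Wl (fun c => coeff (yk c) (Th K Xt Yt Φ)) l ≤
      ⨆ t, Pool.SDD.Wl (g t) (l + l0) := by
    intro l
    conv_lhs => unfold Pool.SDD.Wl
    rw [Submodule.span_le]
    rintro _ ⟨μ, c, hμ, rfl⟩
    have h3 : (LinearMap.mulLeft K (monomial μ (1:K))) (coeff (yk c) (Th K Xt Yt Φ)) ∈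
        Submodule.map (LinearMap.mulLeft K (monomial μ (1:K))) (⨆ t, Pool.SDD.Wl (g t) l0) :=
      Submodule.mem_map_of_mem (hmem c)
    rw [Submodule.map_iSup] at h3
    have h4 : (⨆ t, Submodule.map (LinearMap.mulLeft K (monomial μ (1:K)))
        (Pool.SDD.Wl (g t) l0)) ≤ ⨆ t, Pool.SDD.Wl (g t) (l + l0) := by
      apply iSup_mono
      intro t
      rw [Submodule.map_le_iff_le_comap]
      intro x hx
      exact Pool.SDD.monomial_mul_mem_Wl hμ hx
    exact h4 h3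
  have hrank : ∀ l, Module.finrank K (Pool.SDD.Wl (fun c => coeff (yk c) (Th K Xt Yt Φ)) l) ≤
      ∑ t, Module.finrank K (Pool.SDD.Wl (g t) (l + l0)) := fun l =>
    (Submodule.finrank_mono (hle l)).trans (Pool.SDD.finrank_iSup_le _)
  have hU : ∀ t, (1 - Q) ^ (Fintype.card Xt + 1) *
      ∑' l, Q ^ l * (Module.finrank K (Pool.SDD.Wl (g t) l) : ℝ≥0∞) ≤
      ∑ j : ι k, (1 - Q ^ dl) ^ (Fb j).card := fun t =>
    Pool.SDD.Udelta (p k) Fb hr dl hdl _
      (fun e => (eps0_totalDegree _).trans (hA t e)) Q hQ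
  calc Q ^ l0 * ((1 - Q) ^ (Fintype.card Xt + 1) *
      ∑' l : ℕ, Q ^ l * (Module.finrank K
        (Pool.SDD.Wl (fun c => coeff (yk c) (Th K Xt Yt Φ)) l) : ℝ≥0∞))
      ≤ Q ^ l0 * ((1 - Q) ^ (Fintype.card Xt + 1) *
        ∑' l : ℕ, Q ^ l * ((∑ t, Module.finrank K (Pool.SDD.Wl (g t) (l + l0)) : ℕ) : ℝ≥0∞)) := by
        gcongr with l
        exact hrank l
    _ = ∑ t, (1 - Q) ^ (Fintype.card Xt + 1) * (Q ^ l0 *
        ∑' l : ℕ, Q ^ l * (Module.finrank K (Pool.SDD.Wl (g t) (l + l0)) : ℝ≥0∞)) := by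
        rw [← Finset.mul_sum, ← Finset.mul_sum, mul_left_comm]
        congr 2
        rw [← Summable.tsum_finsetSum (fun t _ => ENNReal.summable)]
        refine tsum_congr fun l => ?_
        rw [Nat.cast_sum, Finset.mul_sum]
    _ ≤ ∑ t, (1 - Q) ^ (Fintype.card Xt + 1) *
        ∑' l : ℕ, Q ^ l * (Module.finrank K (Pool.SDD.Wl (g t) l) : ℝ≥0∞) := by
        gcongr with t
        exact Pool.SDD.series_shift (fun l => Module.finrank K (Pool.SDD.Wl (g t) l)) l0 Q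
    _ ≤ ∑ _t : Fin T, ∑ j : ι k, (1 - Q ^ dl) ^ (Fb j).card :=
        Finset.sum_le_sum fun t _ => hU t
    _ = T * ∑ j : ι k, (1 - Q ^ dl) ^ (Fb j).card := by
        rw [Finset.sum_const, Finset.card_univ, Fintype.card_fin, nsmul_eq_mul]

end tower

section
variable {F : Type} [Field F] {V Ya : Type}

/-- the shifted spaces of all families of coefficients of degree `D` are small -/
def SmallG [DecidableEq V] (f : MvPolynomial (V ⊕ Ya) F) (D l0 : ℕ) (Q R : ℝ≥0∞) : Prop :=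
  ∀ (Xt Yt C : Type) [Fintype Xt] [Finite C] (κ : V → Option (Option (Xt ⊕ Yt)))
    (yk : C → Yt →₀ ℕ), (∀ c, (yk c).degree = D) →
    Q ^ l0 * ((1 - Q) ^ (Fintype.card Xt + 1) * ∑' l : ℕ, Q ^ l *
      (Module.finrank (Lf F (V ⊕ Ya)) (Pool.SDD.Wl (K := Lf F (V ⊕ Ya))
        (fun c => coeff (yk c) (Th _ _ _ (Psi F (CDET.ext Ya κ) f))) l) : ℝ≥0∞)) ≤ R

theorem smallG_pf [DecidableEq V] [Fintype V] {r m δ ν D : ℕ} (hD : D < m) (hδ : 1 ≤ δ)
    (f : MvPolynomial (V ⊕ Ya) F) (hf : IsPfSum r m δ ν f) (Q : ℝ≥0∞) (hQ : Q < 1) :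
    SmallG f D (ν + D * (δ - 1)) Q (r * ∑ j ∈ Finset.range (2 * D + 1),
      (Nat.choose (2 * (m - D) - 1 + j) j : ℝ≥0∞) * (1 - Q ^ δ) ^ j) := by
  classical
  obtain ⟨s, P, A, hs, hP, hA, hfA⟩ := hf
  intro Xt Yt C _ _ κ yk hyk
  obtain ⟨k, hk⟩ : ∃ k, k = m - D := ⟨_, rfl⟩
  have hkD : k + D = m := by omega
  have hPd : ∀ i, (Psi F (CDET.ext Ya κ) (P i)).totalDegree ≤ ν := fun i =>
    totalDegree_Psi_le _ _ _ fun μ hμ => (degree_push_le κ μ).trans (hP i μ hμ)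
  have hAd : ∀ i p q, (((A i).map (Psi F (CDET.ext Ya κ))) p q).totalDegree ≤ δ := fun i p q =>
    totalDegree_Psi_le _ _ _ fun μ hμ => (degree_push_le κ μ).trans (hA i p q μ hμ)
  choose B hB1 hB2 using fun i => Pool.PF.exists_aeval (hs i) δ _ (hAd i)
  have h := tower_boundG (K := Lf F (V ⊕ Ya)) (Pool.PF.pfam (Lf F (V ⊕ Ya)) (2 * m))
    Pool.PF.pfam_tower (fun k i e => Pool.PF.pfam_degreeOf k i e) (k := k) (D := D) (nu := ν) hδ
    Pool.PF.forb (Pool.PF.pfam_reduces k)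
    (Psi F (CDET.ext Ya κ) f)
    (fun i => Psi F (CDET.ext Ya κ) (P i) * Pool.PF.pf (s i) ((A i).map (Psi F (CDET.ext Ya κ))))
    (by
      rw [hfA, map_sum]
      refine Finset.sum_congr rfl fun i _ => ?_
      rw [map_mul, Pool.PF.map_pf])
    B hB1
    (by
      intro i
      have h0 : aeval (B i) (Pool.PF.pfam (Lf F (V ⊕ Ya)) (2 * m) m (RelEmbedding.refl _)) ∈
          Pool.SDD.Wl (fun j => aeval (B i) (Pool.PF.pfam (Lf F (V ⊕ Ya)) (2 * m) m j)) 0 :=
        Submodule.subset_span ⟨0, RelEmbedding.refl _, by simp, by simp⟩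
      have h1 := Pool.SDD.mul_mem_Wl (hPd i) h0
      rw [Nat.add_zero] at h1
      rw [hkD, hB2 i]
      exact h1)
    yk hyk Q hQ
  refine h.trans ?_
  gcongr
  refine (Pool.PF.sum_pow_card_forb_le (by omega) _).trans (le_of_eq ?_)
  rw [hk, show 2 * m - 2 * (m - D) + 1 = 2 * D + 1 by omega]

end

section
variable {F : Type} [Field F] {V Ya Xt Yt C : Type} [DecidableEq V]

/-- THE MACHINE for arbitrary tests with small shifted spaces, two sets. -/
theorem machineG3 [Fintype V] [Fintype Xt] [DecidableEq Xt] [Fintype Yt] [Fintype C]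
    (f : MvPolynomial (V ⊕ Ya) F) (X : Xt → V) (Y : Yt → V) (Z : Finset V)
    (hinj : Function.Injective (Sum.elim X Y)) (hX : ∀ x, X x ∉ Z) (hY : ∀ y, Y y ∉ Z)
    (M' M : C → Finset Xt) (μ : C → (V ⊕ Ya) →₀ ℕ) (hμ : ∀ c, μ c ∈ f.support)
    (hsub : ∀ c, ∀ e ∈ CDET.sup (μ c), e ∈ Z ∨ (∃ x ∈ M c, e = X x) ∨ ∃ y, e = Y y)
    (h1 : ∀ c (S : Finset V), restr S f ≠ 0 →
      (∀ e ∈ S, e ∈ Z ∨ (∃ x, e = X x) ∨ ∃ y, e = Y y ∧ μ c (Sum.inl (Y y)) ≠ 0) →
      ∀ x ∈ M' c, X x ∈ S)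
    (D : ℕ) (hD : ∀ c, ∑ y, μ c (Sum.inl (Y y)) = D)
    {l0 : ℕ} {Q R : ℝ≥0∞} (hQ : Q < 1) (hR : SmallG f D l0 Q R)
    [∀ c, DecidablePred fun u : Xt → ℕ => Good2 M' M c u] :
    Q ^ l0 * ((1 - Q) ^ Fintype.card Xt *
      ∑ c, ∑' u : Xt → ℕ, (if Good2 M' M c u then Q ^ (∑ x, u x) else 0)) ≤ R := by
  classical
  set κ' := CDET.ext Ya (kap X Y Z) with hκ'
  set yk : C → Yt →₀ ℕ := fun c => Finsupp.equivFunOnFinite.symm fun y => μ c (Sum.inl (Y y))
    with hyk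
  have hykD : ∀ c, (yk c).degree = D := by
    intro c
    rw [Finsupp.degree_eq_sum]
    exact hD c
  set G : C → MvPolynomial Xt (Lf F (V ⊕ Ya)) := fun c => coeff (yk c) (Th _ _ _ (Psi F κ' f))
    with hG
  have hcoeff : ∀ c T, coeff T (G c) = coeff (Finsupp.mapDomain Sum.inl T +
      Finsupp.mapDomain Sum.inr (yk c)) (Psi F κ' f) := fun c T => coeff_Th (yk c) T _
  have hlow : ∀ c T, coeff T (G c) ≠ 0 → M' c ⊆ T.support := by
    intro c T hT
    rw [hcoeff] at hT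
    obtain ⟨ν, hν, hνd, hνp⟩ := exists_of_coeff_Psi_ne_zero κ' f _ hT
    have hS := prop_sup f (fun S => restr S f ≠ 0) (fun S => Iff.rfl) ν hν
    have hx : ∀ x, ν (Sum.inl (X x)) = T x := by
      intro x
      rw [← push_X X Y Z hinj ν x, ← hκ', hνp, Finsupp.add_apply,
        Finsupp.mapDomain_apply Sum.inl_injective, Finsupp.mapDomain_of_notMem_range _ _ (by simp),
        add_zero]
    have hy : ∀ y, ν (Sum.inl (Y y)) = μ c (Sum.inl (Y y)) := by
      intro y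
      rw [← push_Y X Y Z hinj ν y, ← hκ', hνp, Finsupp.add_apply,
        Finsupp.mapDomain_apply Sum.inr_injective, Finsupp.mapDomain_of_notMem_range _ _ (by simp),
        zero_add]
      rfl
    have h4 := h1 c (CDET.sup ν) hS (by
      intro e he
      rcases (dead_iff X Y Z hinj ν).1 hνd e he with ⟨x, rfl⟩ | ⟨y, rfl⟩ | hz
      · exact Or.inr (Or.inl ⟨x, rfl⟩)
      · refine Or.inr (Or.inr ⟨y, rfl, ?_⟩)
        rw [← hy]
        exact (Finset.mem_filter.1 he).2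
      · exact Or.inl hz)
    intro x hxM
    have h5 := h4 x hxM
    rw [CDET.sup, Finset.mem_filter, hx] at h5
    exact Finsupp.mem_support_iff.2 h5.2
  have hself : ∀ c, ∃ T : Xt →₀ ℕ, coeff T (G c) ≠ 0 ∧ T.support ⊆ M c := by
    intro c
    refine ⟨Finsupp.equivFunOnFinite.symm fun x => μ c (Sum.inl (X x)), ?_, ?_⟩
    · rw [hcoeff]
      have hdμ : ∀ v, κ' v = none → μ c v = 0 := by
        rw [hκ', dead_iff X Y Z hinj]
        intro e he
        rcases hsub c e he with h | ⟨x, _, h⟩ | ⟨y, h⟩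
        · exact Or.inr (Or.inr h)
        · exact Or.inl ⟨x, h.symm⟩
        · exact Or.inr (Or.inl ⟨y, h.symm⟩)
      have hpush : push κ' (μ c) = Finsupp.mapDomain Sum.inl
          (Finsupp.equivFunOnFinite.symm fun x => μ c (Sum.inl (X x))) +
          Finsupp.mapDomain Sum.inr (yk c) := by
        ext v
        rcases v with x | y
        · rw [hκ', push_X X Y Z hinj, Finsupp.add_apply,
            Finsupp.mapDomain_apply Sum.inl_injective,
            Finsupp.mapDomain_of_notMem_range _ _ (by simp), add_zero]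
          rfl
        · rw [hκ', push_Y X Y Z hinj, Finsupp.add_apply,
            Finsupp.mapDomain_apply Sum.inr_injective,
            Finsupp.mapDomain_of_notMem_range _ _ (by simp), zero_add]
          rfl
      rw [← hpush]
      refine coeff_Psi_ne_zero κ' f (μ c) (hμ c) hdμ ?_
      intro ν _ hνd hνp hνr
      exact eq_of_push X Y Z hinj hX hY ν (μ c) hνd hdμ hνp hνr
    · intro x hx
      rw [Finsupp.mem_support_iff] at hx
      have hx' : μ c (Sum.inl (X x)) ≠ 0 := hx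
      rcases hsub c (X x) (by rw [CDET.sup, Finset.mem_filter]; exact ⟨Finset.mem_univ _, hx'⟩)
        with h | ⟨x', hx', h⟩ | ⟨y, h⟩
      · exact absurd h (hX x)
      · have h2 : (Sum.inl x : Xt ⊕ Yt) = Sum.inl x' := hinj h
        rw [Sum.inl.injEq] at h2
        rw [h2]
        exact hx'
      · have h2 : (Sum.inl x : Xt ⊕ Yt) = Sum.inr y := hinj h
        simp at h2
  have h4 := low_series2 Empty G M' M hlow hself Q hQ
  have h5 := hR Xt Yt C (kap X Y Z) yk hykD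
  calc Q ^ l0 * ((1 - Q) ^ Fintype.card Xt *
      ∑ c, ∑' u : Xt → ℕ, (if Good2 M' M c u then Q ^ (∑ x, u x) else 0))
      ≤ Q ^ l0 * ((1 - Q) ^ (Fintype.card Xt + 1) * ∑' l : ℕ, Q ^ l *
      (Module.finrank (Lf F (V ⊕ Ya)) (Pool.SDD.Wl (K := Lf F (V ⊕ Ya)) G l) : ℝ≥0∞)) := by
        refine mul_le_mul' le_rfl (h4.trans ?_)
        rw [Fintype.card_eq_zero (α := Empty), Nat.add_zero]
        refine mul_le_mul' le_rfl (ENNReal.tsum_le_tsum fun l => ?_)
        exact mul_le_mul' le_rfl (Nat.cast_le.2 (finrank_empty _ l))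
    _ ≤ R := h5

end

end Pool.GT
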