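import Pool.Agent.Helper10.GT.FinalBits
import Pool.Agent.Helper76.RT.Core

/-!
Random tests (MP_b6562f_lc): two-sided error, arbitrary polynomials, words of bits.
-/

set_option autoImplicit false

namespace Pool.GT

open Finset hiding sup
open MvPolynomial Pool.SDL Pool.Agent.SDet Pool.Agent.Helper76 Pool.Agent.Helper76.CDET
open Pool.RT (Pr Pr_eq)
open scoped ENNReal BigOperators

section avg
variable {V Ya : Type} [DecidableEq V] [Fintype V]

/-- averaging over a group for one set -/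
theorem avg_one {Γ : Type} [Group Γ] [Fintype Γ] [MulAction Γ V]
    (ν : Finset V → (V ⊕ Ya) →₀ ℕ) {m : ℕ} (hdeg : ∀ A, ∑ e, ν A (Sum.inl e) ≤ m)
    (S T : Finset V) (hT : T ⊆ S) {N D : ℕ} (hN : S.card = N) (hD : T.card = D)
    (htr : ∀ e ∈ S, ∀ e' ∈ S, ∃ h : Γ, (S.image fun x => h • x) = S ∧ h • e = e') :
    N * ∑ g : Γ, ∑ e ∈ T, ν (S.image fun e => g • e) (Sum.inl (g • e)) ≤
      Fintype.card Γ * (D * m) := by
  classical
  have himg : ∀ (g h : Γ) (A : Finset V), ((A.image fun e => h • e).image fun e => g • e) =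
      A.image fun e => (g * h) • e := by
    intro g h A
    rw [Finset.image_image]
    refine Finset.image_congr fun e _ => ?_
    simp [mul_smul]
  set a : Γ → V → ℕ := fun g e => ν (S.image fun e => g • e) (Sum.inl (g • e)) with ha
  have hsym : ∀ e ∈ S, ∀ e' ∈ S, ∑ g, a g e' = ∑ g, a g e := by
    intro e he e' he'
    obtain ⟨h, hh, hhe⟩ := htr e he e' he'
    rw [← Equiv.sum_comp (Equiv.mulRight h) fun g => a g e]
    refine Finset.sum_congr rfl fun g _ => ?_
    rw [ha]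
    simp only [Equiv.coe_mulRight]
    rw [mul_smul, hhe, ← himg, hh]
  have hdegg : ∀ g : Γ, ∑ e ∈ S, a g e ≤ m := by
    intro g
    refine le_trans ?_ (hdeg (S.image fun e => g • e))
    rw [ha]
    simp only
    rw [← Finset.sum_image (f := fun x => ν (S.image fun e => g • e) (Sum.inl x))
      (g := fun e => g • e) (fun x _ y _ hxy => by simpa using hxy)]
    exact Finset.sum_le_sum_of_subset (Finset.subset_univ _)
  change N * ∑ g, ∑ e ∈ T, a g e ≤ Fintype.card Γ * (D * m)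
  rcases S.eq_empty_or_nonempty with h0 | ⟨e0, he0⟩
  · have : T = ∅ := by
      rw [h0] at hT
      exact Finset.subset_empty.1 hT
    rw [this]
    simp
  · have h1 : ∀ e ∈ S, ∑ g, a g e = ∑ g, a g e0 := fun e he => hsym e0 he0 e he
    have h2 : N * ∑ g, a g e0 ≤ Fintype.card Γ * m := by
      calc N * ∑ g, a g e0 = ∑ e ∈ S, ∑ g, a g e := by
            rw [Finset.sum_congr rfl h1, Finset.sum_const, hN, smul_eq_mul]
        _ = ∑ g, ∑ e ∈ S, a g e := Finset.sum_comm
        _ ≤ ∑ _g : Γ, m := Finset.sum_le_sum fun g _ => hdegg g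
        _ = Fintype.card Γ * m := by rw [Finset.sum_const, Finset.card_univ, smul_eq_mul]
    calc N * ∑ g, ∑ e ∈ T, a g e = N * ∑ e ∈ T, ∑ g, a g e := by
          rw [Finset.sum_comm]
      _ = D * (N * ∑ g, a g e0) := by
          rw [Finset.sum_congr rfl fun e he => h1 e (hT he), Finset.sum_const, hD, smul_eq_mul]
          ring
      _ ≤ D * (Fintype.card Γ * m) := Nat.mul_le_mul_left _ h2
      _ = Fintype.card Γ * (D * m) := by ring

end avg

section balls

/-- number of different bits -/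
def hamd {D l : ℕ} (c c' : Fin D × Bool → Fin l → Bool) : ℕ :=
  (Finset.univ.filter fun p : (Fin D × Bool) × Fin l => c p.1 p.2 ≠ c' p.1 p.2).card

theorem hamd_self {D l : ℕ} (c : Fin D × Bool → Fin l → Bool) : hamd c c = 0 := by
  rw [hamd, Finset.card_eq_zero, Finset.filter_eq_empty_iff]
  intro p _ h
  exact h rfl

theorem hamd_comm {D l : ℕ} (c c' : Fin D × Bool → Fin l → Bool) : hamd c c' = hamd c' c := by
  rw [hamd, hamd]
  congr 1
  exact Finset.filter_congr fun p _ => ne_comm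

theorem card_pos {D l : ℕ} : Fintype.card ((Fin D × Bool) × Fin l) = 2 * D * l := by
  simp only [Fintype.card_prod, Fintype.card_fin, Fintype.card_bool]
  ring

/-- balls -/
theorem ball_le {D l τ : ℕ} (c : Fin D × Bool → Fin l → Bool)
    (A : Finset (Fin D × Bool → Fin l → Bool)) (hA : ∀ c' ∈ A, hamd c c' < τ) :
    A.card ≤ ∑ j ∈ Finset.range τ, (2 * D * l).choose j := by
  classical
  set φ : (Fin D × Bool → Fin l → Bool) → Finset ((Fin D × Bool) × Fin l) :=
    fun c' => Finset.univ.filter fun p => c p.1 p.2 ≠ c' p.1 p.2 with hφ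
  have hinj : Function.Injective φ := by
    intro c1 c2 h
    funext x i
    have h1 : (x, i) ∈ φ c1 ↔ (x, i) ∈ φ c2 := by rw [h]
    rw [hφ] at h1
    simp only [Finset.mem_filter, Finset.mem_univ, true_and] at h1
    cases h2 : c x i <;> cases h3 : c1 x i <;> cases h4 : c2 x i <;> simp_all
  have hsub : A.image φ ⊆ (Finset.range τ).biUnion fun j => Finset.powersetCard j Finset.univ := by
    intro B hB
    obtain ⟨c', hc', rfl⟩ := Finset.mem_image.1 hB
    rw [Finset.mem_biUnion]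
    exact ⟨_, Finset.mem_range.2 (hA c' hc'), Finset.mem_powersetCard.2 ⟨Finset.subset_univ _, rfl⟩⟩
  calc A.card = (A.image φ).card := (Finset.card_image_of_injective _ hinj).symm
    _ ≤ _ := Finset.card_le_card hsub
    _ ≤ ∑ j ∈ Finset.range τ, (Finset.powersetCard j
        (Finset.univ : Finset ((Fin D × Bool) × Fin l))).card := Finset.card_biUnion_le
    _ = _ := by
        refine Finset.sum_congr rfl fun j _ => ?_
        rw [Finset.card_powersetCard, Finset.card_univ, card_pos]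

theorem card_Mw {D l : ℕ} (B : ℕ) (c : Fin D × Bool → Fin l → Bool) :
    (Mw B c).card = 2 * D * l * B := by
  classical
  have h : Mw B c = (Finset.univ : Finset (((Fin D × Bool) × Fin l) × Fin B)).image
      fun x => (x.1, (c x.1.1 x.1.2, x.2)) := by
    ext ⟨p, b, j⟩
    rw [mem_Mw, Finset.mem_image]
    constructor
    · intro h
      exact ⟨(p, j), Finset.mem_univ _, by simp only at h; rw [h]⟩
    · rintro ⟨⟨p', j'⟩, _, h⟩
      simp only [Prod.mk.injEq] at h ⊢
      rw [← h.2.1, ← h.1]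
  rw [h, Finset.card_image_of_injective, Finset.card_univ]
  · rw [Fintype.card_prod, card_pos, Fintype.card_fin]
  · rintro ⟨p, j⟩ ⟨p', j'⟩ h
    simp only [Prod.mk.injEq] at h ⊢
    exact ⟨h.1, h.2.2⟩

theorem card_sdiff_Mw {D l : ℕ} (B : ℕ) (c c' : Fin D × Bool → Fin l → Bool) :
    (Mw B c' \ Mw B c).card = hamd c c' * B := by
  classical
  have h : Mw B c' \ Mw B c = ((Finset.univ.filter fun p : (Fin D × Bool) × Fin l =>
      c p.1 p.2 ≠ c' p.1 p.2) ×ˢ (Finset.univ : Finset (Fin B))).image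
      fun x => (x.1, (c' x.1.1 x.1.2, x.2)) := by
    ext ⟨p, b, j⟩
    rw [Finset.mem_sdiff, mem_Mw, mem_Mw, Finset.mem_image]
    constructor
    · rintro ⟨h1, h2⟩
      simp only at h1 h2
      refine ⟨(p, j), ?_, by rw [h1]⟩
      rw [Finset.mem_product, Finset.mem_filter]
      exact ⟨⟨Finset.mem_univ _, fun h3 => h2 (h1.trans h3.symm)⟩, Finset.mem_univ _⟩
    · rintro ⟨⟨p', j'⟩, h1, h2⟩
      rw [Finset.mem_product, Finset.mem_filter] at h1
      simp only [Prod.mk.injEq] at h2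
      obtain ⟨rfl, rfl, rfl⟩ := h2
      exact ⟨rfl, fun h3 => h1.1.2 h3.symm⟩
  rw [h, Finset.card_image_of_injective, Finset.card_product, Finset.card_univ, Fintype.card_fin,
    hamd]
  rintro ⟨p, j⟩ ⟨p', j'⟩ h
  simp only [Prod.mk.injEq] at h ⊢
  exact ⟨h.1, h.2.2⟩

end balls

section
variable {F : Type} [Field F] {V Ya : Type} [DecidableEq V]

/-- the product of a weight with the uniform distribution -/
noncomputable def wg {Ω : Type} (w : Ω → ℝ) (Γ : Type) [Fintype Γ] (i : Ω × Γ) : ℝ :=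
  w i.1 / Fintype.card Γ

theorem wg_nonneg {Ω Γ : Type} [Fintype Γ] (w : Ω → ℝ) (hw0 : ∀ i, 0 ≤ w i) (i : Ω × Γ) :
    0 ≤ wg w Γ i := div_nonneg (hw0 _) (Nat.cast_nonneg _)

theorem wg_sum {Ω Γ : Type} [Fintype Ω] [Fintype Γ] [Nonempty Γ] (w : Ω → ℝ)
    (hw1 : ∑ i, w i = 1) : ∑ i, wg w Γ i = 1 := by
  have hΓ : (0 : ℝ) < Fintype.card Γ := by
    have : 0 < Fintype.card Γ := Fintype.card_pos
    exact_mod_cast this
  rw [Fintype.sum_prod_type]
  simp only [wg, Finset.sum_const, Finset.card_univ, nsmul_eq_mul]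
  rw [← Finset.mul_sum]
  simp_rw [div_eq_mul_inv]
  rw [← Finset.sum_mul, hw1]
  field_simp

theorem wg_pr {Ω Γ : Type} [Fintype Ω] [Fintype Γ] [Nonempty Γ] (w : Ω → ℝ)
    (p : Ω × Γ → Prop) (ε : ℝ) (h : ∀ g, Pr w (fun ω => p (ω, g)) ≤ ε) :
    Pr (wg w Γ) p ≤ ε := by
  classical
  rw [Pr_eq]
  have hΓ : (0 : ℝ) < Fintype.card Γ := by
    have : 0 < Fintype.card Γ := Fintype.card_pos
    exact_mod_cast this
  rw [Fintype.sum_prod_type_right]
  have h3 : ∀ g : Γ, ∑ ω, wg w Γ (ω, g) * (if p (ω, g) then (1:ℝ) else 0) ≤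
      ε / Fintype.card Γ := by
    intro g
    have h4 := h g
    rw [Pr_eq] at h4
    rw [le_div_iff₀ hΓ, Finset.sum_mul]
    refine le_trans (le_of_eq ?_) h4
    refine Finset.sum_congr rfl fun ω _ => ?_
    rw [wg]
    field_simp
  calc ∑ g : Γ, ∑ ω, wg w Γ (ω, g) * (if p (ω, g) then (1:ℝ) else 0) ≤
        ∑ _g : Γ, ε / Fintype.card Γ := Finset.sum_le_sum fun g _ => h3 g
    _ = ε := by
        rw [Finset.sum_const, Finset.card_univ, nsmul_eq_mul]
        field_simp

theorem wg_avg {Ω Γ : Type} [Fintype Ω] [Fintype Γ] [Nonempty Γ] (w : Ω → ℝ)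
    (hw0 : ∀ i, 0 ≤ w i) (hw1 : ∑ i, w i = 1) (a : Ω × Γ → ℕ) (E : ℝ)
    (h : ∀ ω, ∑ g, (a (ω, g) : ℝ) ≤ Fintype.card Γ * E) :
    ∑ i, wg w Γ i * (a i : ℝ) ≤ E := by
  have hΓ : (0 : ℝ) < Fintype.card Γ := by
    have : 0 < Fintype.card Γ := Fintype.card_pos
    exact_mod_cast this
  rw [Fintype.sum_prod_type]
  calc ∑ ω, ∑ g : Γ, wg w Γ (ω, g) * (a (ω, g) : ℝ)
      = ∑ ω, w ω / Fintype.card Γ * ∑ g : Γ, (a (ω, g) : ℝ) := by
        refine Finset.sum_congr rfl fun ω _ => ?_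
        rw [Finset.mul_sum]
        rfl
    _ ≤ ∑ ω, w ω / Fintype.card Γ * (Fintype.card Γ * E) := by
        refine Finset.sum_le_sum fun ω _ => ?_
        exact mul_le_mul_of_nonneg_left (h ω) (div_nonneg (hw0 ω) hΓ.le)
    _ = E := by
        rw [← Finset.sum_mul]
        simp_rw [div_eq_mul_inv]
        rw [← Finset.sum_mul, hw1]
        field_simp

/-- RANDOM TESTS, arbitrary polynomials, two-sided error, words of bits. -/
theorem random_bits {Γ Ω : Type} [Group Γ] [Fintype Γ] [MulAction Γ V] [Fintype V] [Fintype Ω]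
    (w : Ω → ℝ) (hw0 : ∀ i, 0 ≤ w i) (hw1 : ∑ i, w i = 1)
    (f : Ω → MvPolynomial (V ⊕ Ya) F) (P : Finset V → Prop) (ε1 ε2 : ℝ)
    (hyes : ∀ S, P S → Pr w (fun i => restr S (f i) = 0) ≤ ε1)
    (hno : ∀ S, ¬ P S → Pr w (fun i => restr S (f i) ≠ 0) ≤ ε2)
    {dg : ℕ} (hdg : ∀ i, ∀ μ ∈ (f i).support, ∑ e, μ (Sum.inl e) ≤ dg)
    (hinv : ∀ (g : Γ) (S : Finset V), P S → P (S.image fun e => g • e)) {D l B : ℕ}
    (hD : 1 ≤ D) (hl : 1 ≤ l) (hB : 1 ≤ B)
    (X : ((Fin D × Bool) × Fin l) × (Bool × Fin B) → V)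
    (Y : Fin D × (Fin l → Bool) × (Fin l → Bool) → V) (Z : Finset V)
    (hinj : Function.Injective (Sum.elim X Y)) (hX : ∀ x, X x ∉ Z) (hY : ∀ y, Y y ∉ Z)
    (h1 : ∀ (c : Fin D × Bool → Fin l → Bool) (S : Finset V), P S →
      (∀ e ∈ S, e ∈ Z ∨ (∃ x, e = X x) ∨ ∃ b, e = Y (b, c (b, false), c (b, true))) →
      (∀ h i j, X ((h, i), (c h i, j)) ∈ S) ∧ ∀ b, Y (b, c (b, false), c (b, true)) ∈ S)
    {N : ℕ} (hN1 : 1 ≤ N)
    (h2 : ∀ c : Fin D × Bool → Fin l → Bool, ∃ S : Finset V, P S ∧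
      (∀ e ∈ S, e ∈ Z ∨ (∃ h i j, e = X ((h, i), (c h i, j))) ∨
        ∃ b, e = Y (b, c (b, false), c (b, true))) ∧
      (∀ T ⊆ S, P T → T = S) ∧ S.card = N ∧
      ∀ e ∈ S, ∀ e' ∈ S, ∃ h : Γ, (S.image fun x => h • x) = S ∧ h • e = e')
    (β : ℝ) (hβ : 0 < β) (A L : ℕ) (hA : 1 ≤ A) (hL1 : 1 ≤ L) (hL : A * (D * dg) ≤ N * L)
    (τ T0 : ℕ) (hτ : (T0 : ℝ) + β * (2 * D * l * B) ≤ τ * B)
    {l0 : ℕ} {Q R : ℝ≥0∞} (hQ : Q < 1) (hR : ∀ i, ∀ D' ≤ L, Pool.RT.SmallK (f i) D' l0 Q R)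
    (hT0 : (2 : ℝ≥0∞) ^ (2 * D * l) * Q ^ T0 ≤ 1 / 2) :
    Q ^ l0 * ENNReal.ofReal ((1 - (ε1 + ε2 / β + 1 / A)) * 2 ^ (2 * D * l)) ≤
      2 * R * ((L + 1) * ∑ j ∈ Finset.range τ, (2 * D * l).choose j : ℕ) := by
  classical
  choose S hS hS1 hS2 hS3 hS4 using h2
  have hYinj : Function.Injective Y := fun a b h => by
    have := @hinj (Sum.inr a) (Sum.inr b) h
    simpa using this
  have himg : ∀ (g h : Γ) (A : Finset V), ((A.image fun e => h • e).image fun e => g • e) =
      A.image fun e => (g * h) • e := by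
    intro g h A
    rw [Finset.image_image]
    refine Finset.image_congr fun e _ => ?_
    simp [mul_smul]
  have hmemg : ∀ (g : Γ) (A : Finset V) (e : V), g • e ∈ (A.image fun e => g • e) ↔ e ∈ A := by
    intro g A e
    rw [Finset.mem_image]
    constructor
    · rintro ⟨e', he', h⟩
      rw [smul_left_cancel_iff] at h
      rw [← h]
      exact he'
    · intro h
      exact ⟨e, h, rfl⟩
  -- chosen monomials
  set ν : Ω → Finset V → (V ⊕ Ya) →₀ ℕ := fun ω A =>
    if h : ∃ μ ∈ (f ω).support, CDET.sup μ ⊆ A then h.choose else 0 with hν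
  have hν1 : ∀ ω A, restr A (f ω) ≠ 0 → ν ω A ∈ (f ω).support ∧ CDET.sup (ν ω A) ⊆ A := by
    intro ω A h
    have h3 := exists_sup (f ω) (fun S => restr S (f ω) ≠ 0) (fun S => Iff.rfl) A h
    rw [hν]
    simp only
    rw [dif_pos h3]
    exact h3.choose_spec
  have hνsup : ∀ ω A, CDET.sup (ν ω A) ⊆ A := by
    intro ω A
    rw [hν]
    simp only
    split_ifs with h
    · exact h.choose_spec.2
    · intro e he
      rw [CDET.sup, Finset.mem_filter] at he
      exact absurd rfl he.2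
  have hνdeg : ∀ ω A, ∑ e, ν ω A (Sum.inl e) ≤ dg := by
    intro ω A
    rw [hν]
    simp only
    split_ifs with h
    · exact hdg ω _ h.choose_spec.1
    · simp
  -- the derivative sets
  set T : (Fin D × Bool → Fin l → Bool) → Finset V := fun c => (Yw c).image Y with hT
  have hTS : ∀ c, T c ⊆ S c := by
    intro c e he
    obtain ⟨y, hy, rfl⟩ := Finset.mem_image.1 he
    obtain ⟨b, rfl⟩ := (mem_Yw c y).1 hy
    refine (h1 c (S c) (hS c) ?_).2 b
    intro e he
    rcases hS1 c e he with h | ⟨h, i, j, rfl⟩ | ⟨b, rfl⟩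
    · exact Or.inl h
    · exact Or.inr (Or.inl ⟨_, rfl⟩)
    · exact Or.inr (Or.inr ⟨b, rfl⟩)
  have hTD : ∀ c, (T c).card = D := by
    intro c
    rw [hT]
    simp only
    rw [Finset.card_image_of_injective _ hYinj, card_Yw]
  -- weights
  have : Nonempty Γ := ⟨1⟩
  have hNpos : (0 : ℝ) < N := by exact_mod_cast hN1
  have hdegy : ∀ c, ∑ i : Ω × Γ, wg w Γ i * ((∑ y, ν i.1 ((S c).image fun e => i.2 • e)
      (Sum.inl (i.2 • Y y)) : ℕ) : ℝ) ≤ D * dg / N := by
    intro c
    have h3 : ∀ (ω : Ω) (g : Γ), ∑ y, ν ω ((S c).image fun e => g • e) (Sum.inl (g • Y y)) =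
        ∑ e ∈ T c, ν ω ((S c).image fun e => g • e) (Sum.inl (g • e)) := by
      intro ω g
      rw [hT]
      simp only
      rw [Finset.sum_image fun x _ y _ h => hYinj h]
      symm
      refine Finset.sum_subset (Finset.subset_univ _) ?_
      intro y _ hy
      by_contra h4
      apply hy
      have h5 : g • Y y ∈ CDET.sup (ν ω ((S c).image fun e => g • e)) := by
        rw [CDET.sup, Finset.mem_filter]
        exact ⟨Finset.mem_univ _, h4⟩
      have h6 := (hmemg g (S c) (Y y)).1 (hνsup _ _ h5)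
      rcases hS1 c _ h6 with h7 | ⟨h, i, j, h7⟩ | ⟨b, h7⟩
      · exact absurd h7 (hY y)
      · have := @hinj (Sum.inr y) (Sum.inl _) h7
        simp at this
      · rw [hYinj h7]
        exact (mem_Yw c _).2 ⟨b, rfl⟩
    refine wg_avg w hw0 hw1 (fun i => ∑ y, ν i.1 ((S c).image fun e => i.2 • e)
      (Sum.inl (i.2 • Y y))) (D * dg / N) fun ω => ?_
    have h5 := avg_one (Γ := Γ) (ν ω) (hνdeg ω) (S c) (T c) (hTS c) (hS3 c) (hTD c) (hS4 c)
    have h6 : N * ∑ g : Γ, ∑ y, ν ω ((S c).image fun e => g • e) (Sum.inl (g • Y y)) ≤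
        Fintype.card Γ * (D * dg) := by
      rw [Finset.sum_congr rfl fun g _ => h3 ω g]
      exact h5
    have h7 : (N : ℝ) * ∑ g : Γ, ((∑ y, ν ω ((S c).image fun e => g • e)
        (Sum.inl (g • Y y)) : ℕ) : ℝ) ≤ Fintype.card Γ * (D * dg) := by
      exact_mod_cast h6
    rw [← mul_div_assoc, le_div_iff₀ hNpos, mul_comm]
    exact h7
  set Hc : (Fin D × Bool → Fin l → Bool) → Finset V := fun c =>
    Finset.univ.filter fun e => e ∈ Z ∨ (∃ x, e = X x) ∨ ∃ y ∈ Yw c, e = Y y with hHc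
  have hHm : ∀ c e, e ∈ Hc c ↔ e ∈ Z ∨ (∃ x, e = X x) ∨ ∃ y ∈ Yw c, e = Y y := by
    intro c e
    rw [hHc]
    simp only [Finset.mem_filter, Finset.mem_univ, true_and]
  have hHsub : ∀ c (S' : Finset V), P S' → S' ⊆ Hc c → ∀ x ∈ Mw B c, X x ∈ S' := by
    intro c S' hS' hsub x hx
    have h4 := (h1 c _ hS' (by
      intro e he
      rcases (hHm c e).1 (hsub he) with h | h | ⟨y, hy, h⟩
      · exact Or.inl h
      · exact Or.inr (Or.inl h)
      · obtain ⟨b, rfl⟩ := (mem_Yw c y).1 hy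
        exact Or.inr (Or.inr ⟨b, h⟩))).1 x.1.1 x.1.2 x.2.2
    rw [mem_Mw] at hx
    have hxx : ((x.1.1, x.1.2), (c x.1.1 x.1.2, x.2.2)) = x := by
      rw [← hx]
    rwa [hxx] at h4
  have hyes' : ∀ c, Pr (wg w Γ) (fun i : Ω × Γ =>
      restr ((S c).image fun e => i.2 • e) (f i.1) = 0) ≤ ε1 := by
    intro c
    exact wg_pr w (fun i : Ω × Γ => restr ((S c).image fun e => i.2 • e) (f i.1) = 0) ε1
      fun g => hyes ((S c).image fun e => g • e) (hinv g (S c) (hS c))
  have hno' : ∀ c, ∀ x ∈ Mw B c, Pr (wg w Γ) (fun i : Ω × Γ =>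
      restr (((Hc c).image fun e => i.2 • e) \ {i.2 • X x}) (f i.1) ≠ 0) ≤ ε2 := by
    intro c x hx
    refine wg_pr w (fun i : Ω × Γ =>
      restr (((Hc c).image fun e => i.2 • e) \ {i.2 • X x}) (f i.1) ≠ 0) ε2 fun g => ?_
    refine hno (((Hc c).image fun e => g • e) \ {g • X x}) ?_
    intro hP
    have h4 := hHsub c _ (hinv g⁻¹ _ hP) (by
      intro e he
      rw [Finset.mem_image] at he
      obtain ⟨e', he', rfl⟩ := he
      rw [Finset.mem_sdiff] at he'
      obtain ⟨e'', he'', rfl⟩ := Finset.mem_image.1 he'.1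
      rw [inv_smul_smul]
      exact he'') x hx
    rw [Finset.mem_image] at h4
    obtain ⟨e', he', h5⟩ := h4
    rw [Finset.mem_sdiff, Finset.mem_singleton] at he'
    apply he'.2
    rw [← h5, smul_inv_smul]
  have hk' : ∀ c, Pr (wg w Γ) (fun i : Ω × Γ => L < ∑ y, ν i.1 ((S c).image fun e => i.2 • e)
      (Sum.inl (i.2 • Y y))) ≤ 1 / A := by
    intro c
    rw [Pr_eq]
    have hLpos : (0 : ℝ) < L := by exact_mod_cast hL1
    have hApos : (0 : ℝ) < A := by exact_mod_cast hA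
    have h3 := Pool.RT.markov (wg w Γ) (wg_nonneg w hw0) (fun i => ∑ y, ν i.1 ((S c).image fun e => i.2 • e)
      (Sum.inl (i.2 • Y y))) (D * dg / N) L hLpos (hdegy c)
    have h4 : (D * dg / N : ℝ) / L ≤ 1 / A := by
      rw [div_div, div_le_div_iff₀ (by positivity) hApos]
      have : (A * (D * dg) : ℝ) ≤ N * L := by exact_mod_cast hL
      linarith
    refine le_trans (le_of_eq ?_) (h3.trans h4)
    refine Finset.sum_congr rfl fun i _ => ?_
    simp only [Nat.cast_lt]
  have hmain := Pool.RT.core (I := Ω × Γ) (C := Fin D × Bool → Fin l → Bool) (wg w Γ)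
    (wg_nonneg w hw0) (wg_sum w hw1) (fun i => f i.1) (fun i x => i.2 • X x) (fun i y => i.2 • Y y)
    (fun i => Z.image fun e => i.2 • e)
    (by
      intro i a b hab
      apply hinj
      rcases a with a | a <;> rcases b with b | b <;> simpa using hab)
    (by
      intro i x hx
      rw [hmemg] at hx
      exact hX x hx)
    (by
      intro i y hy
      rw [hmemg] at hy
      exact hY y hy)
    (Mw B) Yw (fun i c => (S c).image fun e => i.2 • e)
    (fun i c => (Hc c).image fun e => i.2 • e)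
    (by
      intro i c e he
      obtain ⟨e', he', rfl⟩ := Finset.mem_image.1 he
      rcases hS1 c e' he' with h | ⟨h, i, j, rfl⟩ | ⟨b, rfl⟩
      · exact Or.inl ((hmemg _ _ _).2 h)
      · exact Or.inr (Or.inl ⟨_, by rw [mem_Mw], rfl⟩)
      · exact Or.inr (Or.inr ⟨_, (mem_Yw c _).2 ⟨b, rfl⟩, rfl⟩))
    (by
      rintro i c e (h | ⟨x, rfl⟩ | ⟨y, hy, rfl⟩)
      · obtain ⟨e', he', rfl⟩ := Finset.mem_image.1 h
        rw [hmemg, hHm]
        exact Or.inl he'
      · rw [hmemg, hHm]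
        exact Or.inr (Or.inl ⟨x, rfl⟩)
      · rw [hmemg, hHm]
        exact Or.inr (Or.inr ⟨y, hy, rfl⟩))
    (fun i c => ν i.1 ((S c).image fun e => i.2 • e))
    (fun i c h => hν1 i.1 _ h) ε1 ε2 (1 / A) β hβ L hyes' hno' hk'
    (by
      -- the error of the empty set
      have hx : ((⟨⟨0, hD⟩, false⟩, ⟨0, hl⟩), (false, ⟨0, hB⟩)) ∈
          Mw (D := D) (l := l) B (fun _ _ => false) := by rw [mem_Mw]
      refine le_trans ?_ (hno' (fun _ _ => false) _ hx)
      rw [Pr_eq]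
      refine Finset.sum_nonneg fun i _ => mul_nonneg (wg_nonneg w hw0 i) ?_
      split_ifs <;> norm_num)
    (fun c c' => hamd c c' < τ)
    (by
      intro c
      by_contra h
      push Not at h
      rw [hamd_self] at h
      have hτ0 : τ = 0 := by omega
      rw [hτ0] at hτ
      have h4 : (0 : ℝ) < β * (2 * D * l * B) := by
        have : (0 : ℝ) < 2 * D * l * B := by
          have : 0 < 2 * D * l * B := by positivity
          exact_mod_cast this
        positivity
      have h5 : (0 : ℝ) ≤ T0 := Nat.cast_nonneg _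
      simp at hτ
      linarith)
    (fun c c' h => by rw [hamd_comm]; exact h)
    (∑ j ∈ Finset.range τ, (2 * D * l).choose j) T0
    (fun c A hA => ball_le c A hA)
    (by
      intro c c' h
      push Not at h
      rw [card_sdiff_Mw, card_Mw]
      have h3 : (τ : ℝ) * B ≤ hamd c c' * B := by
        have : (τ : ℝ) ≤ hamd c c' := by exact_mod_cast h
        gcongr
      push_cast
      linarith)
    (l0 := l0) (R := R) hQ (fun i D' hD' => hR i.1 D' hD')
    (by
      refine le_trans (le_of_eq ?_) hT0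
      congr 1
      rw [Fintype.card_fun, Fintype.card_fun, Fintype.card_prod, Fintype.card_bool,
        Fintype.card_fin, Fintype.card_fin, ← pow_mul]
      push_cast
      congr 1
      ring)
  have hcard : (Fintype.card (Fin D × Bool → Fin l → Bool) : ℝ) = 2 ^ (2 * D * l) := by
    rw [Fintype.card_fun, Fintype.card_fun, Fintype.card_prod, Fintype.card_bool,
      Fintype.card_fin, Fintype.card_fin, ← pow_mul]
    push_cast
    congr 1
    ring
  rw [hcard] at hmain
  exact hmain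

end

end Pool.GT
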