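import Pool.Agent.Helper10.GT.Low

/-!
Determinant sums for arbitrary tests (MP_b6562f_lc): probabilities of good exponents.
-/

set_option autoImplicit false

namespace Pool.GT

open Finset hiding sup
open MvPolynomial Pool.SDL Pool.Agent.SDet Pool.Agent.Helper76 Pool.Agent.Helper76.CDET
open scoped ENNReal BigOperators

section

theorem geom_cancel {n : ℕ} (Q : ℝ≥0∞) (hQ : Q < 1) :
    (1 - Q) ^ n * ((1 - Q)⁻¹) ^ n = 1 := by
  have h10 : (1 : ℝ≥0∞) - Q ≠ 0 := (tsub_pos_of_lt hQ).ne'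
  have h1t : (1 : ℝ≥0∞) - Q ≠ ∞ := (tsub_le_self.trans_lt ENNReal.one_lt_top).ne
  rw [← mul_pow, ENNReal.mul_inv_cancel h10 h1t, one_pow]

/-- exponents which are positive on a set -/
theorem tsum_pos_on {σ : Type} [Fintype σ] [DecidableEq σ] (A : Finset σ) (Q : ℝ≥0∞)
    (hQ : Q < 1) [DecidablePred fun u : σ → ℕ => ∀ s ∈ A, 1 ≤ u s] :
    (1 - Q) ^ Fintype.card σ *
      ∑' u : σ → ℕ, (if ∀ s ∈ A, 1 ≤ u s then Q ^ (∑ s, u s) else 0) = Q ^ A.card := by
  classical
  have h := tsum_prod_pi (ι := σ) ℕ (fun s x => if s ∈ A → 1 ≤ x then Q ^ x else 0)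
  have h2 : ∀ u : σ → ℕ, (∏ s, if s ∈ A → 1 ≤ u s then Q ^ u s else 0) =
      if ∀ s ∈ A, 1 ≤ u s then Q ^ (∑ s, u s) else 0 := by
    intro u
    split_ifs with hu
    · rw [← Finset.prod_pow_eq_pow_sum]
      exact Finset.prod_congr rfl fun s _ => if_pos (hu s)
    · push Not at hu
      obtain ⟨s, hs, hs2⟩ := hu
      refine Finset.prod_eq_zero (Finset.mem_univ s) (if_neg ?_)
      intro h3
      have := h3 hs
      omega
  simp_rw [h2] at h
  have h3 : ∀ s : σ, (∑' x : ℕ, if s ∈ A → 1 ≤ x then Q ^ x else 0) =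
      (if s ∈ A then Q else 1) * (1 - Q)⁻¹ := by
    intro s
    by_cases hs : s ∈ A
    · simp only [hs, true_imp_iff, if_true]
      rw [tsum_eq_zero_add' ENNReal.summable]
      simp only [le_add_iff_nonneg_left, zero_le, if_true, pow_succ']
      rw [ENNReal.tsum_mul_left, ENNReal.tsum_geometric]
      simp
    · simp only [hs, false_imp_iff, if_true, if_false, one_mul]
      rw [ENNReal.tsum_geometric]
  rw [h]
  simp_rw [h3]
  rw [Finset.prod_mul_distrib, Finset.prod_const, Finset.card_univ, mul_comm, mul_assoc,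
    mul_comm (((1 - Q)⁻¹) ^ Fintype.card σ), geom_cancel Q hQ, mul_one, Finset.prod_ite,
    Finset.prod_const, Finset.prod_const_one, mul_one]
  congr 2
  ext s
  simp

/-- the union bound -/
theorem union_bound {σ C : Type} [Fintype σ] [DecidableEq σ] [Fintype C] [DecidableEq C]
    (M : C → Finset σ) (c : C) (Q : ℝ≥0∞) (hQ : Q < 1)
    [DecidablePred fun u : σ → ℕ => Good M c u] :
    1 ≤ (1 - Q) ^ Fintype.card σ *
      ∑' u : σ → ℕ, (if Good M c u then Q ^ (∑ s, u s) else 0) +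
      ∑ c' ∈ Finset.univ.erase c, Q ^ (M c' \ M c).card := by
  classical
  have h1 := tsum_all (S := σ) Q
  have h2 : ∀ u : σ → ℕ, Q ^ (∑ s, u s) ≤ (if Good M c u then Q ^ (∑ s, u s) else 0) +
      ∑ c' ∈ Finset.univ.erase c,
        (if ∀ s ∈ M c' \ M c, 1 ≤ u s then Q ^ (∑ s, u s) else 0) := by
    intro u
    by_cases hu : Good M c u
    · rw [if_pos hu]
      exact le_self_add
    · rw [if_neg hu, zero_add]
      unfold Good at hu
      push Not at hu
      obtain ⟨c', hc', h3⟩ := hu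
      have h4 : ∀ s ∈ M c' \ M c, 1 ≤ u s := by
        intro s hs
        rw [Finset.mem_sdiff] at hs
        exact Nat.one_le_iff_ne_zero.2 (h3 s hs.1 hs.2)
      calc Q ^ (∑ s, u s) = (if ∀ s ∈ M c' \ M c, 1 ≤ u s then Q ^ (∑ s, u s) else 0) := by
            rw [if_pos h4]
        _ ≤ _ := Finset.single_le_sum (f := fun c' => (if ∀ s ∈ M c' \ M c, 1 ≤ u s then
            Q ^ (∑ s, u s) else 0)) (fun _ _ => zero_le)
            (Finset.mem_erase.2 ⟨hc', Finset.mem_univ _⟩)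
  calc (1 : ℝ≥0∞) = (1 - Q) ^ Fintype.card σ * ∑' u : σ → ℕ, Q ^ (∑ s, u s) := by
        rw [h1, geom_cancel Q hQ]
    _ ≤ (1 - Q) ^ Fintype.card σ * ∑' u : σ → ℕ,
        ((if Good M c u then Q ^ (∑ s, u s) else 0) +
          ∑ c' ∈ Finset.univ.erase c,
            (if ∀ s ∈ M c' \ M c, 1 ≤ u s then Q ^ (∑ s, u s) else 0)) := by
        gcongr with u
        exact h2 u
    _ = _ := by
        rw [ENNReal.tsum_add, mul_add, Summable.tsum_finsetSum fun c _ => ENNReal.summable,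
          Finset.mul_sum]
        congr 1
        exact Finset.sum_congr rfl fun c' _ => tsum_pos_on _ Q hQ

end

end Pool.GT
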